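import Pool.Agent.Helper63.LT.Zh
import Pool.Agent.Helper35.LZ.Gr
import Pool.Agent.Helper35.LZ.Gd
import Pool.Agent.Helper35.LZ.Zp

/-!
PROJECT LT, block Z. Part m: the zero estimate.
-/

namespace Pool.Agent.Helper63.LT

open Finset MvPowerSeries
open Pool.Agent.Helper34.LT (Theta)

noncomputable section

/-! Piece Zm-1: the analytic input -/

/-- The analytic input: dimensions and orders of vanishing. -/
structure Inp {ι A : Type} [Fintype ι] [AddCommGroup A] (γ : A →+ (ι → ℂ))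
    (l : A →+ ((ι → ℂ) →ₗ[ℂ] ℂ)) (c : A → ℂ) (C C1 : ℕ) : Prop where
  fin : ∀ k, Module.Finite ℂ (ThS γ l c k)
  dim : ∃ C : ℕ, ∀ k, Module.finrank ℂ (ThS γ l c k) ≤ C * (k + 1) ^ Fintype.card ι
  fin' : ∀ k, Module.Finite ℂ (ThS γ l (cc c) (2 * k))
  dim' : ∀ k, Module.finrank ℂ (ThS γ l (cc c) (2 * k)) ≤ C * (k + 1) ^ Fintype.card ι
  sch : ∀ (k : ℕ) (F : Ent ι), F ∈ ThS γ l c k → F ≠ 0 → ∀ (b : Module.Basis ι ℂ (ι → ℂ)) (N : ℕ),
    (∀ α : ι →₀ ℕ, α.degree ≤ N → evE 0 ((cE b).pw α F) = 0) → N ≤ C1 * k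

/-- PROOF. `Pool.Agent.Helper35.LZ.dim_ThS` (our `ThS` is its preimage in `Ent ι`, linearly equivalent
to it), also for `2 • l` and `fun a => c a + c (-a)`, whose space of degree `k` is our
`ThS γ l (cc c) (2 * k)` and which is base point free in degree `1` (`ThS_pair'` with `w = 0`... or
`z ↦ F (w + z) G (w - z)`: given `p` take `F p ≠ 0`, `G (-p) ≠ 0`, `w = 0`), and `Pool.Agent.Helper35.LZ.schwarz` with
`coeff_van`, `iter_line`. -/
theorem exists_Inp {ι A : Type} [Fintype ι] [AddCommGroup A] (γ : A →+ (ι → ℂ))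
    (l : A →+ ((ι → ℂ) →ₗ[ℂ] ℂ)) (c : A → ℂ)
    (hc : ∃ R : ℝ, ∀ z, ∃ a, ‖z - γ a‖ ≤ R)
    (hb : ∀ p, ∃ F, Theta γ l c 1 F ∧ F p ≠ 0) : ∃ C C1 : ℕ, Inp γ l c C C1 := by
  obtain ⟨C1, h1⟩ := Pool.Agent.Helper35.LZ.schwarz_nat hb hc
  obtain ⟨C2, h2⟩ := Pool.Agent.Helper35.LZ.dim_nat hb hc
  obtain ⟨C, h3⟩ := Pool.Agent.Helper35.LZ.dim_two hb hc
  exact ⟨C, C1, fun k => (h2 k).1, ⟨C2, fun k => (h2 k).2⟩, fun k => (h3 k).1, fun k => (h3 k).2,
    fun k F hF h0 b N h => le_trans (Nat.le_succ N) (h1 k F hF h0 b N h)⟩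

/-! Piece Zm-2: an adapted basis -/

/-- PROOF. Extend a basis of `V` by a basis of a complement; reindex by `ι` (dimension count). -/
theorem adapted {ι : Type} [Fintype ι] (V : Submodule ℂ (ι → ℂ)) :
    ∃ (b : Module.Basis ι ℂ (ι → ℂ)) (J : Finset ι), J.card = Module.finrank ℂ V ∧
      ∀ v, v ∈ V ↔ ∀ i, i ∉ J → b.repr v i = 0 := by
  classical
  obtain ⟨W, hW⟩ := Submodule.exists_isCompl V
  let bV := Module.finBasis ℂ V
  let bW := Module.finBasis ℂ W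
  let e := Submodule.prodEquivOfIsCompl V W hW
  let b0 := (bV.prod bW).map e
  let σ := b0.indexEquiv (Pi.basisFun ℂ ι)
  refine ⟨b0.reindex σ, Finset.univ.map (Function.Embedding.inl.trans σ.toEmbedding), ?_, ?_⟩
  · rw [Finset.card_map, Finset.card_univ, Fintype.card_fin]
  · intro v
    have h1 : ∀ i, (b0.reindex σ).repr v i = b0.repr v (σ.symm i) := by
      intro i
      rw [Module.Basis.repr_reindex_apply]
    have h2 : ∀ j, b0.repr v (Sum.inr j) = bW.repr (e.symm v).2 j := by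
      intro j
      show ((bV.prod bW).map e).repr v (Sum.inr j) = _
      rw [Module.Basis.map_repr]
      show (bV.prod bW).repr (e.symm v) (Sum.inr j) = _
      rw [Module.Basis.prod_repr_inr]
    rw [← Submodule.prodEquivOfIsCompl_symm_apply_snd_eq_zero V W hW]
    constructor
    · intro h i hi
      rw [h1]
      rcases hs : σ.symm i with j | j
      · exfalso
        apply hi
        rw [Finset.mem_map]
        exact ⟨j, Finset.mem_univ _, by
          show σ (Sum.inl j) = i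
          rw [← hs, Equiv.apply_symm_apply]⟩
      · rw [h2]
        show bW.repr (e.symm v).2 j = 0
        rw [show (e.symm v).2 = 0 from h, map_zero]
        rfl
    · intro h
      change (e.symm v).2 = 0
      apply bW.repr.injective
      rw [map_zero]
      ext j
      rw [← h2]
      have h3 := h (σ (Sum.inr j)) (by
        rw [Finset.mem_map]
        rintro ⟨j', -, hj'⟩
        have h4 : (Sum.inl j' : Fin _ ⊕ Fin _) = Sum.inr j := σ.injective hj'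
        exact absurd h4 (by simp))
      rw [h1, Equiv.symm_apply_apply] at h3
      rw [h3]
      rfl

namespace LD

variable {ι A : Type} [Fintype ι] [AddCommGroup A] (X : LD ι A)

/-! Piece Zm-3 -/

/-- PROOF. `CD.pw_nat` with `θ = X.SS.val`. -/
theorem pw_val (α : ι →₀ ℕ) (x : X.SS) :
    ((X.dS.pw α x : X.SS) : MvPowerSeries ι ℂ) = (psD ι).pw α (x : MvPowerSeries ι ℂ) :=
  CD.pw_nat X.dS (psD ι) X.SS.val (fun _ _ => rfl) α x

private theorem Zm3_le {β β' α : ι →₀ ℕ} (h : β + β' = α) (i : ι) : β i ≤ α i := by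
  rw [← h, Finsupp.add_apply]
  exact Nat.le_add_right _ _

private theorem Zm3_deg {β β' α : ι →₀ ℕ} (h : β + β' = α) : β.degree ≤ α.degree := by
  rw [← h, map_add]
  exact Nat.le_add_right _ _

private theorem Zm3_cc (α : ι →₀ ℕ) (L : ℕ) (F : Ent ι) (hF : F ∈ X.T L) :
    constantCoeff ((X.dS.pw α (X.el L F hF) : X.SS) : MvPowerSeries ι ℂ) =
      fct α * coeff α (X.fr L F) := by
  rw [pw_val, el_val, psD_pw]

/-- PROOF. `pw_val`, `psD_pw`; `coeff α (TT b F * iu ^ L)` is a sum over `(β, β') ∈ antidiagonal α` of multiples of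
`coeff β (TT b F)` (`coeff_tay`), `β ≤ α` supported in `J` of degree at most `N`. -/
theorem van_el (J : Finset ι) (N L : ℕ) (F : Ent ι) (hF : F ∈ X.T L)
    (h : ∀ α : ι →₀ ℕ, (∀ i, i ∉ J → α i = 0) → α.degree ≤ N → evE 0 ((cE X.b).pw α F) = 0)
    (α : ι →₀ ℕ) (hα : ∀ i, i ∉ J → α i = 0) (hN : α.degree ≤ N) :
    constantCoeff ((X.dS.pw α (X.el L F hF) : X.SS) : MvPowerSeries ι ℂ) = 0 := by
  classical
  rw [Zm3_cc, fr_apply, coeff_mul]
  refine mul_eq_zero_of_right _ (Finset.sum_eq_zero fun q hq => ?_)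
  have hq' : q.1 + q.2 = α := Finset.HasAntidiagonal.mem_antidiagonal.1 hq
  have h1 : coeff q.1 (TT X.b F) = 0 := by
    rw [TT_def, coeff_tay, h q.1 (fun i hi => ?_) ((Zm3_deg hq').trans hN), smul_zero]
    have h2 := Zm3_le hq' i
    rw [hα i hi] at h2
    exact Nat.le_zero.1 h2
  rw [h1, zero_mul]

/-- The converse for all directions. PROOF. `TT b F = fr L F * TT b (u0 ^ L)`, same argument. -/
theorem van_of_el (N L : ℕ) (F : Ent ι) (hF : F ∈ X.T L)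
    (h : ∀ α : ι →₀ ℕ, α.degree ≤ N →
      constantCoeff ((X.dS.pw α (X.el L F hF) : X.SS) : MvPowerSeries ι ℂ) = 0)
    (α : ι →₀ ℕ) (hN : α.degree ≤ N) : evE 0 ((cE X.b).pw α F) = 0 := by
  classical
  have h1 : TT X.b F = X.fr L F * TT X.b (X.u0 ^ L) := by
    rw [fr_apply, mul_assoc, map_pow, ← mul_pow, mul_comm X.iu, X.mul_iu, one_pow, mul_one]
  have h2 : coeff α (TT X.b F) = 0 := by
    rw [h1, coeff_mul]
    refine Finset.sum_eq_zero fun q hq => ?_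
    have hq' : q.1 + q.2 = α := Finset.HasAntidiagonal.mem_antidiagonal.1 hq
    have h3 := h q.1 ((Zm3_deg hq').trans hN)
    rw [Zm3_cc] at h3
    rw [(mul_eq_zero.1 h3).resolve_left (fct_ne q.1), zero_mul]
  rw [TT_def, coeff_tay] at h2
  exact (smul_eq_zero.1 h2).resolve_left (inv_ne_zero (fct_ne α))

/-! Piece Zm-4 -/

/-- PROOF. `F = 0` or `T = 0` excluded. `D` from `exists_AData`; `f = el L F ≠ 0` (`fr_inj`), `f ∈ G L`;
`I r = IJ dS J f (r * T)`, monotone, `f ∈ I 0`; `q` = the kernel of `constantCoeff ∘ val`, a prime ideal, and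
`I m ≤ q` by `van_el`. `sel` gives `r`, `p`. If for all `a ≠ 0` there is `x ∈ p` with `dir a x ∉ p`: `caseA` (left).
Otherwise let `a ≠ 0` with `dir a p ⊆ p`; `v = ∑ i, a i • b i ∈ hh p`, `v ≠ 0`; `hh_span` and `hV` give `V ⊔ hh p = ⊤`,
so `all_mem` (with `N = T`: `IJ _ T ≤ IJ _ ((r + 1) * T) ≤ p`) gives `pw α f ∈ p ≤ q` for all `α` of degree at most `T`;
`van_of_el` and `Inp.sch` (right). -/
theorem core {C C1 : ℕ} (hI : Inp X.γ X.l X.c C C1)
    (hc : ∃ R : ℝ, ∀ z, ∃ a, ‖z - X.γ a‖ ≤ R)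
    (hb : ∀ z : ι → ℂ, ∃ F ∈ X.T 1, (F : (ι → ℂ) → ℂ) z ≠ 0)
    (V : Submodule ℂ (ι → ℂ)) (J : Finset ι)
    (hJ : ∀ v, v ∈ V ↔ ∀ i, i ∉ J → X.b.repr v i = 0)
    (hV : ∀ H : Submodule ℂ (ι → ℂ), H ≠ ⊥ →
      (∀ x ∈ H, x ∈ Submodule.span ℝ {y : ι → ℂ | y ∈ H ∧ ∃ a, y = X.γ a}) → V ⊔ H = ⊤)
    (L T : ℕ) (hT : 1 ≤ T) (F : Ent ι) (hF : F ∈ X.T L) (hF0 : F ≠ 0)
    (hvan : ∀ α : ι →₀ ℕ, (∀ i, i ∉ J → α i = 0) → α.degree ≤ Fintype.card ι * T →
      evE 0 ((cE X.b).pw α F) = 0) :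
    T ^ J.card ≤ C * (Fintype.card ι * (2 * L)) ^ Fintype.card ι ∨ T ≤ C1 * L := by
  obtain ⟨D, hDd, hDG⟩ := X.exists_AData hI.fin hI.dim hI.fin' C hI.dim'
  set f : X.SS := X.el L F hF with hf
  have hfG : f ∈ D.G L := by rw [hDG]; exact X.el_mem_G L F hF
  have hf0 : f ≠ 0 := by
    intro h
    apply hF0
    apply X.fr_inj L
    have h1 : X.fr L F = ((0 : X.SS) : MvPowerSeries ι ℂ) :=
      congrArg (fun x : X.SS => (x : MvPowerSeries ι ℂ)) h
    rw [map_zero]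
    exact h1
  let q : Ideal X.SS := RingHom.ker (((constantCoeff : MvPowerSeries ι ℂ →+* ℂ)).comp
    (X.SS.val : X.SS →+* MvPowerSeries ι ℂ))
  have hq : q.IsPrime := RingHom.ker_isPrime _
  have hqm : ∀ x : X.SS, x ∈ q ↔ constantCoeff (x : MvPowerSeries ι ℂ) = 0 := fun x => Iff.rfl
  have hIm : IJ X.dS J f (Fintype.card ι * T) ≤ q := by
    refine Ideal.span_le.2 ?_
    rintro x ⟨τ, h1, h2, rfl⟩
    exact (hqm _).2 (X.van_el J _ L F hF hvan τ h1 h2)
  have hI0 : IJ X.dS J f (0 * T) ≠ ⊥ := by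
    intro h
    apply hf0
    have h1 := mem_IJ X.dS J f (N := 0 * T) 0 (fun _ _ => rfl) (by simp)
    rw [h, CD.pw_zero] at h1
    simpa using h1
  obtain ⟨r, hr, p, hpm, hpI, hpq⟩ := sel (X.filt hI.fin hI.dim)
    (fun r => IJ X.dS J f (r * T)) (fun a b hab => IJ_mono X.dS J f (Nat.mul_le_mul_right T hab))
    hI0 q hq hIm
  have hpp : p.IsPrime := hpm.1.1
  have hp0 : ∀ x ∈ p, constantCoeff (x : MvPowerSeries ι ℂ) = 0 := fun x hx => (hqm x).1 (hpq hx)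
  by_cases hA : ∀ a : ι → ℂ, a ≠ 0 → ∃ x ∈ p, X.dS.dir a x ∉ p
  · left
    have h1 : p ∈ (IJ D.d J f (r * T)).minimalPrimes := by rw [hDd]; exact hpm
    have h2 : IJ D.d J f (r * T + T) ≤ p := by
      rw [hDd]
      have : r * T + T = (r + 1) * T := by ring
      rw [this]; exact hpI
    exact caseA D J L T r hT f hfG p h1 h2 (by rw [hDd]; exact hA)
  · right
    obtain ⟨a, ha, hap⟩ : ∃ a : ι → ℂ, a ≠ 0 ∧ ∀ x ∈ p, X.dS.dir a x ∈ p := by
      by_contra hcon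
      refine hA fun a ha => ?_
      by_contra hx
      exact hcon ⟨a, ha, fun x hxp => by_contra fun h => hx ⟨x, hxp, h⟩⟩
    have hH : X.hh p ≠ ⊥ := by
      intro h
      have hv : (∑ i, a i • X.b i) ∈ X.hh p := by
        intro x hx
        have : X.dv (∑ i, a i • X.b i) = X.dS.dir a := by
          unfold dv
          congr 1
          funext i
          rw [X.b.repr_sum_self]
        rw [this]
        exact hap x hx
      rw [h, Submodule.mem_bot] at hv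
      apply ha
      funext i
      have := X.b.repr_sum_self a
      rw [hv] at this
      have h3 := congrFun this i
      simpa using h3.symm
    have htop := hV (X.hh p) hH (X.hh_span p hI.fin hc hpp hp0 hb)
    have hall : ∀ α : ι →₀ ℕ, α.degree ≤ T → X.dS.pw α f ∈ p := by
      intro α hα
      refine X.all_mem p J f T ?_ ?_ α hα
      · refine le_trans (IJ_mono X.dS J f ?_) hpI
        exact Nat.le_mul_of_pos_left T (Nat.succ_pos r)
      · intro i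
        have hi : X.b i ∈ V ⊔ X.hh p := by rw [htop]; trivial
        obtain ⟨v, hv, h, hh, hvh⟩ := Submodule.mem_sup.1 hi
        refine ⟨fun j => X.b.repr v j, fun j hj => (hJ v).1 hv j hj, ?_⟩
        rw [X.b.sum_repr, ← hvh]
        simpa using hh
    refine hI.sch L F hF hF0 X.b T ?_
    exact X.van_of_el T L F hF (fun α hα => hp0 _ (hall α hα))

end LD

/-! Piece Zm-5 -/

/-- PROOF. `exists_Inp`; `u0` from `hb 0`; constant `C (2 m) ^ m + (C1 + 1) ^ m + 1`. `T = 0`, `finrank V = 0`: trivial.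
`adapted`, `core` (the vanishing: `van_coeff` and `iter_line` with `z = 0`). Left: immediate. Right:
`T ^ n ≤ (C1 L) ^ n ≤ ((C1 + 1) L) ^ m`. -/
theorem Z_main {ι A : Type} [Fintype ι] [AddCommGroup A] (γ : A →+ (ι → ℂ))
    (l : A →+ ((ι → ℂ) →ₗ[ℂ] ℂ)) (c : A → ℂ)
    (hd : ∃ ε : ℝ, 0 < ε ∧ ∀ a, ‖γ a‖ < ε → γ a = 0)
    (hc : ∃ R : ℝ, ∀ z, ∃ a, ‖z - γ a‖ ≤ R)
    (hb : ∀ p, ∃ F, Theta γ l c 1 F ∧ F p ≠ 0) :
    ∃ C : ℝ, 0 < C ∧ ∀ V : Submodule ℂ (ι → ℂ),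
      (∀ H : Submodule ℂ (ι → ℂ), H ≠ ⊥ →
        (∀ x ∈ H, x ∈ Submodule.span ℝ {y : ι → ℂ | y ∈ H ∧ ∃ a, y = γ a}) → V ⊔ H = ⊤) →
      ∀ L : ℕ, 1 ≤ L → ∀ F, Theta γ l c L F → (∃ z, F z ≠ 0) → ∀ T : ℕ,
        (∀ v ∈ V, ∀ j ≤ Fintype.card ι * T, iteratedDeriv j (fun s : ℂ => F (s • v)) 0 = 0) →
        (T : ℝ) ^ (Module.finrank ℂ V) ≤ C * (L : ℝ) ^ (Fintype.card ι) := by
  classical
  obtain ⟨C, C1, hI⟩ := exists_Inp γ l c hc hb
  set m := Fintype.card ι with hm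
  refine ⟨((C * (2 * m) ^ m + (C1 + 1) ^ m + 1 : ℕ) : ℝ), by positivity, ?_⟩
  intro V hV L hL F hF hF0 T hT
  have hn : Module.finrank ℂ V ≤ m := by
    have h1 := Submodule.finrank_le V
    rwa [Module.finrank_fintype_fun_eq_card] at h1
  have hLm : 1 ≤ L ^ m := Nat.one_le_pow _ _ hL
  suffices h : T ^ Module.finrank ℂ V ≤ (C * (2 * m) ^ m + (C1 + 1) ^ m + 1) * L ^ m by
    exact_mod_cast h
  rcases Nat.eq_zero_or_pos T with hT0 | hT1
  · have h1 : T ^ Module.finrank ℂ V ≤ 1 := by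
      rw [hT0]
      rcases Nat.eq_zero_or_pos (Module.finrank ℂ V) with h0 | h0
      · rw [h0, pow_zero]
      · rw [zero_pow h0.ne']
        exact Nat.zero_le _
    calc T ^ Module.finrank ℂ V ≤ 1 * 1 := by rw [mul_one]; exact h1
      _ ≤ (C * (2 * m) ^ m + (C1 + 1) ^ m + 1) * L ^ m := Nat.mul_le_mul (by omega) hLm
  obtain ⟨b, J, hJc, hJ⟩ := adapted V
  obtain ⟨u, hu, hu0⟩ := hb 0
  let X : LD ι A := ⟨γ, l, c, b, ⟨u, hu.1⟩, hu, hu0⟩
  have hb' : ∀ z : ι → ℂ, ∃ F ∈ X.T 1, (F : (ι → ℂ) → ℂ) z ≠ 0 := by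
    intro z
    obtain ⟨G, hG, hGz⟩ := hb z
    exact ⟨⟨G, hG.1⟩, hG, hGz⟩
  let F' : Ent ι := ⟨F, hF.1⟩
  have hF' : F' ∈ X.T L := hF
  have hF0' : F' ≠ 0 := by
    intro h
    obtain ⟨z, hz⟩ := hF0
    have h1 : (F' : (ι → ℂ) → ℂ) z = ((0 : Ent ι) : (ι → ℂ) → ℂ) z := by rw [h]
    exact hz h1
  have hvan : ∀ α : ι →₀ ℕ, (∀ i, i ∉ J → α i = 0) → α.degree ≤ Fintype.card ι * T →
      evE 0 ((cE X.b).pw α F') = 0 := by
    refine van_coeff b J F' (Fintype.card ι * T) fun t ht j hj => ?_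
    have hv : ∑ i, t i • b i ∈ V := by
      rw [hJ]
      intro i hi
      have h1 : b.repr (∑ i, t i • b i) i = t i := by
        rw [← b.equivFun_apply, ← b.equivFun_symm_apply, LinearEquiv.apply_symm_apply]
      rw [h1]
      exact ht i hi
    have h1 := hT _ hv j hj
    have h2 := iter_line F' 0 (∑ i, t i • b i) j 0
    rw [zero_smul, add_zero] at h2
    rw [← h2]
    have h3 : (fun s : ℂ => (F' : (ι → ℂ) → ℂ) (0 + s • ∑ i, t i • b i)) =
        fun s : ℂ => F (s • ∑ i, t i • b i) := by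
      funext s
      rw [zero_add]
    rw [h3]
    exact h1
  have key := X.core hI hc hb' V J hJ hV L T hT1 F' hF' hF0' hvan
  rw [hJc] at key
  rcases key with h1 | h1
  · refine h1.trans ?_
    have h2 : C * (Fintype.card ι * (2 * L)) ^ Fintype.card ι = C * (2 * m) ^ m * L ^ m := by
      rw [← hm, mul_assoc, ← mul_pow]
      congr 2
      ring
    rw [h2]
    exact Nat.mul_le_mul_right _ (by omega)
  · have h2 : T ≤ (C1 + 1) * L := h1.trans (Nat.mul_le_mul_right _ (by omega))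
    calc T ^ Module.finrank ℂ V ≤ ((C1 + 1) * L) ^ Module.finrank ℂ V :=
          Nat.pow_le_pow_left h2 _
      _ ≤ ((C1 + 1) * L) ^ m := Nat.pow_le_pow_right (Nat.mul_pos (by omega) hL) hn
      _ = (C1 + 1) ^ m * L ^ m := by rw [mul_pow]
      _ ≤ (C * (2 * m) ^ m + (C1 + 1) ^ m + 1) * L ^ m := Nat.mul_le_mul_right _ (by omega)

end

end Pool.Agent.Helper63.LT
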