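import Mathlib

/-!
PROJECT LT, block Z (zero estimate), captain helper63. Part a: algebraic Taylor expansions.
-/

/-
HOW TO WORK ON A FILE OF THIS DIRECTORY: replace the sorrys of your piece; change no statement, name or import (extra
imports without cycles are fine). Everything in the imported files and all earlier statements of the same file may be
used, also if they still have sorry. Auxiliary results: private. Forbidden words as in RULES.md.
-/

namespace Pool.Agent.Helper63.LT

open Finset MvPowerSeries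

noncomputable section

/-- A family of commuting derivations of the `ℂ`-algebra `R`. -/
structure CD (ι R : Type) [CommRing R] [Algebra ℂ R] where
  D : ι → Derivation ℂ R R
  comm : ∀ i j x, D i (D j x) = D j (D i x)

section cd

variable {ι : Type} [Fintype ι] {R : Type} [CommRing R] [Algebra ℂ R] (d : CD ι R)

/-- The derivation in the direction `a`. -/
def CD.dir (a : ι → ℂ) : Derivation ℂ R R := ∑ i, a i • d.D i

/-- The derivations with the opposite sign. -/
def CD.neg : CD ι R where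
  D i := -d.D i
  comm i j x := by
    rw [Derivation.neg_apply, Derivation.neg_apply, Derivation.neg_apply, Derivation.neg_apply,
      map_neg, map_neg, d.comm]

theorem CD.commute (i j : ι) :
    Commute ((d.D i : R →ₗ[ℂ] R) : Module.End ℂ R) ((d.D j : R →ₗ[ℂ] R) : Module.End ℂ R) := by
  refine LinearMap.ext fun x => ?_
  exact d.comm i j x

/-- The operator `D ^ α`. -/
def CD.pw (α : ι →₀ ℕ) : R →ₗ[ℂ] R :=
  (univ : Finset ι).noncommProd (fun i => ((d.D i : R →ₗ[ℂ] R) : Module.End ℂ R) ^ (α i))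
    (fun _ _ _ _ _ => (d.commute _ _).pow_pow _ _)

/-- `α !` -/
def fct (α : ι →₀ ℕ) : ℕ := ∏ i, (α i).factorial

/-! Piece Za-1 -/

theorem fct_zero : fct (0 : ι →₀ ℕ) = 1 := by
  unfold fct
  exact Finset.prod_eq_one fun i _ => rfl

theorem fct_succ (α : ι →₀ ℕ) (i : ι) :
    fct (α + Finsupp.single i 1) = (α i + 1) * fct α := by
  classical
  unfold fct
  rw [← Finset.mul_prod_erase univ _ (mem_univ i), ← Finset.mul_prod_erase univ _ (mem_univ i),
    ← mul_assoc]
  have h1 : (α + Finsupp.single i 1 : ι →₀ ℕ) i = α i + 1 := by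
    rw [Finsupp.add_apply, Finsupp.single_eq_same]
  rw [h1, Nat.factorial_succ]
  congr 1
  refine Finset.prod_congr rfl fun j hj => ?_
  rw [Finsupp.add_apply, Finsupp.single_eq_of_ne (Finset.ne_of_mem_erase hj), add_zero]

theorem fct_ne (α : ι →₀ ℕ) : (fct α : ℂ) ≠ 0 := by
  have h : fct α ≠ 0 := Finset.prod_ne_zero_iff.2 fun i _ => Nat.factorial_ne_zero _
  exact_mod_cast h

omit [Fintype ι] in
private theorem Za1_ind {P : (ι →₀ ℕ) → Prop} (h0 : P 0)
    (h1 : ∀ α i, P α → P (α + Finsupp.single i 1)) (α : ι →₀ ℕ) : P α := by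
  have key : ∀ β, P β → P (β + α) := by
    induction α using Finsupp.induction_linear with
    | zero =>
      intro β hβ
      rwa [add_zero]
    | add f g hf hg =>
      intro β hβ
      rw [← add_assoc]
      exact hg _ (hf _ hβ)
    | single i b =>
      induction b with
      | zero =>
        intro β hβ
        rwa [Finsupp.single_zero, add_zero]
      | succ b ih =>
        intro β hβ
        rw [Finsupp.single_add, ← add_assoc]
        exact h1 _ i (ih β hβ)
  have h2 := key 0 h0
  rwa [zero_add] at h2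

theorem CD.pw_zero (x : R) : d.pw 0 x = x := by
  have h : d.pw 0 = (1 : Module.End ℂ R) := by
    unfold CD.pw
    rw [Finset.noncommProd_eq_pow_card _ _ _ 1 fun i _ => ?_, one_pow]
    rw [Finsupp.zero_apply, pow_zero]
  rw [h]
  rfl

private theorem Za1_succ (α : ι →₀ ℕ) (i : ι) :
    (d.pw (α + Finsupp.single i 1) : Module.End ℂ R) =
      ((d.D i : R →ₗ[ℂ] R) : Module.End ℂ R) * d.pw α := by
  classical
  unfold CD.pw
  rw [← Finset.mul_noncommProd_erase univ (mem_univ i), ← Finset.mul_noncommProd_erase univ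
    (mem_univ i), ← mul_assoc]
  have h1 : (α + Finsupp.single i 1 : ι →₀ ℕ) i = α i + 1 := by
    rw [Finsupp.add_apply, Finsupp.single_eq_same]
  rw [h1, pow_succ']
  congr 1
  refine Finset.noncommProd_congr rfl (fun j hj => ?_) _
  rw [Finsupp.add_apply, Finsupp.single_eq_of_ne (Finset.ne_of_mem_erase hj), add_zero]

private theorem Za1_comm (α : ι →₀ ℕ) (i : ι) :
    Commute ((d.D i : R →ₗ[ℂ] R) : Module.End ℂ R) (d.pw α : Module.End ℂ R) := by
  unfold CD.pw
  exact Finset.noncommProd_commute _ _ _ _ fun j _ => (d.commute i j).pow_right _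

/-- PROOF. `noncommProd` and `Commute`: `mul_noncommProd_erase` or induction on the finset; all
factors commute. -/
theorem CD.pw_succ (α : ι →₀ ℕ) (i : ι) (x : R) :
    d.pw (α + Finsupp.single i 1) x = d.D i (d.pw α x) := by
  exact LinearMap.congr_fun (Za1_succ d α i) x

theorem CD.pw_succ' (α : ι →₀ ℕ) (i : ι) (x : R) :
    d.pw (α + Finsupp.single i 1) x = d.pw α (d.D i x) := by
  rw [d.pw_succ]
  exact LinearMap.congr_fun (Za1_comm d α i).eq x

/-- PROOF. Induction on `α` (for `Finsupp`, or on the degree) with `pw_succ`. -/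
theorem CD.pw_add (α β : ι →₀ ℕ) (x : R) : d.pw (α + β) x = d.pw α (d.pw β x) := by
  induction α using Za1_ind with
  | h0 => rw [zero_add, d.pw_zero]
  | h1 α i ih => rw [add_right_comm, d.pw_succ, ih, d.pw_succ]

/-- PROOF. Induction on the degree of `α` with `pw_succ`. -/
theorem CD.pw_neg (α : ι →₀ ℕ) (x : R) : d.neg.pw α x = (-1 : ℂ) ^ α.degree • d.pw α x := by
  induction α using Za1_ind with
  | h0 =>
    rw [CD.pw_zero, CD.pw_zero, map_zero, pow_zero, one_smul]
  | h1 α i ih =>
    have h2 : d.neg.D i = -d.D i := rfl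
    rw [CD.pw_succ, CD.pw_succ, ih, h2, Derivation.neg_apply, Derivation.map_smul, map_add,
      Finsupp.degree_single, pow_succ, mul_neg, mul_one, neg_smul]

/-- Naturality. PROOF. Induction on the degree of `α`. -/
theorem CD.pw_nat {R' : Type} [CommRing R'] [Algebra ℂ R'] (d' : CD ι R') (θ : R →ₐ[ℂ] R')
    (h : ∀ i x, θ (d.D i x) = d'.D i (θ x)) (α : ι →₀ ℕ) (x : R) :
    θ (d.pw α x) = d'.pw α (θ x) := by
  induction α using Za1_ind with
  | h0 => rw [CD.pw_zero, CD.pw_zero]
  | h1 α i ih => rw [CD.pw_succ, CD.pw_succ, h, ih]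

/-! Piece Za-2: the Taylor homomorphism -/

variable {K : Type} [CommRing K] [Algebra ℂ K]

/-- The linear map `x ↦ ∑ ev (D ^ α x) / α ! * X ^ α`. -/
def tayL (ev : R →ₐ[ℂ] K) : R →ₗ[ℂ] MvPowerSeries ι K where
  toFun x := fun α => (fct α : ℂ)⁻¹ • ev (d.pw α x)
  map_add' x y := by
    refine MvPowerSeries.ext fun α => ?_
    change (fct α : ℂ)⁻¹ • ev (d.pw α (x + y)) =
      (fct α : ℂ)⁻¹ • ev (d.pw α x) + (fct α : ℂ)⁻¹ • ev (d.pw α y)
    rw [map_add, map_add, smul_add]
  map_smul' c x := by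
    refine MvPowerSeries.ext fun α => ?_
    change (fct α : ℂ)⁻¹ • ev (d.pw α (c • x)) = c • (fct α : ℂ)⁻¹ • ev (d.pw α x)
    rw [map_smul, map_smul, smul_comm]

theorem coeff_tayL (ev : R →ₐ[ℂ] K) (x : R) (α : ι →₀ ℕ) :
    coeff α (tayL d ev x) = (fct α : ℂ)⁻¹ • ev (d.pw α x) := rfl

/-- PROOF. `D ^ α 1 = 0` for `α ≠ 0`. -/
theorem tayL_one (ev : R →ₐ[ℂ] K) : tayL d ev 1 = 1 := by
  classical
  refine MvPowerSeries.ext fun α => ?_
  rw [coeff_tayL, coeff_one]
  induction α using Za1_ind with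
  | h0 =>
    rw [if_pos rfl, fct_zero, CD.pw_zero, map_one, Nat.cast_one, inv_one, one_smul]
  | h1 α i _ =>
    have h2 : ¬ (α + Finsupp.single i 1 = 0) := by
      intro h3
      have h4 := DFunLike.congr_fun h3 i
      rw [Finsupp.add_apply, Finsupp.single_eq_same, Finsupp.zero_apply] at h4
      omega
    rw [if_neg h2, CD.pw_succ', Derivation.map_one_eq_zero, map_zero, map_zero, smul_zero]

/-- PROOF. Formal derivatives: `coeff (α + single i 1) f * (α i + 1)` is the coefficient at `α` of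
`MvPowerSeries.pderiv K i f` (`coeff_pderiv`). -/
theorem pderiv_tayL (ev : R →ₐ[ℂ] K) (x : R) (i : ι) :
    MvPowerSeries.pderiv K i (tayL d ev x) = tayL d ev (d.D i x) := by
  refine MvPowerSeries.ext fun α => ?_
  have h1 : ((α i : K) + 1) = algebraMap ℂ K ((α i : ℂ) + 1) := by
    rw [map_add, map_one, map_natCast]
  have h2 : ((α i : ℂ) + 1) ≠ 0 := Nat.cast_add_one_ne_zero (α i)
  rw [coeff_pderiv, coeff_tayL, coeff_tayL, CD.pw_succ', fct_succ, h1, mul_comm,
    ← Algebra.smul_def, smul_smul]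
  congr 1
  rw [Nat.cast_mul, Nat.cast_add, Nat.cast_one, mul_inv, ← mul_assoc, mul_inv_cancel₀ h2, one_mul]

private theorem Za2_coeff (F : MvPowerSeries ι K) (α : ι →₀ ℕ) (i : ι) :
    coeff (α + Finsupp.single i 1) F =
      ((α i : ℂ) + 1)⁻¹ • coeff α (MvPowerSeries.pderiv K i F) := by
  have h1 : ((α i : K) + 1) = algebraMap ℂ K ((α i : ℂ) + 1) := by
    rw [map_add, map_one, map_natCast]
  have h2 : ((α i : ℂ) + 1) ≠ 0 := Nat.cast_add_one_ne_zero (α i)
  rw [coeff_pderiv, h1, mul_comm, ← Algebra.smul_def, smul_smul, inv_mul_cancel₀ h2, one_smul]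

/-- PROOF. `coeff α` of both sides are equal for all `x`, `y`, by induction on the degree of `α`.
`α = 0`: `map_mul`. If `α = β + single i 1`: `α i` times the coefficient at `α` is the coefficient at
`β` of the formal derivative (`coeff_pderiv`); `pderiv_tayL`, `Derivation.leibniz` on both sides and
the induction hypothesis for `(D i x, y)` and `(x, D i y)`. Cancel `α i ≠ 0` (`K` is a
`ℂ`-algebra: multiply by `((α i : ℂ))⁻¹`). -/
theorem tayL_mul (ev : R →ₐ[ℂ] K) (x y : R) :
    tayL d ev (x * y) = tayL d ev x * tayL d ev y := by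
  refine MvPowerSeries.ext fun α => ?_
  induction α using Za1_ind generalizing x y with
  | h0 =>
    have h1 : ∀ z : R, constantCoeff (tayL d ev z) = ev z := by
      intro z
      rw [← coeff_zero_eq_constantCoeff_apply, coeff_tayL, fct_zero, CD.pw_zero, Nat.cast_one,
        inv_one, one_smul]
    rw [coeff_zero_eq_constantCoeff_apply, coeff_zero_eq_constantCoeff_apply, h1, map_mul ev,
      map_mul constantCoeff, h1, h1]
  | h1 α i ih =>
    rw [Za2_coeff, Za2_coeff, pderiv_tayL, Derivation.leibniz, Derivation.leibniz, pderiv_tayL,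
      pderiv_tayL, smul_eq_mul, smul_eq_mul, smul_eq_mul, smul_eq_mul, map_add, map_add, map_add,
      ih, ih]

/-- The Taylor homomorphism. -/
def tay (ev : R →ₐ[ℂ] K) : R →ₐ[ℂ] MvPowerSeries ι K :=
  AlgHom.ofLinearMap (tayL d ev) (tayL_one d ev) (tayL_mul d ev)

theorem coeff_tay (ev : R →ₐ[ℂ] K) (x : R) (α : ι →₀ ℕ) :
    coeff α (tay d ev x) = (fct α : ℂ)⁻¹ • ev (d.pw α x) := rfl

/-! Piece Za-3 -/

theorem constantCoeff_tay (ev : R →ₐ[ℂ] K) (x : R) : constantCoeff (tay d ev x) = ev x := by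
  rw [← coeff_zero_eq_constantCoeff_apply, coeff_tay, fct_zero, CD.pw_zero, Nat.cast_one,
    inv_one, one_smul]

theorem pderiv_tay (ev : R →ₐ[ℂ] K) (x : R) (i : ι) :
    MvPowerSeries.pderiv K i (tay d ev x) = tay d ev (d.D i x) :=
  pderiv_tayL d ev x i

/-- PROOF. `coeff_tay`, `CD.pw_nat`. -/
theorem tay_nat {R' : Type} [CommRing R'] [Algebra ℂ R'] (d' : CD ι R') (θ : R →ₐ[ℂ] R')
    (h : ∀ i x, θ (d.D i x) = d'.D i (θ x)) (ev : R' →ₐ[ℂ] K) (x : R) :
    tay d' ev (θ x) = tay d (ev.comp θ) x := by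
  refine MvPowerSeries.ext fun α => ?_
  rw [coeff_tay, coeff_tay, AlgHom.comp_apply, d.pw_nat d' θ h]

/-- PROOF. `coeff_tay`, `coeff_map`. -/
theorem map_tay {K' : Type} [CommRing K'] [Algebra ℂ K'] (ev : R →ₐ[ℂ] K) (ψ : K →ₐ[ℂ] K') (x : R) :
    MvPowerSeries.map (ψ : K →+* K') (tay d ev x) = tay d (ψ.comp ev) x := by
  refine MvPowerSeries.ext fun α => ?_
  rw [coeff_map, coeff_tay, coeff_tay, AlgHom.comp_apply]
  exact map_smul ψ _ _

end cd

/-! Piece Za-4: the formal derivations of the power series -/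

variable (ι : Type) [Fintype ι]

/-- The commuting formal derivations of `ℂ[[x]]`. -/
def psD : CD ι (MvPowerSeries ι ℂ) where
  D i := MvPowerSeries.pderiv ℂ i
  comm i j x := by
    refine MvPowerSeries.ext fun α => ?_
    rw [coeff_pderiv, coeff_pderiv, coeff_pderiv, coeff_pderiv, add_right_comm]
    by_cases h : i = j
    · rw [h]
    · rw [Finsupp.add_apply, Finsupp.add_apply, Finsupp.single_eq_of_ne (Ne.symm h),
        Finsupp.single_eq_of_ne h, add_zero, add_zero, mul_assoc, mul_assoc,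
        mul_comm ((α j : ℂ) + 1)]

variable {ι}

/-- PROOF. Induction on the degree of `α`, `coeff_pderiv`. -/
theorem psD_pw (α : ι →₀ ℕ) (f : MvPowerSeries ι ℂ) :
    constantCoeff ((psD ι).pw α f) = fct α * coeff α f := by
  induction α using Za1_ind generalizing f with
  | h0 =>
    rw [CD.pw_zero, fct_zero, Nat.cast_one, one_mul, coeff_zero_eq_constantCoeff_apply]
  | h1 α i ih =>
    have h2 : (psD ι).D i f = MvPowerSeries.pderiv ℂ i f := rfl
    rw [CD.pw_succ', ih, h2, coeff_pderiv, fct_succ, Nat.cast_mul, Nat.cast_add, Nat.cast_one]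
    ring

theorem pw_tay {R : Type} [CommRing R] [Algebra ℂ R] (d : CD ι R) (ev : R →ₐ[ℂ] ℂ) (x : R)
    (α : ι →₀ ℕ) : (psD ι).pw α (tay d ev x) = tay d ev (d.pw α x) := by
  exact (d.pw_nat (psD ι) (tay d ev) (fun i x => (pderiv_tay d ev x i).symm) α x).symm

end

end Pool.Agent.Helper63.LT
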