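import Mathlib

/-!
PROJECT LT, block Z. Part b: the ring of formal power series.
-/

namespace Pool.Agent.Helper63.LT

open Finset MvPowerSeries

noncomputable section

section ps

variable {ι : Type} [Fintype ι]

/-! Piece Zb-1: the maximal ideal -/

/-- The maximal ideal. -/
def mm (ι : Type) : Ideal (MvPowerSeries ι ℂ) :=
  RingHom.ker (constantCoeff : MvPowerSeries ι ℂ →+* ℂ)

theorem mem_mm {f : MvPowerSeries ι ℂ} : f ∈ mm ι ↔ constantCoeff f = 0 := Iff.rfl

/-- PROOF. Choose for every `α ≠ 0` an index `c α` with `α (c α) ≠ 0`. `g i` has the coefficient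
`coeff (β + single i 1) f` at `β` if `c (β + single i 1) = i`, and `0` otherwise. The coefficient of
`∑ i, X i * g i` at `α ≠ 0` has only the term `i = c α`. For `β = 0`: `c (single i 1) = i`. -/
theorem mm_dec (f : MvPowerSeries ι ℂ) (hf : constantCoeff f = 0) :
    ∃ g : ι → MvPowerSeries ι ℂ, f = ∑ i, X i * g i ∧
      ∀ i, constantCoeff (g i) = coeff (Finsupp.single i 1) f := by
  classical
  have h1 : ∀ α : ι →₀ ℕ, ∃ i : Option ι, α ≠ 0 → ∃ j, i = some j ∧ α j ≠ 0 := by
    intro α
    by_cases h : α = 0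
    · exact ⟨none, fun h' => absurd h h'⟩
    · obtain ⟨j, hj⟩ := Finsupp.ne_iff.mp h
      exact ⟨some j, fun _ => ⟨j, rfl, hj⟩⟩
  choose c hc using h1
  let g : ι → MvPowerSeries ι ℂ := fun i β =>
    if c (β + Finsupp.single i 1) = some i then coeff (β + Finsupp.single i 1) f else 0
  have hg : ∀ i β, coeff β (g i) =
      if c (β + Finsupp.single i 1) = some i then coeff (β + Finsupp.single i 1) f else 0 :=
    fun i β => rfl
  refine ⟨g, ?_, ?_⟩
  · refine MvPowerSeries.ext fun α => ?_
    rw [map_sum]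
    have h2 : ∀ i, coeff α (X i * g i) =
        if Finsupp.single i 1 ≤ α then (if c α = some i then coeff α f else 0) else 0 := by
      intro i
      rw [X_def, coeff_monomial_mul]
      by_cases h3 : Finsupp.single i 1 ≤ α
      · rw [if_pos h3, if_pos h3, one_mul, hg, tsub_add_cancel_of_le h3]
      · rw [if_neg h3, if_neg h3]
    rw [Finset.sum_congr rfl fun i _ => h2 i]
    by_cases h : α = 0
    · subst h
      rw [Finset.sum_eq_zero]
      · exact hf
      · intro i _
        rw [if_neg]
        intro h3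
        have := h3 i
        simp at this
    · obtain ⟨j, hj, hj'⟩ := hc α h
      rw [Finset.sum_eq_single j]
      · rw [if_pos, if_pos hj]
        rw [Finsupp.single_le_iff]
        omega
      · intro i _ hi
        have : ¬ c α = some i := by
          rw [hj]
          intro h'
          exact hi (Option.some_injective _ h').symm
        rw [if_neg this]
        exact ite_self _
      · intro h'
        exact absurd (Finset.mem_univ _) h'
  · intro i
    rw [← coeff_zero_eq_constantCoeff_apply, hg, zero_add]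
    have h3 : (Finsupp.single i 1 : ι →₀ ℕ) ≠ 0 := by
      rw [Ne, Finsupp.single_eq_zero]
      omega
    obtain ⟨j, hj, hj'⟩ := hc _ h3
    have h4 : i = j := by
      by_contra hne
      exact hj' (Finsupp.single_eq_of_ne (Ne.symm hne))
    rw [hj, if_pos (by rw [h4])]

theorem mm_eq : mm ι = Ideal.span (Set.range (X : ι → MvPowerSeries ι ℂ)) := by
  apply le_antisymm
  · intro f hf
    obtain ⟨g, hg, -⟩ := mm_dec f hf
    rw [hg]
    refine Ideal.sum_mem _ fun i _ => ?_
    exact Ideal.mul_mem_right _ _ (Ideal.subset_span ⟨i, rfl⟩)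
  · rw [Ideal.span_le]
    rintro _ ⟨i, rfl⟩
    exact constantCoeff_X i

theorem mm_fg : (mm ι).FG := by
  rw [mm_eq]
  exact Submodule.fg_span (Set.finite_range _)

/-- PROOF. `mm_dec`: the `g i` are in `mm ι`. -/
theorem mem_mm_sq {f : MvPowerSeries ι ℂ} (h0 : constantCoeff f = 0)
    (h1 : ∀ i, coeff (Finsupp.single i 1) f = 0) : f ∈ mm ι ^ 2 := by
  obtain ⟨g, hg, hg'⟩ := mm_dec f h0
  rw [hg, pow_two]
  refine Ideal.sum_mem _ fun i _ => Ideal.mul_mem_mul (constantCoeff_X i) ?_
  rw [mem_mm, hg', h1]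

/-- Systems of parameters.
PROOF. The matrix `A j i = coeff (single i 1) (y j)` is invertible, so every `X i` is a linear
combination of the `y j` up to an element with vanishing constant and linear terms, which is in
`mm ι ^ 2` (`mem_mm_sq`). So `mm ≤ span y ⊔ mm * mm`; Nakayama
(`Submodule.le_of_le_smul_of_le_jacobson_bot`): `MvPowerSeries ι ℂ` is a local ring with maximal
ideal `mm ι` (nonunits have constant coefficient `0`: `MvPowerSeries.isUnit_iff_constantCoeff`),
`mm_fg`. -/
theorem span_params (y : ι → MvPowerSeries ι ℂ) (h0 : ∀ j, constantCoeff (y j) = 0)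
    (h1 : LinearIndependent ℂ fun j => fun i => coeff (Finsupp.single i 1) (y j)) :
    Ideal.span (Set.range y) = mm ι := by
  classical
  apply le_antisymm
  · rw [Ideal.span_le]
    rintro _ ⟨j, rfl⟩
    exact h0 j
  · have hj : mm ι ≤ Ideal.jacobson ⊥ := by
      intro f hf
      rw [Ideal.mem_jacobson_bot]
      intro g
      rw [MvPowerSeries.isUnit_iff_constantCoeff, map_add, map_mul, mem_mm.mp hf, zero_mul,
        zero_add, map_one]
      exact isUnit_one
    refine Submodule.le_of_le_smul_of_le_jacobson_bot mm_fg hj ?_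
    have hs : Submodule.span ℂ (Set.range fun j => fun i => coeff (Finsupp.single i 1) (y j)) =
        ⊤ := by
      refine h1.span_eq_top_of_card_eq_finrank' ?_
      rw [Module.finrank_fintype_fun_eq_card]
    rw [smul_eq_mul, ← pow_two]
    conv_lhs => rw [mm_eq]
    rw [Ideal.span_le]
    rintro _ ⟨i, rfl⟩
    have hi : (Pi.single i 1 : ι → ℂ) ∈
        Submodule.span ℂ (Set.range fun j => fun i => coeff (Finsupp.single i 1) (y j)) := by
      rw [hs]
      exact Submodule.mem_top
    obtain ⟨a, ha⟩ := (Submodule.mem_span_range_iff_exists_fun ℂ).mp hi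
    have hd : X i = (∑ j, C (a j) * y j) + (X i - ∑ j, C (a j) * y j) := by ring
    rw [SetLike.mem_coe, hd]
    refine Submodule.add_mem_sup ?_ ?_
    · refine Ideal.sum_mem _ fun j _ => ?_
      exact Ideal.mul_mem_left _ _ (Ideal.subset_span ⟨j, rfl⟩)
    · refine mem_mm_sq ?_ fun k => ?_
      · rw [map_sub, map_sum, constantCoeff_X, zero_sub, neg_eq_zero]
        refine Finset.sum_eq_zero fun j _ => ?_
        rw [map_mul, h0, mul_zero]
      · rw [map_sub, map_sum]
        have h3 := congrFun ha k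
        rw [Finset.sum_apply] at h3
        have h4 : ∀ j, coeff (Finsupp.single k 1) (C (a j) * y j) =
            (a j • fun i => coeff (Finsupp.single i 1) (y j)) k := by
          intro j
          rw [coeff_C_mul]
          rfl
        rw [Finset.sum_congr rfl fun j _ => h4 j, h3]
        by_cases hk : k = i
        · subst hk
          rw [Pi.single_eq_same, coeff_index_single_self_X, sub_self]
        · rw [Pi.single_eq_of_ne hk, coeff_index_single_X, if_neg hk, sub_zero]

/-! Piece Zb-2: the weighted order -/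

variable (J : Finset ι) (T : ℕ)

open scoped Classical in
/-- The weight: `1` for the indices in `J` and `T` for the others. -/
def wt (α : ι →₀ ℕ) : ℕ := ∑ i, (if i ∈ J then 1 else T) * α i

theorem wt_add (α β : ι →₀ ℕ) : wt J T (α + β) = wt J T α + wt J T β := by
  simp only [wt, Finsupp.add_apply, mul_add, Finset.sum_add_distrib]

/-- The series in which all monomials have weight at least `N`. -/
def WI (N : ℕ) : Ideal (MvPowerSeries ι ℂ) where
  carrier := {f | ∀ α, wt J T α < N → coeff α f = 0}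
  add_mem' := by
    intro f g hf hg α hα
    rw [map_add, hf α hα, hg α hα, add_zero]
  zero_mem' := by
    intro α _
    rw [map_zero]
  smul_mem' := by
    classical
    intro c f hf α hα
    rw [smul_eq_mul, coeff_mul]
    refine Finset.sum_eq_zero fun x hx => ?_
    have h1 := Finset.HasAntidiagonal.mem_antidiagonal.1 hx
    rw [hf x.2, mul_zero]
    rw [← h1, wt_add] at hα
    omega

theorem mem_WI {N : ℕ} {f : MvPowerSeries ι ℂ} :
    f ∈ WI J T N ↔ ∀ α, wt J T α < N → coeff α f = 0 := Iff.rfl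

theorem WI_mul (N N' : ℕ) : WI J T N * WI J T N' ≤ WI J T (N + N') := by
  classical
  rw [Ideal.mul_le]
  intro f hf g hg α hα
  rw [coeff_mul]
  refine Finset.sum_eq_zero fun x hx => ?_
  have h1 := Finset.HasAntidiagonal.mem_antidiagonal.1 hx
  rw [← h1, wt_add] at hα
  by_cases h2 : wt J T x.1 < N
  · rw [hf x.1 h2, zero_mul]
  · rw [hg x.2 (by omega), mul_zero]

theorem WI_pow (N K : ℕ) : WI J T N ^ K ≤ WI J T (N * K) := by
  induction K with
  | zero =>
    intro f _ α hα
    simp at hα
  | succ K ih =>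
    rw [pow_succ, Nat.mul_succ]
    exact (Ideal.mul_mono ih le_rfl).trans (WI_mul J T _ _)

/-! Piece Zb-3: spanning -/

omit [Fintype ι] in
private theorem Zb3_pow (Z : ℕ → Submodule ℂ (MvPowerSeries ι ℂ))
    (hZ : ∀ {a b : ℕ} {x y}, x ∈ Z a → y ∈ Z b → x * y ∈ Z (a + b))
    (e : MvPowerSeries ι ℂ) (he : e ∈ Z 1) {b : ℕ} {x : MvPowerSeries ι ℂ} (hx : x ∈ Z b) (n : ℕ) :
    e ^ n * x ∈ Z (b + n) := by
  induction n with
  | zero => simpa using hx
  | succ n ih =>
    have h := hZ he ih
    have e1 : e * (e ^ n * x) = e ^ (n + 1) * x := by ring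
    have e2 : 1 + (b + n) = b + (n + 1) := by ring
    rwa [e1, e2] at h

/-- PROOF. Induction on `K`. `K = 0`: `hb`. Let `Z (b + K a) + Q ^ (K + 1) = ⊤` (as subspaces). Then
`Q ^ 1 = ∑ q_j * ⊤ = ∑ q_j * Z (b + K a) + Q ^ (K + 2)` is contained in
`Z (b + (K + 1) a) + Q ^ (K + 2)`. And `⊤ = e ^ ((K + 1) a) * ⊤ = e ^ ((K + 1) a) * Z b + Q` (`e` is a
unit) is contained in `Z (b + (K + 1) a) + Q`. (`Q ^ 1` = finite sums of `f_j * q_j`, use
`Submodule.span_induction` or `Ideal.mem_span_range_iff_exists_fun`.) -/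
theorem spanning (Z : ℕ → Submodule ℂ (MvPowerSeries ι ℂ))
    (hZ : ∀ {a b : ℕ} {x y}, x ∈ Z a → y ∈ Z b → x * y ∈ Z (a + b))
    (e : MvPowerSeries ι ℂ) (he : e ∈ Z 1) (heu : constantCoeff e ≠ 0)
    (a b : ℕ) (s : Set (MvPowerSeries ι ℂ)) (hs : ∀ q ∈ s, q ∈ Z a)
    (hb : ∀ f, ∃ z ∈ Z b, f - z ∈ Ideal.span s) (K : ℕ) :
    ∀ f, ∃ z ∈ Z (b + K * a), f - z ∈ Ideal.span s ^ (K + 1) := by
  induction K with
  | zero =>
    intro f
    obtain ⟨z, hz, h⟩ := hb f
    exact ⟨z, by simpa using hz, by simpa using h⟩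
  | succ K ih =>
    intro f
    have hu : IsUnit (e ^ ((K + 1) * a)) := by
      apply IsUnit.pow
      rw [MvPowerSeries.isUnit_iff_constantCoeff]
      exact isUnit_iff_ne_zero.2 heu
    obtain ⟨v, hv⟩ := hu.exists_right_inv
    obtain ⟨z0, hz0, h0⟩ := hb (v * f)
    have key : ∀ r ∈ Ideal.span s, ∃ z ∈ Z (b + (K + 1) * a), r - z ∈ Ideal.span s ^ (K + 2) := by
      intro r hr
      obtain ⟨n, g, q, rfl⟩ := (Submodule.mem_span_set' (R := MvPowerSeries ι ℂ)).1 hr
      choose z hz hz' using fun i => ih (g i)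
      refine ⟨∑ i, z i * q i, Submodule.sum_mem _ fun i _ => ?_, ?_⟩
      · have h := hZ (hz i) (hs _ (q i).2)
        have e2 : b + K * a + a = b + (K + 1) * a := by ring
        rwa [e2] at h
      · rw [← Finset.sum_sub_distrib]
        refine Submodule.sum_mem _ fun i _ => ?_
        rw [smul_eq_mul, ← sub_mul, show K + 2 = (K + 1) + 1 from rfl, pow_succ]
        exact Ideal.mul_mem_mul (hz' i) (Ideal.subset_span (q i).2)
    obtain ⟨z1, hz1, h1⟩ := key (e ^ ((K + 1) * a) * (v * f - z0)) (Ideal.mul_mem_left _ _ h0)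
    refine ⟨e ^ ((K + 1) * a) * z0 + z1, Submodule.add_mem _ (Zb3_pow Z hZ e he hz0 _) hz1, ?_⟩
    have : f - (e ^ ((K + 1) * a) * z0 + z1) = e ^ ((K + 1) * a) * (v * f - z0) - z1 := by
      have : e ^ ((K + 1) * a) * (v * f) = f := by rw [← mul_assoc, hv, one_mul]
      rw [mul_sub, this]
      ring
    rw [this]
    exact h1

/-- PROOF. For a finite set `A` of exponents with `wt α < N` the map
`Z → (A → ℂ)`, `z ↦ (coeff α z)`, is surjective: for `f : A → ℂ` take the series with these
coefficients and `z` with `f - z ∈ Q ≤ WI N`. -/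
theorem card_le (Z : Submodule ℂ (MvPowerSeries ι ℂ)) [Module.Finite ℂ Z] (N : ℕ)
    (Q : Ideal (MvPowerSeries ι ℂ)) (hQ : Q ≤ WI J T N) (h : ∀ f, ∃ z ∈ Z, f - z ∈ Q)
    (A : Finset (ι →₀ ℕ)) (hA : ∀ α ∈ A, wt J T α < N) : A.card ≤ Module.finrank ℂ Z := by
  classical
  let L : Z →ₗ[ℂ] (A → ℂ) := LinearMap.pi fun α => (coeff (R := ℂ) (α : ι →₀ ℕ)).comp Z.subtype
  have hL : Function.Surjective L := by
    intro c
    let g : MvPowerSeries ι ℂ := fun α => if hα : α ∈ A then c ⟨α, hα⟩ else 0
    obtain ⟨z, hz, hq⟩ := h g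
    refine ⟨⟨z, hz⟩, ?_⟩
    funext α
    have h1 := hQ hq α (hA α α.2)
    rw [map_sub] at h1
    have h2 : coeff (α : ι →₀ ℕ) g = c α := by
      change (if hα : (α : ι →₀ ℕ) ∈ A then c ⟨α, hα⟩ else 0) = c α
      rw [dif_pos α.2]
    rw [h2] at h1
    exact (sub_eq_zero.1 h1).symm
  have h1 := LinearMap.finrank_le_finrank_of_surjective hL
  simpa using h1

/-- PROOF. The exponents `α` with `α i ≤ T * K` for `i ∈ J` and `α i ≤ K` for `i ∉ J` have
`wt J T α ≤ card ι * T * K`; their number is `(T K + 1) ^ |J| * (K + 1) ^ (m - |J|) ≥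
T ^ |J| * K ^ m` (a product of intervals, `Finset.pi`/`Fintype.piFinset` and
`Finsupp.equivFunOnFinite`). -/
theorem card_A (K : ℕ) (hT : 1 ≤ T) :
    ∃ A : Finset (ι →₀ ℕ), (∀ α ∈ A, wt J T α < T * (Fintype.card ι * K + 1)) ∧
      T ^ J.card * K ^ Fintype.card ι ≤ A.card := by
  classical
  let B : Finset (ι → ℕ) := Fintype.piFinset fun i => Finset.range (if i ∈ J then T * K + 1 else K + 1)
  refine ⟨B.map (Finsupp.equivFunOnFinite (α := ι) (M := ℕ)).symm.toEmbedding, ?_, ?_⟩
  · intro α hα
    obtain ⟨g, hg, rfl⟩ := Finset.mem_map.1 hα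
    have hg' := Fintype.mem_piFinset.1 hg
    have h1 : wt J T ((Finsupp.equivFunOnFinite (α := ι) (M := ℕ)).symm g) ≤ ∑ i : ι, T * K := by
      refine Finset.sum_le_sum fun i _ => ?_
      have h2 := Finset.mem_range.1 (hg' i)
      change (if i ∈ J then 1 else T) * g i ≤ T * K
      split_ifs at h2 ⊢ with h3
      · omega
      · exact Nat.mul_le_mul_left _ (by omega)
    simp only [Finset.sum_const, Finset.card_univ, smul_eq_mul] at h1
    change wt J T ((Finsupp.equivFunOnFinite (α := ι) (M := ℕ)).symm g) < _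
    nlinarith
  · rw [Finset.card_map, Fintype.card_piFinset]
    simp only [Finset.card_range]
    rw [Finset.prod_ite]
    simp only [Finset.prod_const]
    have h1 : (Finset.univ.filter fun i => i ∈ J).card = J.card := by
      congr 1
      ext i
      simp
    have h2 : (Finset.univ.filter fun i => i ∉ J).card = Fintype.card ι - J.card := by
      have := Finset.card_filter_add_card_filter_not (s := (Finset.univ : Finset ι)) (fun i => i ∈ J)
      rw [h1, Finset.card_univ] at this
      omega
    rw [h1, h2]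
    have h3 : J.card ≤ Fintype.card ι := Finset.card_le_univ J
    calc T ^ J.card * K ^ Fintype.card ι
        = (T * K) ^ J.card * K ^ (Fintype.card ι - J.card) := by
          rw [mul_pow, mul_assoc, ← pow_add]
          congr 2
          omega
      _ ≤ (T * K + 1) ^ J.card * (K + 1) ^ (Fintype.card ι - J.card) :=
          Nat.mul_le_mul (Nat.pow_le_pow_left (by omega) _) (Nat.pow_le_pow_left (by omega) _)

end ps

end

end Pool.Agent.Helper63.LT
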