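import Pool.Agent.Helper35.LZ.Al

/-!
PROJECT LT, block Z. Part c: commutative algebra.
-/

namespace Pool.Agent.Helper63.LT

noncomputable section

/-- A filtered `ℂ`-algebra with the growth of an `m`-dimensional variety. -/
structure Filt (m : ℕ) (S : Type) [CommRing S] [Algebra ℂ S] (G : ℕ → Submodule ℂ S) : Prop where
  mono : Monotone G
  mul : ∀ {a b : ℕ} {x y : S}, x ∈ G a → y ∈ G b → x * y ∈ G (a + b)
  one : 1 ∈ G 0
  top : ∀ x, ∃ k, x ∈ G k
  fin : ∀ k, Module.Finite ℂ (G k)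
  dim : ∃ C : ℕ, ∀ k, Module.finrank ℂ (G k) ≤ C * (k + 1) ^ m

variable {m : ℕ} {S : Type} [CommRing S] [Algebra ℂ S] {G : ℕ → Submodule ℂ S}

/-- Nullstellensatz for algebras of countable dimension over `ℂ`. -/
theorem nst (h : Filt m S G) (p : Ideal S) (hp : p.IsPrime) (b : S) (hb : b ∉ p) :
    ∃ ψ : S →ₐ[ℂ] ℂ, (∀ x ∈ p, ψ x = 0) ∧ ψ b ≠ 0 := by
  have hfg : ∀ k, ∃ t : Finset S, Submodule.span ℂ (t : Set S) = G k := fun k =>
    (Submodule.fg_iff_finiteDimensional (G k)).2 (h.fin k)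
  choose t ht using hfg
  refine Pool.Agent.Helper35.LZ.null_prime (s := ⋃ k, (t k : Set S)) ?_ ?_ hp hb
  · exact Set.countable_iUnion fun k => (t k).countable_toSet
  · refine eq_top_iff.2 fun x _ => ?_
    obtain ⟨k, hk⟩ := h.top x
    rw [← ht k] at hk
    exact Submodule.span_mono (Set.subset_iUnion (fun k => (t k : Set S)) k) hk

theorem minp (I p : Ideal S) (hp : p ∈ I.minimalPrimes) (x : S) (hx : x ∈ p) :
    ∃ h, h ∉ p ∧ ∃ N : ℕ, h * x ^ N ∈ I :=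
  Pool.Agent.Helper35.LZ.mem_minimal hp hx

/-- The choice of the prime ideal. -/
theorem sel [IsDomain S] (h : Filt m S G) (I : ℕ → Ideal S) (hI : Monotone I) (h0 : I 0 ≠ ⊥)
    (q : Ideal S) (hq : q.IsPrime) (hm : I m ≤ q) :
    ∃ r, r < m ∧ ∃ p : Ideal S, p ∈ (I r).minimalPrimes ∧ I (r + 1) ≤ p ∧ p ≤ q := by
  obtain ⟨C, hC⟩ := h.dim
  obtain ⟨r, hr, p, _, h1, h2, h3⟩ := Pool.Agent.Helper35.LZ.choose_primes m (C : ℝ) G h.fin
    (fun k => by exact_mod_cast hC k) h.mono (fun k l x hx y hy => h.mul hx hy) h.one h.top I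
    (fun r _ => hI (Nat.le_succ r)) h0 q hq hm
  exact ⟨r, hr, p, h1, h2, h3⟩

end

end Pool.Agent.Helper63.LT
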