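import Pool.Agent.Helper63.LT.Za
import Pool.Agent.Helper63.LT.Zb
import Pool.Agent.Helper63.LT.Zc

/-!
PROJECT LT, block Z. Part d: case A of the zero estimate (abstract).
-/

namespace Pool.Agent.Helper63.LT

open Finset MvPowerSeries

noncomputable section

variable {ι S : Type} [Fintype ι] [CommRing S] [Algebra ℂ S]

/-- A system: the ring `S` with its derivations and filtration `G`, the subspaces `Z k` of the power
series, and the correction factor `U`. -/
structure AData (ι S : Type) [Fintype ι] [CommRing S] [Algebra ℂ S] (C0 : ℕ) where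
  d : CD ι S
  G : ℕ → Submodule ℂ S
  Z : ℕ → Submodule ℂ (MvPowerSeries ι ℂ)
  U : MvPowerSeries ι S
  filt : Filt (Fintype.card ι) S G
  U_one : constantCoeff U = 1
  Z_mul : ∀ {a b : ℕ} {x y}, x ∈ Z a → y ∈ Z b → x * y ∈ Z (a + b)
  Z_one : 1 ∈ Z 0
  Z_fin : ∀ k, Module.Finite ℂ (Z k)
  Z_dim : ∀ k, Module.finrank ℂ (Z k) ≤ C0 * (k + 1) ^ Fintype.card ι
  Z_unit : ∃ e ∈ Z 1, constantCoeff e ≠ 0
  P1 : ∀ (k : ℕ) (φ : S), φ ∈ G k → ∀ α, coeff α (tay d (AlgHom.id ℂ S) φ * U ^ k) ∈ G (2 * k)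
  P2 : ∀ (ψ : S →ₐ[ℂ] ℂ) (k : ℕ) (φ : S), φ ∈ G k →
    tay d ψ φ * MvPowerSeries.map (ψ : S →+* ℂ) U ^ k ∈ Z k

/-- The ideal of the derivatives of `f` of order at most `N` in the directions in `J`. -/
def IJ (d : CD ι S) (J : Finset ι) (f : S) (N : ℕ) : Ideal S :=
  Ideal.span {x | ∃ τ : ι →₀ ℕ, (∀ i, i ∉ J → τ i = 0) ∧ τ.degree ≤ N ∧ x = d.pw τ f}

/-! Piece Zd-1 -/

theorem IJ_mono (d : CD ι S) (J : Finset ι) (f : S) {N M : ℕ} (h : N ≤ M) :
    IJ d J f N ≤ IJ d J f M := by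
  refine Ideal.span_mono ?_
  rintro x ⟨τ, h1, h2, rfl⟩
  exact ⟨τ, h1, h2.trans h, rfl⟩

theorem mem_IJ (d : CD ι S) (J : Finset ι) (f : S) {N : ℕ} (τ : ι →₀ ℕ)
    (hτ : ∀ i, i ∉ J → τ i = 0) (hN : τ.degree ≤ N) : d.pw τ f ∈ IJ d J f N := by
  exact Ideal.subset_span ⟨τ, hτ, hN, rfl⟩

/-- The ideal `IJ` has generators in `G (2 * L)`.
PROOF. `g τ := coeff τ (tay d id f * U ^ L)` with `τ` supported in `J` and of degree at most `N`. It is the
sum over `(α, β) ∈ antidiagonal τ` of `(fct α)⁻¹ • d.pw α f * coeff β (U ^ L)` (`coeff_mul`,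
`coeff_tay`), and every such `α ≤ τ` is supported in `J` and of degree `≤ N`, so `g τ ∈ IJ`; `g τ` is
in `G (2 * L)` by `P1`. Conversely by strong induction on the degree of `τ`: the term with `β = 0` is
`(fct τ)⁻¹ • d.pw τ f` (`U_one`), and all other terms have `α` of smaller degree. So `d.pw τ f` is in
the span of the `g`'s. -/
theorem IJ_gen {C0 : ℕ} (D : AData ι S C0) (J : Finset ι) (L : ℕ) (f : S) (hf : f ∈ D.G L) (N : ℕ) :
    ∃ s : Set S, IJ D.d J f N = Ideal.span s ∧ ∀ x ∈ s, x ∈ D.G (2 * L) := by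
  classical
  set W := tay D.d (AlgHom.id ℂ S) f * D.U ^ L with hW
  have hc : ∀ τ, coeff τ W = ∑ x ∈ HasAntidiagonal.antidiagonal τ,
      (fct x.1 : ℂ)⁻¹ • D.d.pw x.1 f * coeff x.2 (D.U ^ L) := fun τ => by
    rw [hW, coeff_mul]
    rfl
  have hU : coeff 0 (D.U ^ L) = 1 := by
    rw [coeff_zero_eq_constantCoeff_apply, map_pow, D.U_one, one_pow]
  refine ⟨{x | ∃ τ : ι →₀ ℕ, (∀ i, i ∉ J → τ i = 0) ∧ τ.degree ≤ N ∧ x = coeff τ W}, ?_, ?_⟩
  · apply le_antisymm
    · refine Ideal.span_le.2 ?_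
      rintro x ⟨τ, h1, h2, rfl⟩
      have key : ∀ n, ∀ τ : ι →₀ ℕ, (∀ i, i ∉ J → τ i = 0) → τ.degree ≤ N → τ.degree = n →
          D.d.pw τ f ∈ Ideal.span {x | ∃ τ : ι →₀ ℕ, (∀ i, i ∉ J → τ i = 0) ∧ τ.degree ≤ N ∧
            x = coeff τ W} := by
        intro n
        induction n using Nat.strong_induction_on with
        | _ n ih =>
          intro τ h1 h2 h3
          have h4 : coeff τ W ∈ Ideal.span {x | ∃ τ : ι →₀ ℕ, (∀ i, i ∉ J → τ i = 0) ∧
              τ.degree ≤ N ∧ x = coeff τ W} := Ideal.subset_span ⟨τ, h1, h2, rfl⟩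
          have h5 : (τ, (0 : ι →₀ ℕ)) ∈ HasAntidiagonal.antidiagonal τ := by simp
          rw [hc, ← Finset.add_sum_erase _ _ h5, hU, mul_one] at h4
          have h6 : ∑ x ∈ (HasAntidiagonal.antidiagonal τ).erase (τ, 0),
              (fct x.1 : ℂ)⁻¹ • D.d.pw x.1 f * coeff x.2 (D.U ^ L) ∈
              Ideal.span {x | ∃ τ : ι →₀ ℕ, (∀ i, i ∉ J → τ i = 0) ∧
              τ.degree ≤ N ∧ x = coeff τ W} := by
            refine Ideal.sum_mem _ fun x hx => Ideal.mul_mem_right _ _ ?_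
            obtain ⟨hx1, hx2⟩ := Finset.mem_erase.1 hx
            have hx3 : x.1 + x.2 = τ := HasAntidiagonal.mem_antidiagonal.1 hx2
            have hx4 : x.2 ≠ 0 := by
              intro h0
              apply hx1
              rw [h0, add_zero] at hx3
              exact Prod.ext hx3 h0
            have hx5 : 0 < x.2.degree := by
              rw [Nat.pos_iff_ne_zero, Ne, Finsupp.degree_eq_zero_iff]
              exact hx4
            have hx6 : x.1.degree + x.2.degree = τ.degree := by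
              rw [← hx3, map_add]
            rw [← algebraMap_smul S, smul_eq_mul]
            refine Ideal.mul_mem_left _ _ (ih x.1.degree (by omega) x.1 ?_ (by omega) rfl)
            intro i hi
            have := h1 i hi
            rw [← hx3, Finsupp.add_apply] at this
            omega
          have h7 := (Ideal.add_mem_iff_left _ h6).1 h4
          have h8 : D.d.pw τ f = (fct τ : ℂ) • ((fct τ : ℂ)⁻¹ • D.d.pw τ f) := by
            rw [smul_smul, mul_inv_cancel₀ (fct_ne τ), one_smul]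
          rw [h8, ← algebraMap_smul S, smul_eq_mul]
          exact Ideal.mul_mem_left _ _ h7
      exact key _ τ h1 h2 rfl
    · refine Ideal.span_le.2 ?_
      rintro x ⟨τ, h1, h2, rfl⟩
      change coeff τ W ∈ IJ D.d J f N
      rw [hc]
      refine Ideal.sum_mem _ fun x hx => Ideal.mul_mem_right _ _ ?_
      have hx3 : x.1 + x.2 = τ := HasAntidiagonal.mem_antidiagonal.1 hx
      rw [← algebraMap_smul S, smul_eq_mul]
      refine Ideal.mul_mem_left _ _ (mem_IJ _ _ _ _ ?_ ?_)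
      · intro i hi
        have := h1 i hi
        rw [← hx3, Finsupp.add_apply] at this
        omega
      · have : x.1.degree + x.2.degree = τ.degree := by
          rw [← hx3, map_add]
        omega
  · rintro x ⟨τ, h1, h2, rfl⟩
    exact D.P1 L f hf τ

/-! Piece Zd-2 -/

/-- The image of the derivatives.
PROOF. `Ideal.map`/`Ideal.span` induction: it suffices to treat the generators `d.pw τ f` of `IJ`,
since `tay d ψ` is a ring homomorphism and `WI` an ideal. The coefficient at `α` is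
`(fct α)⁻¹ • ψ (d.pw α (d.pw τ f)) = (fct α)⁻¹ • ψ (d.pw (α + τ) f)` (`CD.pw_add`). If `wt J T α < T` then
`α i = 0` for `i ∉ J` (otherwise the weight is at least `T`) and the degree of `α` is less than `T`
(the weight is the degree as `α` is supported in `J`), so `α + τ` is supported in `J` of degree at
most `N + T`, and `d.pw (α + τ) f ∈ IJ d J f (N + T)`, which `ψ` kills. -/
theorem tay_mem_WI (d : CD ι S) (J : Finset ι) (T N : ℕ) (f : S) (ψ : S →ₐ[ℂ] ℂ)
    (hψ : ∀ x ∈ IJ d J f (N + T), ψ x = 0) (x : S) (hx : x ∈ IJ d J f N) :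
    tay d ψ x ∈ WI J T T := by
  have h : IJ d J f N ≤ Ideal.comap (tay d ψ).toRingHom (WI J T T) := by
    refine Ideal.span_le.2 ?_
    rintro x ⟨τ, h1, h2, rfl⟩
    change tay d ψ (d.pw τ f) ∈ WI J T T
    intro α hα
    rw [coeff_tay, ← CD.pw_add]
    have h3 : ∀ i, i ∉ J → α i = 0 := by
      intro i hi
      by_contra h0
      have h4 : T * α i ≤ wt J T α := by
        classical
        unfold wt
        have h5 := Finset.single_le_sum (f := fun i => (if i ∈ J then 1 else T) * α i)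
          (fun j _ => Nat.zero_le _) (Finset.mem_univ i)
        simp only [if_neg hi] at h5
        convert h5
      have h6 : T ≤ T * α i := Nat.le_mul_of_pos_right _ (Nat.pos_of_ne_zero h0)
      omega
    have h4 : α.degree ≤ T := by
      have h5 : wt J T α = α.degree := by
        classical
        rw [Finsupp.degree_eq_sum]
        unfold wt
        refine Finset.sum_congr rfl fun i _ => ?_
        by_cases hi : i ∈ J
        · simp [hi]
        · simp [hi, h3 i hi]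
      omega
    rw [hψ, smul_zero]
    refine mem_IJ _ _ _ _ ?_ ?_
    · intro i hi
      rw [Finsupp.add_apply, h3 i hi, h1 i hi]
    · rw [map_add]
      omega
  exact h hx

/-- Choice of the characters.
PROOF. Induction on `n ≤ card ι`: there are `y : Fin n → S`, `h`, `ψ`, `N` with these properties and
linearly independent vectors `(ψ j (D i (y j)))_i` in `ι → ℂ`. Step: as `n < card ι` there is `a ≠ 0`
with `∑ i, a i * ψ j (D i (y j)) = 0` for all `j < n` (the span of the `n` vectors is not the whole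
space, so a nonzero linear functional vanishes on it: `Submodule.exists_le_ker_of_lt_top` or a
dimension count for the linear map `(ι → ℂ) → (Fin n → ℂ)`). By `hp` there is `x ∈ p` with
`∑ i, a i • D i x ∉ p`; by `minp` there are `h ∉ p` and `N` with `h * x ^ N ∈ I`; `p` is prime, so
`h * (∑ i, a i • D i x) ∉ p` and by `nst` there is `ψ` which kills `p` but not this element. The new
vector `(ψ (D i x))_i` is not in the kernel of the functional `a`, which contains the span of the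
others; `LinearIndependent` of `Fin.cons`/`Fin.snoc` (`linearIndependent_finCons`,
`linearIndependent_fin_snoc`). At the end reindex `Fin (card ι) ≃ ι`. -/
theorem chars (d : CD ι S) {G : ℕ → Submodule ℂ S} (hG : Filt (Fintype.card ι) S G) (I p : Ideal S)
    (hI : p ∈ I.minimalPrimes)
    (hp : ∀ a : ι → ℂ, a ≠ 0 → ∃ x ∈ p, d.dir a x ∉ p) :
    ∃ (y h : ι → S) (ψ : ι → (S →ₐ[ℂ] ℂ)) (N : ι → ℕ), (∀ j, y j ∈ p) ∧ (∀ j, ∀ x ∈ p, ψ j x = 0) ∧
      (∀ j, h j * y j ^ N j ∈ I) ∧ (∀ j, ψ j (h j) ≠ 0) ∧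
      LinearIndependent ℂ fun j => fun i => ψ j (d.D i (y j)) := by
  classical
  have hpp : p.IsPrime := hI.1.1
  let W : Set (ι → ℂ) := {v | ∃ (y h : S) (ψ : S →ₐ[ℂ] ℂ) (N : ℕ), y ∈ p ∧ (∀ x ∈ p, ψ x = 0) ∧
    h * y ^ N ∈ I ∧ ψ h ≠ 0 ∧ v = fun i => ψ (d.D i y)}
  have hspan : Submodule.span ℂ W = ⊤ := by
    by_contra hne
    obtain ⟨f, hf0, hf⟩ := Submodule.exists_le_ker_of_lt_top _ (lt_top_iff_ne_top.2 hne)
    obtain ⟨a, hfa⟩ : ∃ a : ι → ℂ, ∀ v : ι → ℂ, f v = ∑ i, v i * a i :=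
      ⟨_, fun v => LinearMap.pi_apply_eq_sum_univ f v⟩
    have ha : a ≠ 0 := by
      intro h0
      apply hf0
      refine LinearMap.ext fun v => ?_
      rw [hfa v, h0]
      simp
    obtain ⟨x, hx, hx'⟩ := hp a ha
    obtain ⟨h, hh, N, hN⟩ := minp I p hI x hx
    obtain ⟨ψ, hψ, hb⟩ := nst hG p hpp (h * d.dir a x)
      (fun hm => (hpp.mem_or_mem hm).elim hh hx')
    rw [map_mul] at hb
    have hv : (fun i => ψ (d.D i x)) ∈ W :=
      ⟨x, h, ψ, N, hx, hψ, hN, left_ne_zero_of_mul hb, rfl⟩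
    have h1 : f (fun i => ψ (d.D i x)) = 0 := hf (Submodule.subset_span hv)
    rw [hfa] at h1
    apply right_ne_zero_of_mul hb
    have h2 : d.dir a x = ∑ i, a i • d.D i x := by
      unfold CD.dir
      have h3 := map_sum (Derivation.coeFnAddMonoidHom (R := ℂ) (A := S) (M := S))
        (fun i => a i • d.D i) univ
      have h4 := congr_fun h3 x
      rw [Finset.sum_apply] at h4
      exact h4
    rw [h2, map_sum, ← h1]
    refine Finset.sum_congr rfl fun i _ => ?_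
    rw [map_smul, smul_eq_mul, mul_comm]
  obtain ⟨b, hbW, hbs, hbl⟩ := exists_linearIndependent ℂ W
  let B : Module.Basis b ℂ (ι → ℂ) := Module.Basis.mk hbl (by
    rw [Subtype.range_coe_subtype, Set.ofPred_mem_eq, hbs, hspan])
  let e : b ≃ ι := B.indexEquiv (Pi.basisFun ℂ ι)
  have hW : ∀ j, ((e.symm j : b) : ι → ℂ) ∈ W := fun j => hbW (e.symm j).2
  choose y h ψ N h1 h2 h3 h4 h5 using hW
  refine ⟨y, h, ψ, N, h1, h2, h3, h4, ?_⟩
  have h6 : (fun j => fun i => ψ j (d.D i (y j))) = fun j => ((e.symm j : b) : ι → ℂ) :=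
    funext fun j => (h5 j).symm
  rw [h6]
  exact hbl.comp _ e.symm.injective

/-! Piece Zd-3 -/

/-- PROOF. Let `y`, `h`, `ψ`, `N` be as in `chars`, `I = IJ d J f (r T)`, `s` the generators of `I` in
`G (2 L)` (`IJ_gen`), and `t` the set of all `q = tay d (ψ j) g * (map (ψ j) U) ^ (2 L)`, `j ∈ ι`, `g ∈ s`.
`t ⊆ Z (2 L)` by `P2`; `Q = Ideal.span t`.
(a) `Q ≤ WI J T T`: `tay_mem_WI` (with `N = r T`; `IJ (r T + T) ≤ p` is killed by `ψ j`), and `WI` is an
ideal. (b) For `x ∈ I` we have `tay d (ψ j) x ∈ Q`: `tay d (ψ j)` is a ring homomorphism, so it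
suffices to treat `x = g ∈ s`, and `map (ψ j) U` is a unit (constant coefficient `1`,
`MvPowerSeries.isUnit_iff_constantCoeff`). (c) `Y j = tay d (ψ j) (y j)` has constant coefficient
`ψ j (y j) = 0` and the coefficient `ψ j (D i (y j))` at `single i 1` (`fct = 1`, `CD.pw_succ`,
`CD.pw_zero`). By (b) `tay (h j) * (Y j) ^ (N j) ∈ Q`, and `tay (h j)` is a unit (constant coefficient
`ψ j (h j) ≠ 0`), so `Y j ∈ Q.radical`. (d) `span_params`: `mm ι = span (range Y) ≤ Q.radical`, so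
`mm ι ^ N0 ≤ Q` for some `N0` (`Ideal.exists_pow_le_of_le_radical_of_fg`, `mm_fg`).
(e) choose `k ≥ 1` with all `y j ∈ G k` (`filt.top`, `filt.mono`, finitely many `j`). `Y' j = Y j *
(map (ψ j) U) ^ k ∈ Z k` (`P2`) also generate `mm ι` (units). -/
theorem caseA_ideal {C0 : ℕ} (D : AData ι S C0) (J : Finset ι) (L T r : ℕ) (f : S)
    (hf : f ∈ D.G L) (p : Ideal S) (hI : p ∈ (IJ D.d J f (r * T)).minimalPrimes)
    (hI' : IJ D.d J f (r * T + T) ≤ p)
    (hp : ∀ a : ι → ℂ, a ≠ 0 → ∃ x ∈ p, D.d.dir a x ∉ p) :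
    ∃ (t t' : Set (MvPowerSeries ι ℂ)) (k N0 : ℕ), (∀ q ∈ t, q ∈ D.Z (2 * L)) ∧
      Ideal.span t ≤ WI J T T ∧ (∀ q ∈ t', q ∈ D.Z k) ∧ Ideal.span t' = mm ι ∧
      mm ι ^ N0 ≤ Ideal.span t := by
  classical
  obtain ⟨y, h, ψ, N, hy, hψ, hN, hh, hli⟩ := chars D.d D.filt (IJ D.d J f (r * T)) p hI hp
  obtain ⟨s, hs, hsG⟩ := IJ_gen D J L f hf (r * T)
  have hUu : ∀ (j : ι) (n : ℕ), IsUnit (MvPowerSeries.map (ψ j : S →+* ℂ) D.U ^ n) := by
    intro j n
    apply IsUnit.pow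
    rw [MvPowerSeries.isUnit_iff_constantCoeff]
    rw [← coeff_zero_eq_constantCoeff_apply, coeff_map, coeff_zero_eq_constantCoeff_apply,
      D.U_one, map_one]
    exact isUnit_one
  set t : Set (MvPowerSeries ι ℂ) := {q | ∃ j, ∃ g ∈ s,
    q = tay D.d (ψ j) g * MvPowerSeries.map (ψ j : S →+* ℂ) D.U ^ (2 * L)} with ht
  -- (b)
  have hb : ∀ j, ∀ x ∈ IJ D.d J f (r * T), tay D.d (ψ j) x ∈ Ideal.span t := by
    intro j x hx
    have h1 : IJ D.d J f (r * T) ≤ Ideal.comap (tay D.d (ψ j)).toRingHom (Ideal.span t) := by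
      rw [hs]
      refine Ideal.span_le.2 fun g hg => ?_
      change tay D.d (ψ j) g ∈ Ideal.span t
      obtain ⟨v, hv⟩ := (hUu j (2 * L)).exists_right_inv
      have h2 : tay D.d (ψ j) g =
          tay D.d (ψ j) g * MvPowerSeries.map (ψ j : S →+* ℂ) D.U ^ (2 * L) * v := by
        rw [mul_assoc, hv, mul_one]
      rw [h2]
      exact Ideal.mul_mem_right _ _ (Ideal.subset_span ⟨j, g, hg, rfl⟩)
    exact h1 hx
  -- the parameters
  have hY0 : ∀ j, constantCoeff (tay D.d (ψ j) (y j)) = 0 := by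
    intro j
    rw [constantCoeff_tay, hψ j _ (hy j)]
  have hY1 : ∀ j i, coeff (Finsupp.single i 1) (tay D.d (ψ j) (y j)) = ψ j (D.d.D i (y j)) := by
    intro j i
    have h1 := CD.pw_succ D.d 0 i (y j)
    have h2 := fct_succ (0 : ι →₀ ℕ) i
    rw [zero_add] at h1 h2
    rw [coeff_tay, h1, h2, CD.pw_zero, fct_zero]
    simp
  have hmm : Ideal.span (Set.range fun j => tay D.d (ψ j) (y j)) = mm ι := by
    refine span_params _ hY0 ?_
    convert hli using 3 with j i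
    exact hY1 j i
  have hrad : mm ι ≤ (Ideal.span t).radical := by
    rw [← hmm]
    refine Ideal.span_le.2 ?_
    rintro _ ⟨j, rfl⟩
    change tay D.d (ψ j) (y j) ∈ (Ideal.span t).radical
    refine ⟨N j, ?_⟩
    have h1 := hb j _ (hN j)
    rw [map_mul, map_pow] at h1
    have h2 : IsUnit (tay D.d (ψ j) (h j)) := by
      rw [MvPowerSeries.isUnit_iff_constantCoeff, constantCoeff_tay]
      exact isUnit_iff_ne_zero.2 (hh j)
    obtain ⟨v, hv⟩ := h2.exists_left_inv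
    have h3 : tay D.d (ψ j) (y j) ^ N j =
        v * (tay D.d (ψ j) (h j) * tay D.d (ψ j) (y j) ^ N j) := by
      rw [← mul_assoc, hv, one_mul]
    rw [h3]
    exact Ideal.mul_mem_left _ _ h1
  obtain ⟨N0, hN0⟩ := Ideal.exists_pow_le_of_le_radical_of_fg hrad mm_fg
  -- (e)
  choose kk hkk using fun j => D.filt.top (y j)
  set k := ∑ j, kk j with hk
  have hyk : ∀ j, y j ∈ D.G k := fun j =>
    D.filt.mono (Finset.single_le_sum (f := kk) (fun _ _ => Nat.zero_le _) (Finset.mem_univ j))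
      (hkk j)
  refine ⟨t, {q | ∃ j, q = tay D.d (ψ j) (y j) * MvPowerSeries.map (ψ j : S →+* ℂ) D.U ^ k}, k,
    N0, ?_, ?_, ?_, ?_, hN0⟩
  · rintro q ⟨j, g, hg, rfl⟩
    exact D.P2 (ψ j) (2 * L) g (hsG g hg)
  · refine Ideal.span_le.2 ?_
    rintro q ⟨j, g, hg, rfl⟩
    refine Ideal.mul_mem_right _ _ (tay_mem_WI D.d J T (r * T) f (ψ j) ?_ g ?_)
    · intro x hx
      exact hψ j x (hI' hx)
    · rw [hs]
      exact Ideal.subset_span hg
  · rintro q ⟨j, rfl⟩
    exact D.P2 (ψ j) k (y j) (hyk j)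
  · apply le_antisymm
    · refine Ideal.span_le.2 ?_
      rintro q ⟨j, rfl⟩
      change _ * _ ∈ mm ι
      rw [mem_mm, map_mul, hY0, zero_mul]
    · rw [← hmm]
      refine Ideal.span_le.2 ?_
      rintro _ ⟨j, rfl⟩
      obtain ⟨v, hv⟩ := (hUu j k).exists_right_inv
      have h3 : tay D.d (ψ j) (y j) =
          tay D.d (ψ j) (y j) * MvPowerSeries.map (ψ j : S →+* ℂ) D.U ^ k * v := by
        rw [mul_assoc, hv, mul_one]
      change tay D.d (ψ j) (y j) ∈ _
      rw [h3]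
      exact Ideal.mul_mem_right _ _ (Ideal.subset_span ⟨j, rfl⟩)

/-! Piece Zd-4 -/

/-- PROOF. If `x ≤ C (b + 1 + c K) ^ m` ... : divide by `K ^ m` and let `K → ∞`. -/
theorem lim_ineq (x C b c m : ℕ) (h : ∀ K, 1 ≤ K → x * K ^ m ≤ C * (b + c * K + 1) ^ m) :
    x ≤ C * c ^ m := by
  have h1 : Filter.Tendsto (fun K : ℕ => (C : ℝ) * ((c : ℝ) + ((b : ℝ) + 1) / (K : ℝ)) ^ m)
      Filter.atTop (nhds ((C : ℝ) * ((c : ℝ) + 0) ^ m)) := by
    refine Filter.Tendsto.const_mul _ (Filter.Tendsto.pow ?_ m)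
    exact Filter.Tendsto.const_add _ (tendsto_const_div_atTop_nhds_zero_nat _)
  have h2 : (x : ℝ) ≤ (C : ℝ) * ((c : ℝ) + 0) ^ m := by
    refine ge_of_tendsto h1 ?_
    filter_upwards [Filter.eventually_ge_atTop 1] with K hK
    have hK0 : (0 : ℝ) < (K : ℝ) := by exact_mod_cast hK
    have h3 : (x : ℝ) * (K : ℝ) ^ m ≤ (C : ℝ) * ((b : ℝ) + c * K + 1) ^ m := by
      exact_mod_cast h K hK
    have h4 : (c : ℝ) + ((b : ℝ) + 1) / (K : ℝ) = ((b : ℝ) + c * K + 1) / (K : ℝ) := by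
      field_simp
      ring
    rw [h4, div_pow, mul_div_assoc', le_div_iff₀ (pow_pos hK0 m)]
    exact h3
  rw [add_zero] at h2
  exact_mod_cast h2

/-- Case A.
PROOF. `caseA_ideal`; `Q = Ideal.span t`. `spanning D.Z` with `s = t'`, `a = k`, `b = 0` (`Z_one`:
`f - constantCoeff f • 1 ∈ mm ι = span t'`) and `K = N0`: for all `f` there is `z ∈ Z (0 + N0 * k)` with
`f - z ∈ mm ι ^ (N0 + 1) ≤ Q`. Again `spanning` with `s = t`, `a = 2 * L`, `b = N0 * k` and arbitrary `K`: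
for all `f` there is `z ∈ Z (b + K * (2 L))` with `f - z ∈ Q ^ (K + 1) ≤ WI J T (T * (K + 1))`
(`WI_pow`). `card_le` for the set `A` of `card_A` with `K = card ι * K'` gives
`T ^ |J| * K' ^ m ≤ C0 * (b + m K' * (2 L) + 1) ^ m` (`Z_dim`), and `lim_ineq`. -/
theorem caseA {C0 : ℕ} (D : AData ι S C0) (J : Finset ι) (L T r : ℕ) (hT : 1 ≤ T) (f : S)
    (hf : f ∈ D.G L) (p : Ideal S) (hI : p ∈ (IJ D.d J f (r * T)).minimalPrimes)
    (hI' : IJ D.d J f (r * T + T) ≤ p)
    (hp : ∀ a : ι → ℂ, a ≠ 0 → ∃ x ∈ p, D.d.dir a x ∉ p) :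
    T ^ J.card ≤ C0 * (Fintype.card ι * (2 * L)) ^ Fintype.card ι := by
  obtain ⟨t, t', k, N0, ht, htW, ht', hspan, hN0⟩ := caseA_ideal D J L T r f hf p hI hI' hp
  obtain ⟨e, he, heu⟩ := D.Z_unit
  have hb1 : ∀ f : MvPowerSeries ι ℂ, ∃ z ∈ D.Z 0, f - z ∈ Ideal.span t' := by
    intro f
    refine ⟨(constantCoeff f) • (1 : MvPowerSeries ι ℂ), Submodule.smul_mem _ _ D.Z_one, ?_⟩
    rw [hspan, mem_mm, map_sub, sub_eq_zero]
    rw [← coeff_zero_eq_constantCoeff_apply, ← coeff_zero_eq_constantCoeff_apply, coeff_smul,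
      coeff_zero_one, mul_one]
  have hb2 : ∀ f : MvPowerSeries ι ℂ, ∃ z ∈ D.Z (0 + N0 * k), f - z ∈ Ideal.span t := by
    intro f
    obtain ⟨z, hz, hfz⟩ := spanning D.Z D.Z_mul e he heu k 0 t' ht' hb1 N0 f
    refine ⟨z, hz, hN0 ?_⟩
    rw [hspan] at hfz
    exact Ideal.pow_le_pow_right (Nat.le_succ N0) hfz
  rw [← mul_comm (2 * L)]
  refine lim_ineq _ C0 (0 + N0 * k) _ _ fun K' _ => ?_
  obtain ⟨A, hA, hAc⟩ := card_A J T K' hT
  have h3 : ∀ f : MvPowerSeries ι ℂ, ∃ z ∈ D.Z (0 + N0 * k + Fintype.card ι * K' * (2 * L)),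
      f - z ∈ Ideal.span t ^ (Fintype.card ι * K' + 1) :=
    spanning D.Z D.Z_mul e he heu (2 * L) (0 + N0 * k) t ht hb2 (Fintype.card ι * K')
  have hQ : Ideal.span t ^ (Fintype.card ι * K' + 1) ≤ WI J T (T * (Fintype.card ι * K' + 1)) :=
    (Ideal.pow_right_mono htW _).trans (WI_pow J T _ _)
  have := D.Z_fin (0 + N0 * k + Fintype.card ι * K' * (2 * L))
  have h4 := card_le J T (D.Z (0 + N0 * k + Fintype.card ι * K' * (2 * L)))
    (T * (Fintype.card ι * K' + 1)) _ hQ h3 A hA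
  refine hAc.trans (h4.trans ((D.Z_dim _).trans (le_of_eq ?_)))
  congr 2
  ring

end

end Pool.Agent.Helper63.LT
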