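import Pool.Agent.Helper63.LT.Za
import Pool.Agent.Helper4.LT.Dd

/-!
PROJECT LT, block Z. Part e: entire functions and their Taylor series.
`LTG.diff_dir` (Pool/Agent/Helper4/LT/Dd.lean): directional derivatives of entire functions are entire.
-/

namespace Pool.Agent.Helper63.LT

open Finset MvPowerSeries

noncomputable section

variable (ι : Type) [Fintype ι]

/-- The algebra of entire functions. -/
def Ent : Subalgebra ℂ ((ι → ℂ) → ℂ) where
  carrier := {F | Differentiable ℂ F}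
  mul_mem' := fun {_ _} hF hG => Differentiable.mul hF hG
  add_mem' := fun {_ _} hF hG => Differentiable.add hF hG
  algebraMap_mem' := fun c => differentiable_const c

variable {ι}

theorem mem_Ent {F : (ι → ℂ) → ℂ} : F ∈ Ent ι ↔ Differentiable ℂ F := Iff.rfl

theorem Ent.diff (F : Ent ι) : Differentiable ℂ (F : (ι → ℂ) → ℂ) := F.2

/-! Piece Ze-1 -/

private theorem Ze1_line (F : Ent ι) (z w : ι → ℂ) :
    Differentiable ℂ (fun s : ℂ => (F : (ι → ℂ) → ℂ) (z + s • (w - z))) :=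
  F.2.comp ((differentiable_const z).add (differentiable_id.smul_const (w - z)))

private theorem Ze1_ne {F : Ent ι} (h : F ≠ 0) : ∃ z, (F : (ι → ℂ) → ℂ) z ≠ 0 := by
  by_contra hc
  rw [not_exists] at hc
  exact h (Subtype.ext (funext fun z => not_not.1 (hc z)))

/-- Identity theorem. PROOF. If `F z ≠ 0` and `G w ≠ 0` the one variable functions
`s ↦ F (z + s • (w - z))` and `s ↦ G (z + s • (w - z))` are entire, not zero, and their product is
zero: contradiction (`AnalyticOnNhd.eq_zero_or_eq_zero_of_mul_eq_zero` or the identity theorem in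
one variable). -/
instance : IsDomain (Ent ι) := by
  have h1 : NoZeroDivisors (Ent ι) := ⟨fun {F G} h => by
    by_contra hne
    rw [not_or] at hne
    obtain ⟨z, hz⟩ := Ze1_ne hne.1
    obtain ⟨w, hw⟩ := Ze1_ne hne.2
    have hf := Complex.analyticOnNhd_univ_iff_differentiable.2 (Ze1_line F z w)
    have hg := Complex.analyticOnNhd_univ_iff_differentiable.2 (Ze1_line G z w)
    have hfg : ∀ s ∈ (Set.univ : Set ℂ), (F : (ι → ℂ) → ℂ) (z + s • (w - z))
        * (G : (ι → ℂ) → ℂ) (z + s • (w - z)) = 0 := fun s _ =>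
      congrFun (congrArg Subtype.val h) _
    rcases hf.eq_zero_or_eq_zero_of_mul_eq_zero hg hfg isPreconnected_univ with h2 | h2
    · have h3 := h2 0 (Set.mem_univ _)
      simp only [zero_smul, add_zero] at h3
      exact hz h3
    · have h3 := h2 1 (Set.mem_univ _)
      simp only [one_smul, add_sub_cancel] at h3
      exact hw h3⟩
  have h2 : Nontrivial (Ent ι) := ⟨0, 1, fun h => by
    have h3 : (0 : ℂ) = 1 := congrFun (congrArg Subtype.val h) (0 : ι → ℂ)
    exact zero_ne_one h3⟩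
  exact NoZeroDivisors.to_isDomain _

/-- PROOF. By induction on `n`, for all `F`: `contDiff_succ_iff_fderiv`, and `fderiv ℂ F` is `C ^ n` iff
all `z ↦ fderiv ℂ F z v` are (`contDiff_clm_apply_iff`, finite dimension), which are entire
(`LTG.diff_dir`). -/
theorem contDiff_ent {F : (ι → ℂ) → ℂ} (hF : Differentiable ℂ F) (n : ℕ) :
    ContDiff ℂ n F := by
  induction n generalizing F with
  | zero => exact contDiff_zero.2 hF.continuous
  | succ n ih =>
    have h : ((n + 1 : ℕ) : WithTop ℕ∞) = (n : WithTop ℕ∞) + 1 := by push_cast; rfl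
    rw [h, contDiff_succ_iff_fderiv_apply]
    refine ⟨hF, fun hn => ?_, fun y => ih (LTG.diff_dir hF y)⟩
    exact absurd hn (by simp)

/-- The derivative in the direction `v`. -/
def dE (v : ι → ℂ) : Derivation ℂ (Ent ι) (Ent ι) where
  toFun F := ⟨fun z => fderiv ℂ (F : (ι → ℂ) → ℂ) z v, LTG.diff_dir F.2 v⟩
  map_add' F G := by
    refine Subtype.ext (funext fun z => ?_)
    have h : fderiv ℂ ((F : (ι → ℂ) → ℂ) + (G : (ι → ℂ) → ℂ)) z
        = fderiv ℂ (F : (ι → ℂ) → ℂ) z + fderiv ℂ (G : (ι → ℂ) → ℂ) z :=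
      fderiv_add (F.2 z) (G.2 z)
    exact congrArg (fun L => L v) h
  map_smul' c F := by
    refine Subtype.ext (funext fun z => ?_)
    have h : fderiv ℂ (c • (F : (ι → ℂ) → ℂ)) z = c • fderiv ℂ (F : (ι → ℂ) → ℂ) z :=
      fderiv_const_smul (F.2 z) c
    exact congrArg (fun L => L v) h
  map_one_eq_zero' := by
    refine Subtype.ext (funext fun z => ?_)
    have h : fderiv ℂ (fun _ : ι → ℂ => (1 : ℂ)) z = 0 := fderiv_const_apply 1
    exact congrArg (fun L => L v) h
  leibniz' F G := by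
    refine Subtype.ext (funext fun z => ?_)
    have h : fderiv ℂ ((F : (ι → ℂ) → ℂ) * (G : (ι → ℂ) → ℂ)) z
        = (F : (ι → ℂ) → ℂ) z • fderiv ℂ (G : (ι → ℂ) → ℂ) z
          + (G : (ι → ℂ) → ℂ) z • fderiv ℂ (F : (ι → ℂ) → ℂ) z :=
      fderiv_mul (F.2 z) (G.2 z)
    exact congrArg (fun L => L v) h

theorem dE_apply (v : ι → ℂ) (F : Ent ι) (z : ι → ℂ) :
    (dE v F : (ι → ℂ) → ℂ) z = fderiv ℂ (F : (ι → ℂ) → ℂ) z v := rfl

theorem dE_add (v w : ι → ℂ) : dE (v + w) = dE v + dE w := by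
  refine Derivation.ext fun F => Subtype.ext (funext fun z => ?_)
  exact map_add (fderiv ℂ (F : (ι → ℂ) → ℂ) z) v w

theorem dE_smul (c : ℂ) (v : ι → ℂ) : dE (c • v) = c • dE v := by
  refine Derivation.ext fun F => Subtype.ext (funext fun z => ?_)
  exact map_smul (fderiv ℂ (F : (ι → ℂ) → ℂ) z) c v

private theorem Ze1_snd (v w : ι → ℂ) (F : Ent ι) (z : ι → ℂ) :
    (dE v (dE w F) : (ι → ℂ) → ℂ) z = fderiv ℂ (fderiv ℂ (F : (ι → ℂ) → ℂ)) z v w := by
  have h1 : ContDiff ℂ 2 (F : (ι → ℂ) → ℂ) := contDiff_ent F.2 2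
  have h2 : ContDiff ℂ 1 (fderiv ℂ (F : (ι → ℂ) → ℂ)) := h1.fderiv_right (by norm_num)
  have h3 : DifferentiableAt ℂ (fderiv ℂ (F : (ι → ℂ) → ℂ)) z :=
    (h2.differentiable (by norm_num)) z
  have h4 : HasFDerivAt (fun y => fderiv ℂ (F : (ι → ℂ) → ℂ) y w)
      ((ContinuousLinearMap.apply ℂ ℂ w).comp (fderiv ℂ (fderiv ℂ (F : (ι → ℂ) → ℂ)) z)) z :=
    (ContinuousLinearMap.apply ℂ ℂ w).hasFDerivAt.comp z h3.hasFDerivAt
  have h5 : fderiv ℂ (fun y => fderiv ℂ (F : (ι → ℂ) → ℂ) y w) z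
      = (ContinuousLinearMap.apply ℂ ℂ w).comp (fderiv ℂ (fderiv ℂ (F : (ι → ℂ) → ℂ)) z) :=
    h4.fderiv
  exact congrArg (fun L => L v) h5

/-- PROOF. Symmetry of the second derivative (`ContDiffAt.isSymmSndFDerivAt`, `contDiff_ent`). -/
theorem dE_comm (v w : ι → ℂ) (F : Ent ι) : dE v (dE w F) = dE w (dE v F) := by
  refine Subtype.ext (funext fun z => ?_)
  rw [Ze1_snd, Ze1_snd]
  have h2 : ContDiffAt ℂ 2 (F : (ι → ℂ) → ℂ) z := (contDiff_ent F.2 2).contDiffAt
  exact h2.isSymmSndFDerivAt (by rw [minSmoothness_of_isRCLikeNormedField]) v w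

/-! Piece Ze-2 -/

/-- The commuting derivations given by a basis. -/
def cE (b : Module.Basis ι ℂ (ι → ℂ)) : CD ι (Ent ι) where
  D i := dE (b i)
  comm i j F := dE_comm (b i) (b j) F

private theorem Ze2_zero : dE (0 : ι → ℂ) = 0 := by
  have h := dE_smul (0 : ℂ) (0 : ι → ℂ)
  rwa [zero_smul, zero_smul] at h

private theorem Ze2_sum {κ : Type} (s : Finset κ) (f : κ → (ι → ℂ)) :
    dE (∑ i ∈ s, f i) = ∑ i ∈ s, dE (f i) := by
  classical
  induction s using Finset.induction_on with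
  | empty => rw [Finset.sum_empty, Finset.sum_empty, Ze2_zero]
  | insert i s hi ih => rw [Finset.sum_insert hi, Finset.sum_insert hi, dE_add, ih]

theorem cE_dir (b : Module.Basis ι ℂ (ι → ℂ)) (a : ι → ℂ) : (cE b).dir a = dE (∑ i, a i • b i) := by
  rw [Ze2_sum]
  unfold CD.dir
  refine Finset.sum_congr rfl fun i _ => ?_
  rw [dE_smul]
  rfl

/-- Evaluation at `w`. -/
def evE (w : ι → ℂ) : Ent ι →ₐ[ℂ] ℂ where
  toFun F := (F : (ι → ℂ) → ℂ) w
  map_one' := rfl
  map_mul' _ _ := rfl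
  map_zero' := rfl
  map_add' _ _ := rfl
  commutes' _ := rfl

theorem evE_apply (w : ι → ℂ) (F : Ent ι) : evE w F = (F : (ι → ℂ) → ℂ) w := rfl

/-- Substitution `z ↦ w + z`. -/
def tr (w : ι → ℂ) : Ent ι →ₐ[ℂ] Ent ι where
  toFun F := ⟨fun z => (F : (ι → ℂ) → ℂ) (w + z), F.2.comp (differentiable_id.const_add w)⟩
  map_one' := rfl
  map_mul' _ _ := rfl
  map_zero' := rfl
  map_add' _ _ := rfl
  commutes' _ := rfl

/-- Substitution `z ↦ w - z`. -/
def rf (w : ι → ℂ) : Ent ι →ₐ[ℂ] Ent ι where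
  toFun F := ⟨fun z => (F : (ι → ℂ) → ℂ) (w - z), F.2.comp (differentiable_id.const_sub w)⟩
  map_one' := rfl
  map_mul' _ _ := rfl
  map_zero' := rfl
  map_add' _ _ := rfl
  commutes' _ := rfl

theorem tr_apply (w : ι → ℂ) (F : Ent ι) (z : ι → ℂ) :
    (tr w F : (ι → ℂ) → ℂ) z = (F : (ι → ℂ) → ℂ) (w + z) := rfl

theorem rf_apply (w : ι → ℂ) (F : Ent ι) (z : ι → ℂ) :
    (rf w F : (ι → ℂ) → ℂ) z = (F : (ι → ℂ) → ℂ) (w - z) := rfl

theorem tr_dE (w v : ι → ℂ) (F : Ent ι) : tr w (dE v F) = dE v (tr w F) := by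
  refine Subtype.ext (funext fun z => ?_)
  rw [tr_apply, dE_apply, dE_apply]
  have h1 : HasFDerivAt (tr w F : (ι → ℂ) → ℂ)
      ((fderiv ℂ (F : (ι → ℂ) → ℂ) (w + z)).comp (ContinuousLinearMap.id ℂ (ι → ℂ))) z :=
    HasFDerivAt.comp (g := (F : (ι → ℂ) → ℂ)) (f := fun z : ι → ℂ => w + z) z
      (F.2 _).hasFDerivAt ((hasFDerivAt_id z).const_add w)
  rw [h1.fderiv]
  rfl

theorem rf_dE (w v : ι → ℂ) (F : Ent ι) : rf w (dE v F) = -dE v (rf w F) := by
  refine Subtype.ext (funext fun z => ?_)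
  change (rf w (dE v F) : (ι → ℂ) → ℂ) z = -(dE v (rf w F) : (ι → ℂ) → ℂ) z
  rw [rf_apply, dE_apply, dE_apply]
  have h1 : HasFDerivAt (rf w F : (ι → ℂ) → ℂ)
      ((fderiv ℂ (F : (ι → ℂ) → ℂ) (w - z)).comp (-ContinuousLinearMap.id ℂ (ι → ℂ))) z :=
    HasFDerivAt.comp (g := (F : (ι → ℂ) → ℂ)) (f := fun z : ι → ℂ => w - z) z
      (F.2 _).hasFDerivAt ((hasFDerivAt_id z).const_sub w)
  rw [h1.fderiv]
  change fderiv ℂ (F : (ι → ℂ) → ℂ) (w - z) v = -(fderiv ℂ (F : (ι → ℂ) → ℂ) (w - z) (-v))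
  rw [map_neg, neg_neg]

/-- The Taylor series at `0` in the coordinates of the basis `b`. -/
def TT (b : Module.Basis ι ℂ (ι → ℂ)) : Ent ι →ₐ[ℂ] MvPowerSeries ι ℂ := tay (cE b) (evE 0)

theorem TT_def (b : Module.Basis ι ℂ (ι → ℂ)) (F : Ent ι) : TT b F = tay (cE b) (evE 0) F := rfl

theorem constantCoeff_TT (b : Module.Basis ι ℂ (ι → ℂ)) (F : Ent ι) :
    constantCoeff (TT b F) = (F : (ι → ℂ) → ℂ) 0 := by
  rw [TT_def, constantCoeff_tay, evE_apply]

theorem pderiv_TT (b : Module.Basis ι ℂ (ι → ℂ)) (F : Ent ι) (i : ι) :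
    MvPowerSeries.pderiv ℂ i (TT b F) = TT b (dE (b i) F) := by
  exact pderiv_tay (cE b) (evE 0) F i

/-- PROOF. `tay_nat` with `θ = tr w`. -/
theorem TT_tr (b : Module.Basis ι ℂ (ι → ℂ)) (w : ι → ℂ) (F : Ent ι) :
    TT b (tr w F) = tay (cE b) (evE w) F := by
  have h1 : (evE (0 : ι → ℂ)).comp (tr w) = evE w := by
    refine AlgHom.ext fun G => ?_
    rw [AlgHom.comp_apply, evE_apply, evE_apply, tr_apply, add_zero]
  rw [TT_def, tay_nat (cE b) (cE b) (tr w) (fun i x => tr_dE w (b i) x), h1]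

/-- PROOF. `tay_nat` with `θ = rf w`, from `(cE b).neg` to `cE b`. -/
theorem TT_rf (b : Module.Basis ι ℂ (ι → ℂ)) (w : ι → ℂ) (F : Ent ι) :
    TT b (rf w F) = tay (cE b).neg (evE w) F := by
  have h1 : (evE (0 : ι → ℂ)).comp (rf w) = evE w := by
    refine AlgHom.ext fun G => ?_
    rw [AlgHom.comp_apply, evE_apply, evE_apply, rf_apply, sub_zero]
  have h2 : ∀ i x, rf w ((cE b).neg.D i x) = (cE b).D i (rf w x) := by
    intro i x
    change rf w (-(dE (b i) x)) = dE (b i) (rf w x)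
    rw [map_neg, rf_dE, neg_neg]
  rw [TT_def, tay_nat (cE b).neg (cE b) (rf w) h2, h1]

/-! Piece Ze-3: lines -/

/-- PROOF. For all `s`, by induction on `j`: `iteratedDeriv_succ`, and the derivative of
`s ↦ G (z + s • v)` is `s ↦ fderiv ℂ G (z + s • v) v`. -/
theorem iter_line (F : Ent ι) (z v : ι → ℂ) (j : ℕ) (s : ℂ) :
    iteratedDeriv j (fun s : ℂ => (F : (ι → ℂ) → ℂ) (z + s • v)) s =
      ((dE v)^[j] F : (ι → ℂ) → ℂ) (z + s • v) := by
  induction j generalizing s with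
  | zero => rw [iteratedDeriv_zero]; rfl
  | succ j ih =>
    rw [iteratedDeriv_succ, funext ih, Function.iterate_succ_apply', dE_apply]
    set G : Ent ι := (dE v)^[j] F with hG
    have h1 : HasDerivAt (fun s : ℂ => z + s • v) v s := by
      have h2 := ((hasDerivAt_id s).smul_const v).const_add z
      rwa [one_smul] at h2
    have h3 : HasFDerivAt (G : (ι → ℂ) → ℂ) (fderiv ℂ (G : (ι → ℂ) → ℂ) (z + s • v))
        (z + s • v) := (G.2 _).hasFDerivAt
    exact (h3.comp_hasDerivAt s h1).deriv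

/-- PROOF. The entire function `s ↦ F (s • v)` has all derivatives `0` at `0`, so it is `0`; take
`v = z`, `s = 1`. -/
theorem eq_zero_of_iter (F : Ent ι)
    (h : ∀ (v : ι → ℂ) (j : ℕ), ((dE v)^[j] F : (ι → ℂ) → ℂ) 0 = 0) : F = 0 := by
  apply Subtype.ext
  funext v
  have h1 : Differentiable ℂ (fun s : ℂ => (F : (ι → ℂ) → ℂ) (0 + s • v)) :=
    F.2.comp ((differentiable_id.smul_const v).const_add 0)
  have h2 := Complex.taylorSeries_eq_of_entire h1 0 1
  have h3 : ∀ n : ℕ, ((n.factorial : ℂ))⁻¹ • ((1 : ℂ) - 0) ^ n •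
      iteratedDeriv n (fun s : ℂ => (F : (ι → ℂ) → ℂ) (0 + s • v)) 0 = 0 := by
    intro n
    rw [iter_line F 0 v n 0, zero_smul, add_zero, h v n, smul_zero, smul_zero]
  simp only [h3, tsum_zero] at h2
  rw [one_smul, zero_add] at h2
  exact h2.symm

private theorem Ze3_sum (b : Module.Basis ι ℂ (ι → ℂ)) (v : ι → ℂ) (F : Ent ι) :
    dE v F = ∑ i, b.repr v i • dE (b i) F := by
  have h : ∀ s : Finset ι, dE (∑ i ∈ s, b.repr v i • b i) F =
      ∑ i ∈ s, b.repr v i • dE (b i) F := by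
    classical
    intro s
    induction s using Finset.induction_on with
    | empty =>
      rw [sum_empty, sum_empty]
      have h1 := dE_smul (0 : ℂ) (0 : ι → ℂ)
      rw [zero_smul, zero_smul] at h1
      rw [h1]
      rfl
    | insert i s hi ih =>
      rw [sum_insert hi, sum_insert hi, dE_add, dE_smul, ← ih]
      rfl
  have h1 := h univ
  rwa [b.sum_repr] at h1

/-- PROOF. The kernel of `TT b` is stable under all `dE (b i)` (`pderiv_TT`), so under all `dE v`
(`dE_add`, `dE_smul`, `b.sum_repr`), and all its elements vanish at `0`: `eq_zero_of_iter`. -/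
theorem TT_inj (b : Module.Basis ι ℂ (ι → ℂ)) : Function.Injective (TT b) := by
  rw [injective_iff_map_eq_zero]
  intro F hF
  have h1 : ∀ (G : Ent ι), TT b G = 0 → ∀ v : ι → ℂ, TT b (dE v G) = 0 := by
    intro G hG v
    rw [Ze3_sum b v G, map_sum]
    refine sum_eq_zero fun i _ => ?_
    rw [map_smul, ← pderiv_TT, hG, map_zero, smul_zero]
  refine eq_zero_of_iter F fun v j => ?_
  have h2 : TT b ((dE v)^[j] F) = 0 := by
    induction j with
    | zero => exact hF
    | succ j ih =>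
      rw [Function.iterate_succ_apply']
      exact h1 _ ih v
  rw [← constantCoeff_TT b, h2, map_zero]

/-! Piece Ze-4: the multinomial formula -/

omit [Fintype ι] in
private theorem Ze4_smul {E : Type} [Ring E] [Algebra ℂ E] (s : Finset ι) (c : ι → ℂ) (g : ι → E)
    (h : (s : Set ι).Pairwise (Function.onFun Commute g))
    (h' : (s : Set ι).Pairwise (Function.onFun Commute fun i => c i • g i)) :
    s.noncommProd (fun i => c i • g i) h' = (∏ i ∈ s, c i) • s.noncommProd g h := by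
  classical
  induction s using Finset.cons_induction with
  | empty => simp
  | cons a s has ih =>
    rw [Finset.noncommProd_cons, Finset.noncommProd_cons, ih (h.mono (by simp)) (h'.mono (by simp)),
      Finset.prod_cons, smul_mul_smul_comm]

open scoped Classical in
/-- PROOF. Induction on `j`. Apply `d.dir t = ∑ t i • D i` to the formula for `j`; the coefficient of
`d.pw β f`, `|β| = j + 1`, is `∑_(i : β i > 0) t ^ β * j ! / (β - single i 1) ! = t ^ β * j ! / β ! * ∑ i, β i`. -/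
theorem dir_pow {R : Type} [CommRing R] [Algebra ℂ R] (d : CD ι R) (t : ι → ℂ) (j : ℕ) (f : R) :
    (d.dir t)^[j] f = ∑ α ∈ (univ : Finset ι).finsuppAntidiag j,
      (((j.factorial : ℂ) / fct α) * ∏ i, t i ^ α i) • d.pw α f := by
  have hD : ((d.dir t : Derivation ℂ R R) : R →ₗ[ℂ] R) =
      ∑ i, t i • ((d.D i : R →ₗ[ℂ] R) : Module.End ℂ R) := by
    refine LinearMap.ext fun x => ?_
    rw [LinearMap.sum_apply]
    change (∑ i, t i • d.D i : Derivation ℂ R R) x = ∑ i, t i • d.D i x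
    have h0 := congrFun (map_sum (Derivation.coeFnAddMonoidHom : Derivation ℂ R R →+ (R → R))
      (fun i => t i • d.D i) univ) x
    rw [Finset.sum_apply] at h0
    exact h0
  have hc : ∀ i k, Commute (t i • ((d.D i : R →ₗ[ℂ] R) : Module.End ℂ R))
      (t k • ((d.D k : R →ₗ[ℂ] R) : Module.End ℂ R)) := fun i k =>
    ((d.commute i k).smul_left _).smul_right _
  have h1 : (d.dir t)^[j] f = (((d.dir t : Derivation ℂ R R) : R →ₗ[ℂ] R) ^ j : Module.End ℂ R) f := by
    rw [Module.End.pow_apply]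
    rfl
  rw [h1, hD, Finset.sum_pow_eq_sum_piAntidiag_of_commute _ _ (fun i _ k _ _ => hc i k),
    LinearMap.sum_apply]
  refine Finset.sum_nbij' (fun k => (Finsupp.equivFunOnFinite (α := ι) (M := ℕ)).symm k)
    (fun α => (α : ι → ℕ)) ?_ ?_ ?_ ?_ ?_
  · intro k hk
    rw [Finset.mem_piAntidiag] at hk
    rw [Finset.mem_finsuppAntidiag]
    exact ⟨hk.1, Finset.subset_univ _⟩
  · intro α hα
    rw [Finset.mem_finsuppAntidiag] at hα
    rw [Finset.mem_piAntidiag]
    exact ⟨hα.1, fun _ _ => Finset.mem_univ _⟩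
  · intro k _
    rfl
  · intro α _
    ext i
    rfl
  · intro k hk
    rw [Finset.mem_piAntidiag] at hk
    set α : ι →₀ ℕ := (Finsupp.equivFunOnFinite (α := ι) (M := ℕ)).symm k with hα
    have hαk : ∀ i, α i = k i := fun i => rfl
    have h2 : (Finset.univ : Finset ι).noncommProd
        (fun i => (t i • ((d.D i : R →ₗ[ℂ] R) : Module.End ℂ R)) ^ k i)
        (fun i _ j _ _ => (hc i j).pow_pow _ _) =
        (∏ i, t i ^ k i) • (d.pw α : Module.End ℂ R) := by
      have h3 : ∀ i, (t i • ((d.D i : R →ₗ[ℂ] R) : Module.End ℂ R)) ^ k i =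
          t i ^ k i • ((d.D i : R →ₗ[ℂ] R) : Module.End ℂ R) ^ k i := fun i => smul_pow _ _ _
      have h4 := Ze4_smul (Finset.univ : Finset ι) (fun i => t i ^ k i)
        (fun i => ((d.D i : R →ₗ[ℂ] R) : Module.End ℂ R) ^ k i)
        (fun i _ j _ _ => (d.commute i j).pow_pow _ _)
        (fun i _ j _ _ => (((d.commute i j).pow_pow _ _).smul_left _).smul_right _)
      exact (Finset.noncommProd_congr rfl (fun i _ => h3 i) _).trans h4
    rw [h2]
    have h5 : (Nat.multinomial Finset.univ k : ℂ) = (j.factorial : ℂ) / fct α := by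
      rw [eq_div_iff (fct_ne α)]
      have h6 := Nat.multinomial_spec (Finset.univ : Finset ι) k
      rw [hk.1] at h6
      have h7 : fct α = ∏ i, (k i).factorial := rfl
      rw [h7, mul_comm]
      exact_mod_cast h6
    rw [← h5, Module.End.mul_apply, LinearMap.smul_apply]
    change ((Nat.multinomial Finset.univ k : Module.End ℂ R)) _ = _
    rw [mul_smul]
    have h8 : ∀ (n : ℕ) (x : R), (n : Module.End ℂ R) x = (n : ℂ) • x := by
      intro n x
      rw [Module.End.natCast_apply, Nat.cast_smul_eq_nsmul]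
    rw [h8]
    rfl

open scoped Classical in
private theorem vc_sum (b : Module.Basis ι ℂ (ι → ℂ)) (F : Ent ι) (t : ι → ℂ) (j : ℕ) :
    ((dE (∑ i, t i • b i))^[j] F : (ι → ℂ) → ℂ) 0 =
      ∑ α ∈ (univ : Finset ι).finsuppAntidiag j,
        (((j.factorial : ℂ) / fct α) * ∏ i, t i ^ α i) * evE 0 ((cE b).pw α F) := by
  rw [← cE_dir, dir_pow, ← evE_apply, map_sum]
  refine Finset.sum_congr rfl fun α _ => ?_
  rw [map_smul, smul_eq_mul]

/-- PROOF. By `dir_pow` the polynomial `∑_α (j ! / α !) (evE 0 (pw α F)) X ^ α`, over the `α` of degree `j`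
supported in `J`, vanishes at all `t` supported in `J`, so (it does not contain the other variables)
everywhere; `MvPolynomial.funext`, so its coefficients are `0`. -/
theorem van_coeff (b : Module.Basis ι ℂ (ι → ℂ)) (J : Finset ι) (F : Ent ι) (N : ℕ)
    (h : ∀ t : ι → ℂ, (∀ i, i ∉ J → t i = 0) → ∀ j ≤ N,
      ((dE (∑ i, t i • b i))^[j] F : (ι → ℂ) → ℂ) 0 = 0)
    (α : ι →₀ ℕ) (hα : ∀ i, i ∉ J → α i = 0) (hN : α.degree ≤ N) :
    evE 0 ((cE b).pw α F) = 0 := by
  classical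
  set j := α.degree with hj
  let S := ((univ : Finset ι).finsuppAntidiag j).filter fun β => ∀ i, i ∉ J → β i = 0
  let P : MvPolynomial ι ℂ := ∑ β ∈ S,
    MvPolynomial.monomial β (((j.factorial : ℂ) / fct β) * evE 0 ((cE b).pw β F))
  have hP : P = 0 := by
    refine MvPolynomial.funext fun t => ?_
    rw [map_zero]
    let t' : ι → ℂ := fun i => if i ∈ J then t i else 0
    have h1 := h t' (fun i hi => by simp [t', hi]) j hN
    rw [vc_sum] at h1
    rw [← h1]
    simp only [P, map_sum, MvPolynomial.eval_monomial]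
    rw [Finset.sum_filter]
    refine Finset.sum_congr rfl fun β _ => ?_
    split_ifs with hβ
    · have : (β.prod fun i e => t i ^ e) = ∏ i, t' i ^ β i := by
        rw [Finsupp.prod_fintype _ _ (fun i => pow_zero _)]
        refine Finset.prod_congr rfl fun i _ => ?_
        by_cases hi : i ∈ J
        · simp [t', hi]
        · simp [t', hi, hβ i hi]
      rw [this]; ring
    · obtain ⟨i, hi, hi'⟩ : ∃ i, i ∉ J ∧ β i ≠ 0 := by
        by_contra hcon
        exact hβ fun i hi => by_contra fun hne => hcon ⟨i, hi, hne⟩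
      rw [Finset.prod_eq_zero (Finset.mem_univ i) (by simp [t', hi, hi'])]
      ring
  have hmem : α ∈ S := by
    refine Finset.mem_filter.2 ⟨?_, hα⟩
    rw [Finset.mem_finsuppAntidiag]
    refine ⟨?_, Finset.subset_univ _⟩
    rw [hj, Finsupp.degree_eq_sum]
  have hc := congrArg (MvPolynomial.coeff α) hP
  simp only [P, MvPolynomial.coeff_sum, MvPolynomial.coeff_monomial, MvPolynomial.coeff_zero] at hc
  rw [Finset.sum_ite_eq' S α, if_pos hmem] at hc
  rcases mul_eq_zero.1 hc with h0 | h0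
  · exfalso
    have h2 : (j.factorial : ℂ) ≠ 0 := by exact_mod_cast j.factorial_ne_zero
    exact (div_ne_zero h2 (fct_ne α)) h0
  · exact h0

/-- The converse, for all directions. PROOF. `dir_pow`, with `t` the coordinates of `v`. -/
theorem coeff_van (b : Module.Basis ι ℂ (ι → ℂ)) (F : Ent ι) (N : ℕ)
    (h : ∀ α : ι →₀ ℕ, α.degree ≤ N → evE 0 ((cE b).pw α F) = 0) (v : ι → ℂ) (j : ℕ) (hj : j ≤ N) :
    ((dE v)^[j] F : (ι → ℂ) → ℂ) 0 = 0 := by
  classical
  have hv : v = ∑ i, b.repr v i • b i := (b.sum_repr v).symm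
  rw [hv, vc_sum]
  refine Finset.sum_eq_zero fun α hα => ?_
  rw [h α, mul_zero]
  rw [Finset.mem_finsuppAntidiag] at hα
  have : α.degree = j := by
    rw [← hα.1, Finsupp.degree_eq_sum]
  omega

end

end Pool.Agent.Helper63.LT
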