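import Pool.Agent.Helper63.LT.Ze
import Pool.Agent.Helper34.LT.Df
import Pool.Agent.Helper35.LZ.Al

/-!
PROJECT LT, block Z. Part t: theta functions.
-/

namespace Pool.Agent.Helper63.LT

open Finset MvPowerSeries
open Pool.Agent.Helper34.LT (Theta)

noncomputable section

section th

variable {ι A : Type} [Fintype ι] [AddCommGroup A] (γ : A →+ (ι → ℂ))
  (l : A →+ ((ι → ℂ) →ₗ[ℂ] ℂ)) (c : A → ℂ)

/-! Piece Zt-1 -/

/-- The space of theta functions of degree `k`. -/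
def ThS (k : ℕ) : Submodule ℂ (Ent ι) where
  carrier := {F | Theta γ l c k F}
  add_mem' := fun {F G} hF hG => ⟨(F + G).2, fun a z => by
    change (F : (ι → ℂ) → ℂ) (z + γ a) + (G : (ι → ℂ) → ℂ) (z + γ a) =
      Complex.exp (k * (l a z + c a)) * ((F : (ι → ℂ) → ℂ) z + (G : (ι → ℂ) → ℂ) z)
    rw [hF.2 a z, hG.2 a z]
    ring⟩
  zero_mem' := ⟨(0 : Ent ι).2, fun a z => by
    change (0 : ℂ) = Complex.exp (k * (l a z + c a)) * 0
    rw [mul_zero]⟩
  smul_mem' := fun x F hF => ⟨(x • F).2, fun a z => by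
    change x * (F : (ι → ℂ) → ℂ) (z + γ a) =
      Complex.exp (k * (l a z + c a)) * (x * (F : (ι → ℂ) → ℂ) z)
    rw [hF.2 a z]
    ring⟩

theorem mem_ThS {k : ℕ} {F : Ent ι} :
    F ∈ ThS γ l c k ↔ ∀ a z, (F : (ι → ℂ) → ℂ) (z + γ a) =
      Complex.exp (k * (l a z + c a)) * (F : (ι → ℂ) → ℂ) z :=
  ⟨fun h => h.2, fun h => ⟨F.2, h⟩⟩

theorem ThS_mul {k k' : ℕ} {F G : Ent ι} (hF : F ∈ ThS γ l c k) (hG : G ∈ ThS γ l c k') :
    F * G ∈ ThS γ l c (k + k') := by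
  rw [mem_ThS] at hF hG ⊢
  intro a z
  change (F : (ι → ℂ) → ℂ) (z + γ a) * (G : (ι → ℂ) → ℂ) (z + γ a) =
    Complex.exp (((k + k' : ℕ) : ℂ) * (l a z + c a)) *
      ((F : (ι → ℂ) → ℂ) z * (G : (ι → ℂ) → ℂ) z)
  rw [hF, hG, Nat.cast_add, add_mul, Complex.exp_add]
  ring

theorem ThS_one : (1 : Ent ι) ∈ ThS γ l c 0 := by
  rw [mem_ThS]
  intro a z
  change (1 : ℂ) = Complex.exp (((0 : ℕ) : ℂ) * (l a z + c a)) * 1
  rw [Nat.cast_zero, zero_mul, Complex.exp_zero, mul_one]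

theorem ThS_pow {k : ℕ} {F : Ent ι} (hF : F ∈ ThS γ l c k) (n : ℕ) :
    F ^ n ∈ ThS γ l c (n * k) := by
  induction n with
  | zero =>
    rw [pow_zero, zero_mul]
    exact ThS_one γ l c
  | succ n ih =>
    rw [pow_succ, Nat.succ_mul]
    exact ThS_mul γ l c ih hF

/-- `z ↦ F (z + w) G (z - w)`. -/
theorem ThS_pair {k : ℕ} {F G : Ent ι} (hF : F ∈ ThS γ l c k) (hG : G ∈ ThS γ l c k)
    (w : ι → ℂ) : tr w F * tr (-w) G ∈ ThS γ l c (2 * k) := by
  rw [mem_ThS] at hF hG ⊢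
  intro a z
  change (F : (ι → ℂ) → ℂ) (w + (z + γ a)) * (G : (ι → ℂ) → ℂ) (-w + (z + γ a)) =
    Complex.exp (((2 * k : ℕ) : ℂ) * (l a z + c a)) *
      ((F : (ι → ℂ) → ℂ) (w + z) * (G : (ι → ℂ) → ℂ) (-w + z))
  have h1 : Complex.exp (((2 * k : ℕ) : ℂ) * (l a z + c a)) =
      Complex.exp (k * (l a (w + z) + c a)) * Complex.exp (k * (l a (-w + z) + c a)) := by
    rw [← Complex.exp_add, map_add, map_add, map_neg]
    congr 1
    push_cast
    ring
  rw [← add_assoc, ← add_assoc, hF, hG, h1]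
  ring

/-- The multipliers of `x ↦ F (w + x) G (w - x)`. -/
def cc : A → ℂ := fun a => (c a + c (-a)) / 2

/-- PROOF. `G (w - x - γ a) = G (w - x + γ (-a)) = exp (k (- l a (w - x) + c (-a))) G (w - x)`. -/
theorem ThS_pair' {k : ℕ} {F G : Ent ι} (hF : F ∈ ThS γ l c k) (hG : G ∈ ThS γ l c k)
    (w : ι → ℂ) : tr w F * rf w G ∈ ThS γ l (cc c) (2 * k) := by
  rw [mem_ThS] at hF hG ⊢
  intro a z
  change (F : (ι → ℂ) → ℂ) (w + (z + γ a)) * (G : (ι → ℂ) → ℂ) (w - (z + γ a)) =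
    Complex.exp (((2 * k : ℕ) : ℂ) * (l a z + (c a + c (-a)) / 2)) *
      ((F : (ι → ℂ) → ℂ) (w + z) * (G : (ι → ℂ) → ℂ) (w - z))
  have h0 : w - (z + γ a) = w - z + γ (-a) := by
    rw [map_neg]
    abel
  have h1 : Complex.exp (((2 * k : ℕ) : ℂ) * (l a z + (c a + c (-a)) / 2)) =
      Complex.exp (k * (l a (w + z) + c a)) * Complex.exp (k * (l (-a) (w - z) + c (-a))) := by
    have h2 : l (-a) (w - z) = -(l a w - l a z) := by
      rw [map_neg, LinearMap.neg_apply, map_sub]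
    rw [← Complex.exp_add, h2, map_add]
    congr 1
    push_cast
    ring
  rw [← add_assoc, h0, hF, hG, h1]
  ring

private theorem Zt1_line (F : Ent ι) (z v : ι → ℂ) :
    HasDerivAt (fun t : ℂ => (F : (ι → ℂ) → ℂ) (z + t • v)) ((dE v F : (ι → ℂ) → ℂ) z) 0 :=
  (F.2 z).hasFDerivAt.hasLineDerivAt v

private theorem Zt1_dE {k : ℕ} {F : Ent ι} (hF : F ∈ ThS γ l c k) (v : ι → ℂ) (a : A)
    (z : ι → ℂ) : (dE v F : (ι → ℂ) → ℂ) (z + γ a) = Complex.exp (k * (l a z + c a)) *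
      ((dE v F : (ι → ℂ) → ℂ) z + k * l a v * (F : (ι → ℂ) → ℂ) z) := by
  rw [mem_ThS] at hF
  have h1 := Zt1_line F (z + γ a) v
  have h2 : (fun t : ℂ => (F : (ι → ℂ) → ℂ) (z + γ a + t • v)) = fun t : ℂ =>
      Complex.exp (k * (l a z + t * l a v + c a)) * (F : (ι → ℂ) → ℂ) (z + t • v) := by
    funext t
    have h3 : z + γ a + t • v = z + t • v + γ a := by abel
    rw [h3, hF, map_add, map_smul, smul_eq_mul]
  rw [h2] at h1
  have h3 : HasDerivAt (fun t : ℂ => (k : ℂ) * (l a z + t * l a v + c a)) (k * l a v) 0 := by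
    have h4 : HasDerivAt (fun t : ℂ => t * l a v) (1 * l a v) 0 := (hasDerivAt_id 0).mul_const _
    rw [one_mul] at h4
    exact ((h4.const_add (l a z)).add_const (c a)).const_mul (k : ℂ)
  have h4 := h3.cexp.mul (Zt1_line F z v)
  have h5 := h1.unique h4
  rw [h5]
  simp only [zero_mul, add_zero, zero_smul]
  ring

/-- PROOF. The derivative of `F (z + γ a) = exp (k (l a z + c a)) F z` in the direction `v`:
`(dE v F) (z + γ a) = exp (k (l a z + c a)) (dE v F z + k * l a v * F z)`; the terms with `l a v`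
cancel. -/
theorem ThS_wron {k : ℕ} {F G : Ent ι} (hF : F ∈ ThS γ l c k) (hG : G ∈ ThS γ l c k)
    (v : ι → ℂ) : dE v F * G - F * dE v G ∈ ThS γ l c (2 * k) := by
  have hF' := Zt1_dE γ l c hF v
  have hG' := Zt1_dE γ l c hG v
  rw [mem_ThS] at hF hG ⊢
  intro a z
  change (dE v F : (ι → ℂ) → ℂ) (z + γ a) * (G : (ι → ℂ) → ℂ) (z + γ a) -
      (F : (ι → ℂ) → ℂ) (z + γ a) * (dE v G : (ι → ℂ) → ℂ) (z + γ a) =
    Complex.exp (((2 * k : ℕ) : ℂ) * (l a z + c a)) *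
      ((dE v F : (ι → ℂ) → ℂ) z * (G : (ι → ℂ) → ℂ) z -
        (F : (ι → ℂ) → ℂ) z * (dE v G : (ι → ℂ) → ℂ) z)
  have h1 : Complex.exp (((2 * k : ℕ) : ℂ) * (l a z + c a)) =
      Complex.exp (k * (l a z + c a)) * Complex.exp (k * (l a z + c a)) := by
    rw [← Complex.exp_add]
    congr 1
    push_cast
    ring
  rw [hF', hG', hF, hG, h1]
  ring

/-- Translation by a period: `z ↦ F (z + γ a) g (z - γ a)` is a constant times `F g`. -/
theorem ThS_per {k : ℕ} {F G : Ent ι} (hF : F ∈ ThS γ l c k) (hG : G ∈ ThS γ l c k) (a : A) :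
    ∃ x : ℂ, tr (γ a) F * tr (-γ a) G = x • (F * G) := by
  rw [mem_ThS] at hF hG
  refine ⟨Complex.exp (k * (c a + c (-a))), Subtype.ext (funext fun z => ?_)⟩
  change (F : (ι → ℂ) → ℂ) (γ a + z) * (G : (ι → ℂ) → ℂ) (-γ a + z) =
    Complex.exp (k * (c a + c (-a))) * ((F : (ι → ℂ) → ℂ) z * (G : (ι → ℂ) → ℂ) z)
  have h0 : -γ a + z = z + γ (-a) := by
    rw [map_neg, add_comm]
  have h1 : Complex.exp (k * (c a + c (-a))) =
      Complex.exp (k * (l a z + c a)) * Complex.exp (k * (l (-a) z + c (-a))) := by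
    rw [← Complex.exp_add, map_neg, LinearMap.neg_apply]
    congr 1
    ring
  rw [add_comm (γ a) z, h0, hF, hG, h1]
  ring

/-! Piece Zt-2: evaluations -/

/-- PROOF. Choose a basis `m i` of `M`. Its coordinate functionals are combinations of evaluations
(`Pool.Agent.Helper35.LZ.functional` for the image of `M` in `(ι → ℂ) → ℂ`): `φ i H = ∑ j, c i j * H (w i j)`.
So `H = ∑ i, φ i H • m i = ∑ (i, j), H (w i j) • (c i j • m i)`; index type: the sigma type. -/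
theorem ev_basis (M : Submodule ℂ (Ent ι)) [Module.Finite ℂ M] :
    ∃ (κ : Type) (_ : Fintype κ) (w : κ → (ι → ℂ)) (a : κ → Ent ι), (∀ i, a i ∈ M) ∧
      ∀ H ∈ M, H = ∑ i, (H : (ι → ℂ) → ℂ) (w i) • a i := by
  classical
  have hinj : Function.Injective (Ent ι).val.toLinearMap := Subtype.coe_injective
  let e := Submodule.equivMapOfInjective (Ent ι).val.toLinearMap hinj M
  have hfin : Module.Finite ℂ (M.map (Ent ι).val.toLinearMap) := Module.Finite.equiv e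
  have hfree : Module.Free ℂ M := Module.Free.of_divisionRing ℂ M
  let m := Module.finBasis ℂ M
  have hev : ∀ i, ∃ (N : ℕ) (w : Fin N → (ι → ℂ)) (c : Fin N → ℂ), ∀ H : M,
      m.repr H i = ∑ j, c j * ((H : Ent ι) : (ι → ℂ) → ℂ) (w j) := by
    intro i
    obtain ⟨N, w, c, h⟩ := Pool.Agent.Helper35.LZ.functional
      (M.map (Ent ι).val.toLinearMap) ((m.coord i).comp e.symm.toLinearMap)
    refine ⟨N, w, c, fun H => ?_⟩
    have h1 := h (e H)
    rw [LinearMap.comp_apply, LinearEquiv.coe_toLinearMap, LinearEquiv.symm_apply_apply] at h1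
    exact h1
  choose N w c h using hev
  refine ⟨(i : Fin (Module.finrank ℂ M)) × Fin (N i), inferInstance, fun x => w x.1 x.2,
    fun x => c x.1 x.2 • (m x.1 : Ent ι), fun x => M.smul_mem _ (m x.1).2, ?_⟩
  intro H hH
  have h1 := m.sum_repr ⟨H, hH⟩
  have h2 : H = ∑ i, (m.repr ⟨H, hH⟩ i) • (m i : Ent ι) := by
    have h3 := congrArg (M.subtype) h1
    rw [map_sum] at h3
    simp only [map_smul, Submodule.subtype_apply] at h3
    exact h3.symm
  rw [Fintype.sum_sigma]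
  refine h2.trans ?_
  apply Finset.sum_congr rfl
  intro i _
  rw [h i ⟨H, hH⟩, Finset.sum_smul]
  apply Finset.sum_congr rfl
  intro j _
  simp only
  rw [smul_smul, mul_comm]

/-! Piece Zt-3: the double Taylor series -/

/-- The Taylor series of `F (w + x) G (w - x)` in `x`; its coefficients are functions of `w`. -/
def HH (b : Module.Basis ι ℂ (ι → ℂ)) (F G : Ent ι) : MvPowerSeries ι (Ent ι) :=
  tay (cE b) (AlgHom.id ℂ (Ent ι)) F * tay (cE b).neg (AlgHom.id ℂ (Ent ι)) G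

/-- PROOF. `map_tay`, `TT_tr`, `TT_rf`. -/
theorem map_HH (b : Module.Basis ι ℂ (ι → ℂ)) (F G : Ent ι) (w : ι → ℂ) :
    MvPowerSeries.map (evE w : Ent ι →+* ℂ) (HH b F G) = TT b (tr w F * rf w G) := by
  rw [HH, map_mul (MvPowerSeries.map (evE w : Ent ι →+* ℂ)), map_tay, map_tay, AlgHom.comp_id,
    map_mul (TT b), TT_tr, TT_rf]

theorem HH_apply (b : Module.Basis ι ℂ (ι → ℂ)) (F G : Ent ι) (w : ι → ℂ) (α : ι →₀ ℕ) :
    ((coeff α (HH b F G) : Ent ι) : (ι → ℂ) → ℂ) w = coeff α (TT b (tr w F * rf w G)) := by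
  rw [← map_HH, coeff_map]
  rfl

/-- PROOF. `HH_apply` at `w + γ a` and `w`: the functions `tr (w + γ a) F * rf (w + γ a) G` and
`exp (2 k (l a w + c a)) • (tr w F * rf w G)` are equal. -/
theorem HH_mem (b : Module.Basis ι ℂ (ι → ℂ)) {k : ℕ} {F G : Ent ι} (hF : F ∈ ThS γ l c k)
    (hG : G ∈ ThS γ l c k) (α : ι →₀ ℕ) : coeff α (HH b F G) ∈ ThS γ l c (2 * k) := by
  rw [mem_ThS] at hF hG ⊢
  intro a z
  have h1 : tr (z + γ a) F * rf (z + γ a) G =
      Complex.exp (((2 * k : ℕ) : ℂ) * (l a z + c a)) • (tr z F * rf z G) := by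
    refine Subtype.ext (funext fun x => ?_)
    change (F : (ι → ℂ) → ℂ) (z + γ a + x) * (G : (ι → ℂ) → ℂ) (z + γ a - x) =
      Complex.exp (((2 * k : ℕ) : ℂ) * (l a z + c a)) *
        ((F : (ι → ℂ) → ℂ) (z + x) * (G : (ι → ℂ) → ℂ) (z - x))
    have e1 : z + γ a + x = z + x + γ a := by abel
    have e2 : z + γ a - x = z - x + γ a := by abel
    rw [e1, e2, hF, hG, map_add, map_sub]
    have e3 : Complex.exp (((2 * k : ℕ) : ℂ) * (l a z + c a)) =
        Complex.exp (k * (l a z + l a x + c a)) * Complex.exp (k * (l a z - l a x + c a)) := by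
      rw [← Complex.exp_add]
      congr 1
      push_cast
      ring
    rw [e3]
    ring
  rw [HH_apply, HH_apply, h1, map_smul, map_smul, smul_eq_mul]

/-- PROOF. For every `x` the function `tr x F * tr (-x) G` is in `ThS (2 k)`, so
`F (z + x) G (z - x) = ∑ i, F (w i + x) G (w i - x) * a i z`, i.e.
`tr z F * rf z G = ∑ i, a i z • (tr (w i) F * rf (w i) G)`; apply `coeff α (TT b ·)`, `HH_apply`. -/
theorem HH_dec (b : Module.Basis ι ℂ (ι → ℂ)) {k : ℕ} {F G : Ent ι} (hF : F ∈ ThS γ l c k)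
    (hG : G ∈ ThS γ l c k) {κ : Type} [Fintype κ] (w : κ → (ι → ℂ)) (a : κ → Ent ι)
    (ha : ∀ H ∈ ThS γ l c (2 * k), H = ∑ i, (H : (ι → ℂ) → ℂ) (w i) • a i) (α : ι →₀ ℕ) :
    coeff α (HH b F G) = ∑ i, coeff α (TT b (tr (w i) F * rf (w i) G)) • a i := by
  have hs : ∀ (s : Finset κ) (g : κ → Ent ι) (x : ι → ℂ),
      ((∑ i ∈ s, g i : Ent ι) : (ι → ℂ) → ℂ) x = ∑ i ∈ s, (g i : (ι → ℂ) → ℂ) x := fun s g x =>
    map_sum (evE x) g s
  refine Subtype.ext (funext fun z => ?_)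
  rw [HH_apply, hs]
  have h1 : tr z F * rf z G = ∑ i, (a i : (ι → ℂ) → ℂ) z • (tr (w i) F * rf (w i) G) := by
    refine Subtype.ext (funext fun x => ?_)
    rw [hs]
    have h2 := congrArg (fun H : Ent ι => (H : (ι → ℂ) → ℂ) z)
      (ha _ (ThS_pair γ l c hF hG x))
    simp only [hs] at h2
    change (F : (ι → ℂ) → ℂ) (x + z) * (G : (ι → ℂ) → ℂ) (-x + z) =
      ∑ i, ((F : (ι → ℂ) → ℂ) (x + w i) * (G : (ι → ℂ) → ℂ) (-x + w i)) *
        (a i : (ι → ℂ) → ℂ) z at h2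
    change (F : (ι → ℂ) → ℂ) (z + x) * (G : (ι → ℂ) → ℂ) (z - x) =
      ∑ i, (a i : (ι → ℂ) → ℂ) z *
        ((F : (ι → ℂ) → ℂ) (w i + x) * (G : (ι → ℂ) → ℂ) (w i - x))
    rw [add_comm z x, sub_eq_neg_add, h2]
    refine sum_congr rfl fun i _ => ?_
    rw [add_comm x (w i), ← sub_eq_neg_add, mul_comm]
  rw [h1, map_sum, map_sum]
  refine sum_congr rfl fun i _ => ?_
  rw [map_smul, map_smul, smul_eq_mul, mul_comm]
  rfl

/-- PROOF. `map_tay`, `tay_nat` for `θ = TT b` and the formal derivations (`pderiv_TT`), also for the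
negative derivations. -/
theorem map_TT_HH (b : Module.Basis ι ℂ (ι → ℂ)) (F G : Ent ι) :
    MvPowerSeries.map (TT b : Ent ι →+* MvPowerSeries ι ℂ) (HH b F G) =
      tay (psD ι) (AlgHom.id ℂ (MvPowerSeries ι ℂ)) (TT b F) *
        tay (psD ι).neg (AlgHom.id ℂ (MvPowerSeries ι ℂ)) (TT b G) := by
  have h1 : ∀ i x, TT b ((cE b).D i x) = (psD ι).D i (TT b x) := fun i x =>
    (pderiv_TT b x i).symm
  have h2 : ∀ i x, TT b ((cE b).neg.D i x) = (psD ι).neg.D i (TT b x) := fun i x => by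
    change TT b (-((cE b).D i x)) = -((psD ι).D i (TT b x))
    rw [map_neg, h1]
  rw [HH, map_mul (MvPowerSeries.map (TT b : Ent ι →+* MvPowerSeries ι ℂ)), map_tay, map_tay,
    AlgHom.comp_id, tay_nat (cE b) (psD ι) (TT b) h1, tay_nat (cE b).neg (psD ι).neg (TT b) h2,
    AlgHom.id_comp]

end th

end

end Pool.Agent.Helper63.LT
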