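import Pool.Agent.Helper63.LT.Zd
import Pool.Agent.Helper63.LT.Zt

/-!
PROJECT LT, block Z. Part g: the ring of the quotients of theta functions.
-/

namespace Pool.Agent.Helper63.LT

open Finset MvPowerSeries

noncomputable section

instance instDomPS {ι : Type} : IsDomain (MvPowerSeries ι ℂ) := NoZeroDivisors.to_isDomain _

/-- The lattice data, a basis `b`, and a theta function `u0` of degree `1` with `u0 0 ≠ 0`. -/
structure LD (ι A : Type) [Fintype ι] [AddCommGroup A] where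
  γ : A →+ (ι → ℂ)
  l : A →+ ((ι → ℂ) →ₗ[ℂ] ℂ)
  c : A → ℂ
  b : Module.Basis ι ℂ (ι → ℂ)
  u0 : Ent ι
  hu : u0 ∈ ThS γ l c 1
  hu0 : (u0 : (ι → ℂ) → ℂ) 0 ≠ 0

namespace LD

variable {ι A : Type} [Fintype ι] [AddCommGroup A] (X : LD ι A)

/-- Theta functions of degree `k`. -/
def T (k : ℕ) : Submodule ℂ (Ent ι) := ThS X.γ X.l X.c k

theorem u_mem : X.u0 ∈ X.T 1 := X.hu

/-- The inverse of the Taylor series of `u0`. -/
def iu : MvPowerSeries ι ℂ := (TT X.b X.u0)⁻¹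

/-! Piece Zg-1 -/

theorem mul_iu : TT X.b X.u0 * X.iu = 1 := by
  unfold iu
  exact MvPowerSeries.mul_inv_cancel _ (by rw [constantCoeff_TT]; exact X.hu0)

theorem constantCoeff_iu : constantCoeff X.iu = ((X.u0 : (ι → ℂ) → ℂ) 0)⁻¹ := by
  unfold iu
  rw [MvPowerSeries.constantCoeff_inv, constantCoeff_TT]

/-- The quotient `F / u0 ^ k`. -/
def fr (k : ℕ) : Ent ι →ₗ[ℂ] MvPowerSeries ι ℂ :=
  (LinearMap.mulRight ℂ (X.iu ^ k)).comp (TT X.b).toLinearMap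

theorem fr_apply (k : ℕ) (F : Ent ι) : X.fr k F = TT X.b F * X.iu ^ k := rfl

private theorem Zg1_pow (k : ℕ) : TT X.b X.u0 ^ k * X.iu ^ k = 1 := by
  rw [← mul_pow, X.mul_iu, one_pow]

theorem fr_inj (k : ℕ) : Function.Injective (X.fr k) := by
  intro F F' h
  rw [fr_apply, fr_apply] at h
  apply TT_inj X.b
  have h1 := congrArg (fun x => x * TT X.b X.u0 ^ k) h
  simp only [mul_assoc] at h1
  rwa [mul_comm (X.iu ^ k), X.Zg1_pow, mul_one, mul_one] at h1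

theorem fr_mul (k k' : ℕ) (F F' : Ent ι) : X.fr k F * X.fr k' F' = X.fr (k + k') (F * F') := by
  rw [fr_apply, fr_apply, fr_apply, map_mul, pow_add]
  ring

theorem fr_up (k j : ℕ) (F : Ent ι) : X.fr (k + j) (F * X.u0 ^ j) = X.fr k F := by
  rw [fr_apply, fr_apply, map_mul, map_pow, pow_add]
  calc TT X.b F * TT X.b X.u0 ^ j * (X.iu ^ k * X.iu ^ j) =
        TT X.b F * X.iu ^ k * (TT X.b X.u0 ^ j * X.iu ^ j) := by ring
    _ = _ := by rw [X.Zg1_pow, mul_one]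

theorem fr_zero_one : X.fr 0 1 = 1 := by
  rw [fr_apply, map_one, pow_zero, mul_one]

theorem constantCoeff_fr (k : ℕ) (F : Ent ι) :
    constantCoeff (X.fr k F) = (F : (ι → ℂ) → ℂ) 0 * (((X.u0 : (ι → ℂ) → ℂ) 0)⁻¹) ^ k := by
  rw [fr_apply, map_mul, map_pow, constantCoeff_TT, constantCoeff_iu]

private theorem Zg1_der (k : ℕ) (i : ι) : MvPowerSeries.pderiv ℂ i (X.iu ^ k) =
    -(TT X.b (dE (X.b i) (X.u0 ^ k)) * X.iu ^ (2 * k)) := by
  have h1 : TT X.b (X.u0 ^ k) * X.iu ^ k = 1 := by rw [map_pow, X.Zg1_pow]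
  have h2 := congrArg (MvPowerSeries.pderiv ℂ i) h1
  rw [Derivation.leibniz, Derivation.map_one_eq_zero, pderiv_TT, smul_eq_mul, smul_eq_mul] at h2
  have h3 := congrArg (fun x => X.iu ^ k * x) h2
  simp only [mul_add, mul_zero] at h3
  have h4 : X.iu ^ k * (TT X.b (X.u0 ^ k) * MvPowerSeries.pderiv ℂ i (X.iu ^ k)) =
      MvPowerSeries.pderiv ℂ i (X.iu ^ k) := by
    rw [← mul_assoc, mul_comm (X.iu ^ k), h1, one_mul]
  rw [h4] at h3
  have h5 : X.iu ^ (2 * k) = X.iu ^ k * X.iu ^ k := by rw [two_mul, pow_add]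
  rw [h5, ← sub_eq_zero, sub_neg_eq_add, ← h3]
  ring

/-- PROOF. Quotient rule: `pderiv i (iu ^ k) = - TT (dE (b i) (u0 ^ k)) * iu ^ (2 k)`, which follows from
`pderiv i (TT (u0 ^ k) * iu ^ k) = 0` and `pderiv_TT`. -/
theorem pderiv_fr (k : ℕ) (F : Ent ι) (i : ι) :
    MvPowerSeries.pderiv ℂ i (X.fr k F) =
      X.fr (2 * k) (dE (X.b i) F * X.u0 ^ k - F * dE (X.b i) (X.u0 ^ k)) := by
  rw [fr_apply, fr_apply, Derivation.leibniz, pderiv_TT, smul_eq_mul, smul_eq_mul, X.Zg1_der,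
    map_sub, map_mul (TT X.b), map_mul (TT X.b)]
  have h5 : X.iu ^ (2 * k) = X.iu ^ k * X.iu ^ k := by rw [two_mul, pow_add]
  have h6 : TT X.b (X.u0 ^ k) * X.iu ^ k = 1 := by rw [map_pow, X.Zg1_pow]
  rw [h5]
  linear_combination (-(TT X.b (dE (X.b i) F)) * X.iu ^ k) * h6

/-! Piece Zg-2: the ring `SS` -/

private theorem Zg2_up {k j : ℕ} {F : Ent ι} (hF : F ∈ X.T k) : F * X.u0 ^ j ∈ X.T (k + j) := by
  have h1 := ThS_pow X.γ X.l X.c X.hu j
  rw [mul_one] at h1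
  exact ThS_mul X.γ X.l X.c hF h1

/-- The ring of the quotients `F / u0 ^ k`. -/
def SS : Subalgebra ℂ (MvPowerSeries ι ℂ) where
  carrier := {x | ∃ k, x ∈ (X.T k).map (X.fr k)}
  mul_mem' := by
    rintro _ _ ⟨k, F, hF, rfl⟩ ⟨k', F', hF', rfl⟩
    exact ⟨k + k', F * F', ThS_mul X.γ X.l X.c hF hF', (X.fr_mul k k' F F').symm⟩
  add_mem' := by
    rintro _ _ ⟨k, F, hF, rfl⟩ ⟨k', F', hF', rfl⟩
    refine ⟨k + k', F * X.u0 ^ k' + F' * X.u0 ^ k, Submodule.add_mem _ (Zg2_up X hF) ?_, ?_⟩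
    · rw [add_comm k k']
      exact Zg2_up X hF'
    · have h1 := X.fr_up k k' F
      have h2 := X.fr_up k' k F'
      rw [add_comm k' k] at h2
      rw [map_add, h1, h2]
  algebraMap_mem' := by
    intro r
    refine ⟨0, r • (1 : Ent ι), Submodule.smul_mem _ _ (ThS_one X.γ X.l X.c), ?_⟩
    rw [map_smul, X.fr_zero_one, Algebra.algebraMap_eq_smul_one]

theorem mem_SS {x : MvPowerSeries ι ℂ} : x ∈ X.SS ↔ ∃ k, ∃ F ∈ X.T k, X.fr k F = x := Iff.rfl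

/-- The element `F / u0 ^ k` of `SS`. -/
def el (k : ℕ) (F : Ent ι) (hF : F ∈ X.T k) : X.SS := ⟨X.fr k F, k, F, hF, rfl⟩

theorem el_val (k : ℕ) (F : Ent ι) (hF : F ∈ X.T k) :
    ((X.el k F hF : X.SS) : MvPowerSeries ι ℂ) = X.fr k F := rfl

theorem exists_el (x : X.SS) : ∃ k F hF, x = X.el k F hF := by
  obtain ⟨x, k, F, hF, rfl⟩ := x
  exact ⟨k, F, hF, rfl⟩

/-- The filtration. -/
def G (k : ℕ) : Submodule ℂ X.SS := ((X.T k).map (X.fr k)).comap X.SS.val.toLinearMap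

theorem mem_G {k : ℕ} {x : X.SS} :
    x ∈ X.G k ↔ ∃ F ∈ X.T k, X.fr k F = (x : MvPowerSeries ι ℂ) := Iff.rfl

theorem el_mem_G (k : ℕ) (F : Ent ι) (hF : F ∈ X.T k) : X.el k F hF ∈ X.G k := ⟨F, hF, rfl⟩

/-- PROOF. `fr_up`, `fr_mul`, `fr_zero_one`; `G k` is linearly equivalent to `(T k).map (fr k)`, a quotient of
`T k` (`finrank_map_le`). -/
theorem filt (hfin : ∀ k, Module.Finite ℂ (X.T k))
    (hdim : ∃ C : ℕ, ∀ k, Module.finrank ℂ (X.T k) ≤ C * (k + 1) ^ Fintype.card ι) :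
    Filt (Fintype.card ι) X.SS X.G := by
  have hsurj : ∀ k, ∃ f : X.T k →ₗ[ℂ] X.G k, Function.Surjective f := by
    intro k
    have h1 : ∀ F : X.T k, (⟨X.fr k F, k, F, F.2, rfl⟩ : X.SS) ∈ X.G k := fun F => ⟨F, F.2, rfl⟩
    refine ⟨{ toFun := fun F => ⟨⟨X.fr k F, k, F, F.2, rfl⟩, h1 F⟩
              map_add' := fun F F' => Subtype.ext (Subtype.ext (map_add (X.fr k) _ _))
              map_smul' := fun r F => Subtype.ext (Subtype.ext (map_smul (X.fr k) r _)) }, ?_⟩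
    rintro ⟨x, F, hF, hx⟩
    exact ⟨⟨F, hF⟩, Subtype.ext (Subtype.ext hx)⟩
  refine ⟨?_, ?_, ?_, ?_, ?_, ?_⟩
  · intro k k' hkk x hx
    obtain ⟨F, hF, hx⟩ := hx
    obtain ⟨j, rfl⟩ := Nat.exists_eq_add_of_le hkk
    exact ⟨F * X.u0 ^ j, Zg2_up X hF, (X.fr_up k j F).trans hx⟩
  · rintro a b x y ⟨F, hF, hx⟩ ⟨F', hF', hy⟩
    refine ⟨F * F', ThS_mul X.γ X.l X.c hF hF', ?_⟩
    have hx' : X.fr a F = (x : MvPowerSeries ι ℂ) := hx
    have hy' : X.fr b F' = (y : MvPowerSeries ι ℂ) := hy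
    have h2 : X.fr (a + b) (F * F') = ((x * y : X.SS) : MvPowerSeries ι ℂ) := by
      rw [← X.fr_mul, hx', hy']
      rfl
    exact h2
  · exact ⟨1, ThS_one X.γ X.l X.c, X.fr_zero_one⟩
  · rintro ⟨x, k, hx⟩
    exact ⟨k, hx⟩
  · intro k
    obtain ⟨f, hf⟩ := hsurj k
    have := hfin k
    exact Module.Finite.of_surjective f hf
  · obtain ⟨C, hC⟩ := hdim
    refine ⟨C, fun k => ?_⟩
    obtain ⟨f, hf⟩ := hsurj k
    have := hfin k
    exact (LinearMap.finrank_le_finrank_of_surjective hf).trans (hC k)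

/-! Piece Zg-3: derivations -/

/-- PROOF. `pderiv_fr`, `ThS_wron` (`u0 ^ k ∈ T k` by `ThS_pow`). -/
theorem pderiv_mem (i : ι) {x : MvPowerSeries ι ℂ} (hx : x ∈ X.SS) :
    MvPowerSeries.pderiv ℂ i x ∈ X.SS := by
  obtain ⟨k, F, hF, rfl⟩ := hx
  have hu : X.u0 ^ k ∈ ThS X.γ X.l X.c k := by
    have h1 := ThS_pow X.γ X.l X.c X.hu k
    rwa [mul_one] at h1
  exact ⟨2 * k, _, ThS_wron X.γ X.l X.c hF hu (X.b i), (X.pderiv_fr k F i).symm⟩

/-- The derivations of `SS`. -/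
def dSi (i : ι) : Derivation ℂ X.SS X.SS where
  toFun x := ⟨MvPowerSeries.pderiv ℂ i (x : MvPowerSeries ι ℂ), X.pderiv_mem i x.2⟩
  map_add' x y := Subtype.ext (map_add (MvPowerSeries.pderiv ℂ i) _ _)
  map_smul' a x := Subtype.ext ((MvPowerSeries.pderiv ℂ i).map_smul _ _)
  map_one_eq_zero' := Subtype.ext (MvPowerSeries.pderiv ℂ i).map_one_eq_zero
  leibniz' x y := Subtype.ext ((MvPowerSeries.pderiv ℂ i).leibniz _ _)

/-- The commuting derivations of `SS`. -/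
def dS : CD ι X.SS where
  D i := X.dSi i
  comm i j x := Subtype.ext ((psD ι).comm i j (x : MvPowerSeries ι ℂ))

theorem dS_val (i : ι) (x : X.SS) :
    ((X.dS.D i x : X.SS) : MvPowerSeries ι ℂ) =
      MvPowerSeries.pderiv ℂ i (x : MvPowerSeries ι ℂ) := rfl

private theorem Zg3_dE (a : ι → ℂ) (F : Ent ι) :
    dE (∑ i, a i • X.b i) F = ∑ i, a i • dE (X.b i) F := by
  have h : ∀ s : Finset ι, dE (∑ i ∈ s, a i • X.b i) F = ∑ i ∈ s, a i • dE (X.b i) F := by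
    classical
    intro s
    induction s using Finset.induction_on with
    | empty =>
      rw [sum_empty, sum_empty]
      have h1 := dE_smul (0 : ℂ) (0 : ι → ℂ)
      rw [zero_smul, zero_smul] at h1
      rw [h1]
      rfl
    | insert i s hi ih =>
      rw [sum_insert hi, sum_insert hi, dE_add, dE_smul, ← ih]
      rfl
  exact h univ

private theorem Zg3_dir (a : ι → ℂ) (x : X.SS) :
    X.dS.dir a x = ∑ i, a i • X.dS.D i x := by
  have h : ∀ s : Finset ι, (∑ i ∈ s, a i • X.dS.D i : Derivation ℂ X.SS X.SS) x =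
      ∑ i ∈ s, a i • X.dS.D i x := by
    classical
    intro s
    induction s using Finset.induction_on with
    | empty => rfl
    | insert i s hi ih =>
      rw [sum_insert hi, sum_insert hi, ← ih]
      rfl
  exact h univ

/-- PROOF. Linearity of `pderiv_fr` in the direction: `dE_add`, `dE_smul`. -/
theorem dir_fr (a : ι → ℂ) (k : ℕ) (F : Ent ι) (hF : F ∈ X.T k) :
    ((X.dS.dir a (X.el k F hF) : X.SS) : MvPowerSeries ι ℂ) =
      X.fr (2 * k) (dE (∑ i, a i • X.b i) F * X.u0 ^ k - F * dE (∑ i, a i • X.b i) (X.u0 ^ k)) := by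
  have h1 : ((∑ i, a i • X.dS.D i (X.el k F hF) : X.SS) : MvPowerSeries ι ℂ) =
      ∑ i, a i • MvPowerSeries.pderiv ℂ i (X.fr k F) := by
    have h2 := map_sum X.SS.val (fun i => a i • X.dS.D i (X.el k F hF)) univ
    refine Eq.trans ?_ (h2.trans ?_)
    · rfl
    · refine sum_congr rfl fun i _ => ?_
      rw [map_smul]
      rfl
  rw [Zg3_dir, h1, Zg3_dE, Zg3_dE, sum_mul, mul_sum, ← sum_sub_distrib, map_sum]
  refine sum_congr rfl fun i _ => ?_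
  rw [pderiv_fr, ← map_smul, smul_sub, smul_mul_assoc, mul_smul_comm]

/-! Piece Zg-4: the correction series -/

/-- The Taylor series of `u0 (w + x) u0 (w - x) / u0 (w) ^ 2` in `x`. -/
def U : MvPowerSeries ι X.SS := fun α =>
  X.el 2 (coeff α (HH X.b X.u0 X.u0)) (HH_mem X.γ X.l X.c X.b X.hu X.hu α)

theorem coeff_U (α : ι →₀ ℕ) : ((coeff α X.U : X.SS) : MvPowerSeries ι ℂ) =
    X.fr 2 (coeff α (HH X.b X.u0 X.u0)) := rfl

/-- PROOF. The constant coefficient of `HH b u0 u0` is `u0 * u0` (`constantCoeff_tay`). -/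
theorem U_one : constantCoeff X.U = 1 := by
  have h0 : coeff 0 (HH X.b X.u0 X.u0) = X.u0 * X.u0 := by
    rw [coeff_zero_eq_constantCoeff_apply]
    unfold HH
    rw [map_mul, constantCoeff_tay, constantCoeff_tay]
    rfl
  refine Subtype.ext ?_
  rw [← coeff_zero_eq_constantCoeff_apply, coeff_U, h0]
  have h1 := X.fr_mul 1 1 X.u0 X.u0
  have h2 := X.fr_up 0 1 1
  rw [X.fr_zero_one, zero_add, pow_one, one_mul] at h2
  rw [h2, one_mul] at h1
  exact h1.symm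

private theorem Zg4_ring {R : Type} [CommRing R] (a b c d e : R) (k : ℕ) (h : b * d = 1) :
    a * b ^ k * (c ^ k * (d ^ k * e ^ k)) = c ^ k * (a * e ^ k) := by
  have h4 : b ^ k * d ^ k = 1 := by
    rw [← mul_pow, h, one_pow]
  calc a * b ^ k * (c ^ k * (d ^ k * e ^ k)) = (b ^ k * d ^ k) * (c ^ k * (a * e ^ k)) := by ring
    _ = c ^ k * (a * e ^ k) := by rw [h4, one_mul]

private theorem Zg4_map_tay (φ : X.SS) :
    MvPowerSeries.map ((X.SS.val : X.SS →ₐ[ℂ] MvPowerSeries ι ℂ) : X.SS →+* MvPowerSeries ι ℂ)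
      (tay X.dS (AlgHom.id ℂ X.SS) φ) =
    tay (psD ι) (AlgHom.id ℂ (MvPowerSeries ι ℂ)) (φ : MvPowerSeries ι ℂ) := by
  rw [map_tay, AlgHom.comp_id]
  have h := tay_nat X.dS (psD ι) X.SS.val (fun i x => X.dS_val i x)
    (AlgHom.id ℂ (MvPowerSeries ι ℂ)) φ
  rw [AlgHom.id_comp] at h
  exact h.symm

private theorem Zg4_C (k : ℕ) (H : MvPowerSeries ι (Ent ι)) (α : ι →₀ ℕ) :
    coeff α (C (X.iu ^ k) * MvPowerSeries.map (TT X.b : Ent ι →+* MvPowerSeries ι ℂ) H) =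
      X.fr k (coeff α H) := by
  rw [coeff_C_mul, coeff_map, fr_apply, mul_comm]
  rfl

private theorem Zg4_map_U :
    MvPowerSeries.map ((X.SS.val : X.SS →ₐ[ℂ] MvPowerSeries ι ℂ) : X.SS →+* MvPowerSeries ι ℂ)
      X.U = C (X.iu ^ 2) *
        MvPowerSeries.map (TT X.b : Ent ι →+* MvPowerSeries ι ℂ) (HH X.b X.u0 X.u0) := by
  refine MvPowerSeries.ext fun α => ?_
  rw [Zg4_C, coeff_map]
  exact X.coeff_U α

/-- PROOF. The map `MvPowerSeries.map SS.val` is injective; compute the images in the power series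
over `P = MvPowerSeries ι ℂ`. The image of `tay dS id (el F)` is `tay (psD ι) id (fr k F)` (`map_tay`,
`tay_nat` with `θ = SS.val`), which is `tay (TT F) * tay (iu) ^ k`. The image of `U` is
`C (iu ^ 2) * map (TT b) (HH b u0 u0) = C (iu ^ 2) * tay (TT u0) * tay.neg (TT u0)` (`map_TT_HH`).
As `tay iu * tay (TT u0) = 1` the product `tay (el F) * U ^ k` has the image
`C (iu ^ (2 k)) * tay (TT F) * tay.neg (TT (u0 ^ k)) = C (iu ^ (2 k)) * map (TT b) (HH b F (u0 ^ k))`. -/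
theorem coeff_tay_U (k : ℕ) (F : Ent ι) (hF : F ∈ X.T k) (α : ι →₀ ℕ) :
    ((coeff α (tay X.dS (AlgHom.id ℂ X.SS) (X.el k F hF) * X.U ^ k) : X.SS) :
      MvPowerSeries ι ℂ) = X.fr (2 * k) (coeff α (HH X.b F (X.u0 ^ k))) := by
  set M := MvPowerSeries.map
    ((X.SS.val : X.SS →ₐ[ℂ] MvPowerSeries ι ℂ) : X.SS →+* MvPowerSeries ι ℂ) with hM
  set t := tay (psD ι) (AlgHom.id ℂ (MvPowerSeries ι ℂ)) with ht
  set t' := tay (psD ι).neg (AlgHom.id ℂ (MvPowerSeries ι ℂ)) with ht'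
  have h1 : ((coeff α (tay X.dS (AlgHom.id ℂ X.SS) (X.el k F hF) * X.U ^ k) : X.SS) :
      MvPowerSeries ι ℂ) = coeff α (M (tay X.dS (AlgHom.id ℂ X.SS) (X.el k F hF) * X.U ^ k)) := by
    rw [hM, coeff_map]
    rfl
  have h2 : t X.iu * t (TT X.b X.u0) = 1 := by
    rw [← map_mul t, mul_comm, X.mul_iu, map_one]
  have h3 : M (tay X.dS (AlgHom.id ℂ X.SS) (X.el k F hF) * X.U ^ k) =
      C (X.iu ^ (2 * k)) *
        MvPowerSeries.map (TT X.b : Ent ι →+* MvPowerSeries ι ℂ) (HH X.b F (X.u0 ^ k)) := by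
    have e1 : t (TT X.b F * X.iu ^ k) = t (TT X.b F) * t X.iu ^ k := by
      rw [map_mul t, map_pow t]
    have e2 : t' (TT X.b (X.u0 ^ k)) = t' (TT X.b X.u0) ^ k := by
      rw [map_pow (TT X.b), map_pow t']
    have e3 : (C (X.iu ^ (2 * k)) : MvPowerSeries ι (MvPowerSeries ι ℂ)) = C (X.iu ^ 2) ^ k := by
      rw [pow_mul, map_pow C (X.iu ^ 2) k]
    rw [map_mul M, map_pow M, Zg4_map_tay, Zg4_map_U, map_TT_HH, map_TT_HH, el_val, fr_apply,
      ← ht, ← ht', e1, e2, e3, mul_pow, mul_pow]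
    exact Zg4_ring _ _ _ _ _ k h2
  rw [h1, h3, Zg4_C]

/-! Piece Zg-5: the system -/

/-- The theta functions of the second kind, as power series. -/
def Z (k : ℕ) : Submodule ℂ (MvPowerSeries ι ℂ) :=
  (ThS X.γ X.l (cc X.c) (2 * k)).map (TT X.b).toLinearMap

private theorem Zg5_pow (k : ℕ) : X.u0 ^ k ∈ ThS X.γ X.l X.c k := by
  have h := ThS_pow X.γ X.l X.c X.hu k
  rwa [mul_one] at h

theorem P1 (k : ℕ) (φ : X.SS) (hφ : φ ∈ X.G k) (α : ι →₀ ℕ) :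
    coeff α (tay X.dS (AlgHom.id ℂ X.SS) φ * X.U ^ k) ∈ X.G (2 * k) := by
  obtain ⟨F, hF, hφ⟩ := hφ
  have e : φ = X.el k F hF := Subtype.ext hφ.symm
  subst e
  exact ⟨coeff α (HH X.b F (X.u0 ^ k)), HH_mem X.γ X.l X.c X.b hF (X.Zg5_pow k) α,
    (X.coeff_tay_U k F hF α).symm⟩

/-- PROOF. `tay dS ψ φ * (map ψ U) ^ k = map ψ (tay dS id φ * U ^ k)` has the coefficients
`ψ (el (coeff α (HH b F (u0 ^ k))))` (`coeff_tay_U`); `HH_dec` with `ev_basis` for `T (2 k)`: this is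
`∑ i, coeff α (TT b (tr (w i) F * rf (w i) (u0 ^ k))) * ψ (el (a i))`, and the functions
`tr (w i) F * rf (w i) (u0 ^ k)` are in `ThS γ l (cc c) (2 k)` (`ThS_pair'`). -/
theorem P2 (hfin : ∀ k, Module.Finite ℂ (X.T k)) (ψ : X.SS →ₐ[ℂ] ℂ) (k : ℕ) (φ : X.SS)
    (hφ : φ ∈ X.G k) :
    tay X.dS ψ φ * MvPowerSeries.map (ψ : X.SS →+* ℂ) X.U ^ k ∈ X.Z k := by
  obtain ⟨F, hF, hφ⟩ := hφ
  have e : φ = X.el k F hF := Subtype.ext hφ.symm
  subst e
  have := hfin (2 * k)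
  obtain ⟨κ, hκ, w, a, ha, hH⟩ := ev_basis (X.T (2 * k))
  refine ⟨∑ i, ψ (X.el (2 * k) (a i) (ha i)) • (tr (w i) F * rf (w i) (X.u0 ^ k)),
    Submodule.sum_mem _ fun i _ => Submodule.smul_mem _ _
      (ThS_pair' X.γ X.l X.c hF (X.Zg5_pow k) (w i)), ?_⟩
  have h1 : tay X.dS ψ (X.el k F hF) * MvPowerSeries.map (ψ : X.SS →+* ℂ) X.U ^ k
      = MvPowerSeries.map (ψ : X.SS →+* ℂ)
        (tay X.dS (AlgHom.id ℂ X.SS) (X.el k F hF) * X.U ^ k) := by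
    rw [map_mul, map_pow, map_tay]
    rfl
  rw [h1]
  refine MvPowerSeries.ext fun α => ?_
  rw [MvPowerSeries.coeff_map]
  have h2 : coeff α (tay X.dS (AlgHom.id ℂ X.SS) (X.el k F hF) * X.U ^ k)
      = ∑ i, coeff α (TT X.b (tr (w i) F * rf (w i) (X.u0 ^ k)))
        • X.el (2 * k) (a i) (ha i) := by
    refine Subtype.ext ?_
    rw [X.coeff_tay_U k F hF α,
      HH_dec X.γ X.l X.c X.b hF (X.Zg5_pow k) w a hH α, map_sum]
    rw [AddSubmonoidClass.coe_finsetSum]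
    refine Finset.sum_congr rfl fun i _ => ?_
    rw [map_smul]
    rfl
  rw [h2]
  change coeff α (TT X.b (∑ i, ψ (X.el (2 * k) (a i) (ha i))
    • (tr (w i) F * rf (w i) (X.u0 ^ k)))) = ψ _
  rw [map_sum, map_sum, map_sum]
  refine Finset.sum_congr rfl fun i _ => ?_
  rw [map_smul, map_smul, map_smul, smul_eq_mul, smul_eq_mul, mul_comm]

/-- The system. PROOF. `Z_mul`: `ThS_mul`; `Z_one`: `ThS_one`; `Z_unit`: `TT b (tr 0 u0 * rf 0 u0)`
(`ThS_pair'`, value `u0 0 ^ 2` at `0`); `Z_dim`: `finrank_map_le`. -/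
theorem exists_AData (hfin : ∀ k, Module.Finite ℂ (X.T k))
    (hdim : ∃ C : ℕ, ∀ k, Module.finrank ℂ (X.T k) ≤ C * (k + 1) ^ Fintype.card ι)
    (hfin' : ∀ k, Module.Finite ℂ (ThS X.γ X.l (cc X.c) (2 * k))) (C : ℕ)
    (hdim' : ∀ k, Module.finrank ℂ (ThS X.γ X.l (cc X.c) (2 * k)) ≤
      C * (k + 1) ^ Fintype.card ι) :
    ∃ D : AData ι X.SS C, D.d = X.dS ∧ D.G = X.G := by
  refine ⟨{ d := X.dS, G := X.G, Z := X.Z, U := X.U, filt := X.filt hfin hdim, U_one := X.U_one,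
            Z_mul := ?_, Z_one := ?_, Z_fin := ?_, Z_dim := ?_, Z_unit := ?_, P1 := X.P1,
            P2 := fun ψ k φ hφ => X.P2 hfin ψ k φ hφ }, rfl, rfl⟩
  · rintro a b x y ⟨F, hF, rfl⟩ ⟨G, hG, rfl⟩
    refine ⟨F * G, ?_, map_mul (TT X.b) F G⟩
    have h := ThS_mul X.γ X.l (cc X.c) hF hG
    rwa [← mul_add] at h
  · exact ⟨1, ThS_one X.γ X.l (cc X.c), map_one (TT X.b)⟩
  · intro k
    have := hfin' k
    unfold Z
    infer_instance
  · intro k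
    have := hfin' k
    exact (Submodule.finrank_map_le _ _).trans (hdim' k)
  · refine ⟨TT X.b (tr 0 X.u0 * rf 0 X.u0),
      ⟨_, ThS_pair' X.γ X.l X.c X.hu X.hu 0, rfl⟩, ?_⟩
    rw [constantCoeff_TT]
    have h : ((tr 0 X.u0 * rf 0 X.u0 : Ent ι) : (ι → ℂ) → ℂ) 0
        = (X.u0 : (ι → ℂ) → ℂ) (0 + 0) * (X.u0 : (ι → ℂ) → ℂ) (0 - 0) := rfl
    rw [h, add_zero, sub_zero]
    exact mul_ne_zero X.hu0 X.hu0

end LD

end

end Pool.Agent.Helper63.LT
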