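import Pool.Agent.Helper63.LT.Zg
import Pool.Agent.Helper35.LZ.La

/-!
PROJECT LT, block Z. Part h: case B, the stabiliser of a prime ideal.
-/

namespace Pool.Agent.Helper63.LT

open Finset MvPowerSeries

noncomputable section

namespace LD

variable {ι A : Type} [Fintype ι] [AddCommGroup A] (X : LD ι A) (p : Ideal X.SS)

/-! Piece Zh-1: the stabiliser is a monoid -/

/-- The theta functions of degree `k` whose quotient is in `p`. -/
def PP (k : ℕ) : Submodule ℂ (Ent ι) where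
  carrier := {F | ∃ h : F ∈ X.T k, X.el k F h ∈ p}
  add_mem' := by
    rintro F G ⟨hF, hF'⟩ ⟨hG, hG'⟩
    refine ⟨Submodule.add_mem _ hF hG, ?_⟩
    have h1 : X.el k (F + G) (Submodule.add_mem _ hF hG) = X.el k F hF + X.el k G hG :=
      Subtype.ext (map_add (X.fr k) F G)
    rw [h1]
    exact p.add_mem hF' hG'
  zero_mem' := by
    refine ⟨Submodule.zero_mem _, ?_⟩
    have h1 : X.el k 0 (Submodule.zero_mem _) = 0 := Subtype.ext (map_zero (X.fr k))
    rw [h1]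
    exact p.zero_mem
  smul_mem' := by
    rintro c F ⟨hF, hF'⟩
    refine ⟨Submodule.smul_mem _ c hF, ?_⟩
    have h1 : X.el k (c • F) (Submodule.smul_mem _ c hF) = c • X.el k F hF :=
      Subtype.ext (map_smul (X.fr k) c F)
    rw [h1]
    exact Submodule.smul_of_tower_mem p c hF'

theorem mem_PP {k : ℕ} {F : Ent ι} : F ∈ X.PP p k ↔ ∃ h : F ∈ X.T k, X.el k F h ∈ p := Iff.rfl

theorem PP_le (k : ℕ) : X.PP p k ≤ X.T k := fun _ h => h.1

theorem PP_mul {k k' : ℕ} {F G : Ent ι} (hF : F ∈ X.PP p k) (hG : G ∈ X.T k') :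
    F * G ∈ X.PP p (k + k') := by
  obtain ⟨hF1, hF2⟩ := hF
  have h1 : F * G ∈ X.T (k + k') := ThS_mul X.γ X.l X.c hF1 hG
  refine ⟨h1, ?_⟩
  have h2 : X.el (k + k') (F * G) h1 = X.el k F hF1 * X.el k' G hG :=
    Subtype.ext (X.fr_mul k k' F G).symm
  rw [h2]
  exact Ideal.mul_mem_right _ p hF2

/-- PROOF. `el F * el G ∈ p`, and `el G ∉ p` as its constant coefficient is not zero
(`constantCoeff_fr`). -/
theorem PP_prime (hp : p.IsPrime) (hp0 : ∀ x ∈ p, constantCoeff (x : MvPowerSeries ι ℂ) = 0)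
    {k k' : ℕ} {F G : Ent ι} (hF : F ∈ X.T k) (hG : G ∈ X.T k')
    (h : F * G ∈ X.PP p (k + k')) (h0 : (G : (ι → ℂ) → ℂ) 0 ≠ 0) : F ∈ X.PP p k := by
  obtain ⟨h1, h2⟩ := h
  have h3 : X.el (k + k') (F * G) h1 = X.el k F hF * X.el k' G hG :=
    Subtype.ext (X.fr_mul k k' F G).symm
  rw [h3] at h2
  rcases hp.mem_or_mem h2 with h4 | h4
  · exact ⟨hF, h4⟩
  · exfalso
    have h5 := hp0 _ h4
    rw [el_val, constantCoeff_fr] at h5
    exact (mul_ne_zero h0 (pow_ne_zero _ (inv_ne_zero X.hu0))) h5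

/-- `w` stabilises `p`. -/
def Stab (w : ι → ℂ) : Prop :=
  ∀ (k : ℕ) (F g : Ent ι), F ∈ X.PP p k → g ∈ X.T k → tr w F * tr (-w) g ∈ X.PP p (2 * k)

theorem Stab_zero : X.Stab p 0 := by
  intro k F g hF hg
  have h1 : tr (0 : ι → ℂ) F = F := by
    refine Subtype.ext (funext fun z => ?_)
    rw [tr_apply, zero_add]
  have h2 : tr (-0 : ι → ℂ) g = g := by
    refine Subtype.ext (funext fun z => ?_)
    rw [tr_apply, neg_zero, zero_add]
  rw [h1, h2, two_mul]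
  exact X.PP_mul p hF hg

/-- PROOF. `ThS_per`. -/
theorem Stab_per (a : A) : X.Stab p (X.γ a) := by
  intro k F g hF hg
  obtain ⟨x, hx⟩ := ThS_per X.γ X.l X.c hF.1 hg a
  rw [hx, two_mul]
  exact Submodule.smul_mem _ x (X.PP_mul p hF hg)

/-- Base point freeness in degree `k`: the `k`-th power. -/
theorem bpf_pow (hb : ∀ z : ι → ℂ, ∃ F ∈ X.T 1, (F : (ι → ℂ) → ℂ) z ≠ 0) (k : ℕ) (z : ι → ℂ) :
    ∃ F ∈ X.T k, (F : (ι → ℂ) → ℂ) z ≠ 0 := by
  obtain ⟨F, hF, hz⟩ := hb z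
  have h1 := ThS_pow X.γ X.l X.c hF k
  rw [mul_one] at h1
  refine ⟨F ^ k, h1, ?_⟩
  exact pow_ne_zero k hz

/-- PROOF. Let `F ∈ PP k`, `g ∈ T k`, `v, w` stabilise. For `g1 ∈ T k`: `F1 = tr v F * tr (-v) g1 ∈ PP (2 k)`.
For `g2 = tr (-v) g * tr v g4 ∈ T (2 k)` (`ThS_pair` with `-v`), `g4 ∈ T k`: `tr w F1 * tr (-w) g2 ∈ PP (4 k)`.
This is `(tr (v + w) F * tr (-(v + w)) g) * (tr (w - v) g1 * tr (v - w) g4)`, and the second factor is in `T (2 k)`
(`ThS_pair`). Choose `g1`, `g4` with `g1 (w - v) ≠ 0`, `g4 (v - w) ≠ 0` (`bpf_pow`); then `PP_prime`. -/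
theorem Stab_add (hp : p.IsPrime) (hp0 : ∀ x ∈ p, constantCoeff (x : MvPowerSeries ι ℂ) = 0)
    (hb : ∀ z : ι → ℂ, ∃ F ∈ X.T 1, (F : (ι → ℂ) → ℂ) z ≠ 0) (v w : ι → ℂ)
    (hv : X.Stab p v) (hw : X.Stab p w) : X.Stab p (v + w) := by
  intro k F g hF hg
  obtain ⟨g1, hg1, hz1⟩ := X.bpf_pow hb k (w - v)
  obtain ⟨g4, hg4, hz4⟩ := X.bpf_pow hb k (v - w)
  have h1 : tr v F * tr (-v) g1 ∈ X.PP p (2 * k) := hv k F g1 hF hg1
  have h2 : tr (-v) g * tr v g4 ∈ X.T (2 * k) := by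
    have h3 := ThS_pair X.γ X.l X.c hg hg4 (-v)
    rwa [neg_neg] at h3
  have h3 := hw (2 * k) _ _ h1 h2
  have h4 : tr (w - v) g1 * tr (v - w) g4 ∈ X.T (2 * k) := by
    have h5 := ThS_pair X.γ X.l X.c hg1 hg4 (w - v)
    rwa [neg_sub] at h5
  have h5 : tr (v + w) F * tr (-(v + w)) g ∈ X.T (2 * k) :=
    ThS_pair X.γ X.l X.c hF.1 hg (v + w)
  have h6 : tr w (tr v F * tr (-v) g1) * tr (-w) (tr (-v) g * tr v g4) =
      (tr (v + w) F * tr (-(v + w)) g) * (tr (w - v) g1 * tr (v - w) g4) := by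
    refine Subtype.ext (funext fun z => ?_)
    change ((F : (ι → ℂ) → ℂ) (v + (w + z)) * (g1 : (ι → ℂ) → ℂ) (-v + (w + z))) *
        ((g : (ι → ℂ) → ℂ) (-v + (-w + z)) * (g4 : (ι → ℂ) → ℂ) (v + (-w + z))) =
      ((F : (ι → ℂ) → ℂ) (v + w + z) * (g : (ι → ℂ) → ℂ) (-(v + w) + z)) *
        ((g1 : (ι → ℂ) → ℂ) (w - v + z) * (g4 : (ι → ℂ) → ℂ) (v - w + z))
    have e1 : v + (w + z) = v + w + z := by abel
    have e2 : -v + (w + z) = w - v + z := by abel
    have e3 : -v + (-w + z) = -(v + w) + z := by abel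
    have e4 : v + (-w + z) = v - w + z := by abel
    rw [e1, e2, e3, e4]
    ring
  rw [h6, two_mul (2 * k)] at h3
  refine X.PP_prime p hp hp0 h5 h4 h3 ?_
  change (g1 : (ι → ℂ) → ℂ) (w - v + 0) * (g4 : (ι → ℂ) → ℂ) (v - w + 0) ≠ 0
  rw [add_zero, add_zero]
  exact mul_ne_zero hz1 hz4

/-! Piece Zh-2: the stabiliser is closed -/

/-- PROOF. `Submodule.exists_le_ker_of_notMem` or the like (vector spaces). -/
theorem crit (P : Submodule ℂ (Ent ι)) (H : Ent ι)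
    (h : ∀ f : Ent ι →ₗ[ℂ] ℂ, (∀ x ∈ P, f x = 0) → f H = 0) : H ∈ P := by
  by_contra hH
  obtain ⟨f, hf, hP⟩ := Submodule.exists_le_ker_of_notMem hH
  exact hf (h f fun x hx => LinearMap.mem_ker.1 (hP hx))

/-- PROOF. `ev_basis` for `T (2 k)`, applied to `tr w F * tr (-w) g ∈ T (2 k)` (`ThS_pair`). -/
theorem fun_eq (hfin : ∀ k, Module.Finite ℂ (X.T k)) (k : ℕ) :
    ∃ (κ : Type) (_ : Fintype κ) (z : κ → (ι → ℂ)) (a : κ → Ent ι), (∀ i, a i ∈ X.T (2 * k)) ∧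
      (∀ H ∈ X.T (2 * k), H = ∑ i, (H : (ι → ℂ) → ℂ) (z i) • a i) ∧
      ∀ (f : Ent ι →ₗ[ℂ] ℂ) (F g : Ent ι), F ∈ X.T k → g ∈ X.T k → ∀ w : ι → ℂ,
        f (tr w F * tr (-w) g) =
          ∑ i, (F : (ι → ℂ) → ℂ) (z i + w) * (g : (ι → ℂ) → ℂ) (z i - w) * f (a i) := by
  have := hfin (2 * k)
  obtain ⟨κ, hκ, z, a, ha, hH⟩ := ev_basis (X.T (2 * k))
  refine ⟨κ, hκ, z, a, ha, hH, fun f F g hF hg w => ?_⟩
  have h1 := hH _ (ThS_pair X.γ X.l X.c hF hg w)
  have h2 := congrArg f h1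
  rw [h2, map_sum]
  refine Finset.sum_congr rfl fun i _ => ?_
  rw [map_smul, smul_eq_mul]
  have h3 : ((tr w F * tr (-w) g : Ent ι) : (ι → ℂ) → ℂ) (z i) =
      (F : (ι → ℂ) → ℂ) (w + z i) * (g : (ι → ℂ) → ℂ) (-w + z i) := rfl
  rw [h3, add_comm w, neg_add_eq_sub]

/-- PROOF. `Stab` is the intersection of the sets `{w | f (tr w F * tr (-w) g) = 0}` over all `k`,
`F ∈ PP k`, `g ∈ T k` and all functionals `f` that vanish on `PP (2 k)` (`crit`); they are closed by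
`fun_eq`. -/
theorem Stab_closed (hfin : ∀ k, Module.Finite ℂ (X.T k)) :
    IsClosed {w : ι → ℂ | X.Stab p w} := by
  have h1 : {w : ι → ℂ | X.Stab p w} = ⋂ (k : ℕ) (F : Ent ι) (g : Ent ι) (_ : F ∈ X.PP p k)
      (_ : g ∈ X.T k) (f : Ent ι →ₗ[ℂ] ℂ) (_ : ∀ x ∈ X.PP p (2 * k), f x = 0),
      {w : ι → ℂ | f (tr w F * tr (-w) g) = 0} := by
    ext w
    simp only [Set.mem_iInter, Set.mem_setOf_eq]
    constructor
    · intro hw k F g hF hg f hf
      exact hf _ (hw k F g hF hg)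
    · intro hw k F g hF hg
      exact crit _ _ fun f hf => hw k F g hF hg f hf
  rw [h1]
  refine isClosed_iInter fun k => isClosed_iInter fun F => isClosed_iInter fun g =>
    isClosed_iInter fun hF => isClosed_iInter fun hg => isClosed_iInter fun f =>
    isClosed_iInter fun hf => ?_
  obtain ⟨κ, _, z, a, _, _, hfe⟩ := X.fun_eq hfin k
  have hF' : F ∈ X.T k := X.PP_le p k hF
  have h2 : {w : ι → ℂ | f (tr w F * tr (-w) g) = 0} = {w : ι → ℂ |
      ∑ i, (F : (ι → ℂ) → ℂ) (z i + w) * (g : (ι → ℂ) → ℂ) (z i - w) * f (a i) = 0} := by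
    ext w
    rw [Set.mem_setOf_eq, Set.mem_setOf_eq, hfe f F g hF' hg w]
  rw [h2]
  refine isClosed_eq ?_ continuous_const
  refine continuous_finset_sum _ fun i _ => ?_
  refine Continuous.mul (Continuous.mul ?_ ?_) continuous_const
  · exact F.2.continuous.comp (continuous_const.add continuous_id)
  · exact g.2.continuous.comp (continuous_const.sub continuous_id)

/-! Piece Zh-3: the Lie algebra -/

/-- The derivation of `SS` in the direction `v`. -/
def dv (v : ι → ℂ) : Derivation ℂ X.SS X.SS := X.dS.dir fun i => X.b.repr v i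

/-- PROOF. `dir_fr` and `X.b.sum_repr`. -/
theorem dv_el (v : ι → ℂ) (k : ℕ) (F : Ent ι) (hF : F ∈ X.T k) :
    ((X.dv v (X.el k F hF) : X.SS) : MvPowerSeries ι ℂ) =
      X.fr (2 * k) (dE v F * X.u0 ^ k - F * dE v (X.u0 ^ k)) := by
  have h1 := X.dir_fr (fun i => X.b.repr v i) k F hF
  rw [X.b.sum_repr v] at h1
  exact h1

private theorem Zh3_sum (s : Finset ι) (a : ι → ℂ) (x : X.SS) :
    (∑ i ∈ s, a i • X.dS.D i : Derivation ℂ X.SS X.SS) x = ∑ i ∈ s, a i • X.dS.D i x := by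
  classical
  induction s using Finset.induction_on with
  | empty => rfl
  | insert i s hi ih =>
    rw [sum_insert hi, sum_insert hi, ← ih]
    rfl

private theorem Zh3_dv (v : ι → ℂ) (x : X.SS) :
    X.dv v x = ∑ i, X.b.repr v i • X.dS.D i x :=
  X.Zh3_sum univ (fun i => X.b.repr v i) x

/-- The directions in which `p` is stable. -/
def hh : Submodule ℂ (ι → ℂ) where
  carrier := {v | ∀ x ∈ p, X.dv v x ∈ p}
  add_mem' := by
    intro v w hv hw x hx
    have h1 : X.dv (v + w) x = X.dv v x + X.dv w x := by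
      rw [Zh3_dv, Zh3_dv, Zh3_dv, ← sum_add_distrib]
      refine sum_congr rfl fun i _ => ?_
      rw [map_add, Finsupp.add_apply, add_smul]
    rw [h1]
    exact p.add_mem (hv x hx) (hw x hx)
  zero_mem' := by
    intro x _
    have h1 : X.dv 0 x = 0 := by
      rw [Zh3_dv]
      refine sum_eq_zero fun i _ => ?_
      rw [map_zero, Finsupp.zero_apply, zero_smul]
    rw [h1]
    exact p.zero_mem
  smul_mem' := by
    intro c v hv x hx
    have h1 : X.dv (c • v) x = c • X.dv v x := by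
      rw [Zh3_dv, Zh3_dv, smul_sum]
      refine sum_congr rfl fun i _ => ?_
      rw [map_smul, Finsupp.smul_apply, smul_eq_mul, mul_smul]
    rw [h1]
    exact Submodule.smul_of_tower_mem p c (hv x hx)

theorem mem_hh {v : ι → ℂ} : v ∈ X.hh p ↔ ∀ x ∈ p, X.dv v x ∈ p := Iff.rfl

/-- PROOF. Let `x = el k F ∈ p`. By `dv_el` and `mem_PP` it suffices that
`W = dE v F * u0 ^ k - F * dE v (u0 ^ k) ∈ PP (2 k)` (it is in `T (2 k)`: `ThS_wron`); `crit`: let `f` vanish on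
`PP (2 k)`. With `fun_eq`, `g = u0 ^ k`, `w = t • v`: `∑ i, F (z i + t v) g (z i - t v) f (a i) = 0` for all
real `t ≥ 0`. The derivative at `t = 0` is `∑ i, W (z i) * f (a i) = f W`, and it is zero. -/
theorem hh_of_rays (hfin : ∀ k, Module.Finite ℂ (X.T k)) (v : ι → ℂ)
    (h : ∀ t : ℝ, 0 ≤ t → X.Stab p (t • v)) : v ∈ X.hh p := by
  intro x hx
  obtain ⟨k, F, hF, rfl⟩ := X.exists_el x
  have hu : X.u0 ^ k ∈ X.T k := by
    have h1 := ThS_pow X.γ X.l X.c X.hu k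
    rwa [mul_one] at h1
  have hW : dE v F * X.u0 ^ k - F * dE v (X.u0 ^ k) ∈ X.T (2 * k) :=
    ThS_wron X.γ X.l X.c hF hu v
  have hFP : F ∈ X.PP p k := ⟨hF, hx⟩
  have h1 : X.dv v (X.el k F hF) =
      X.el (2 * k) (dE v F * X.u0 ^ k - F * dE v (X.u0 ^ k)) hW :=
    Subtype.ext (X.dv_el v k F hF)
  rw [h1]
  suffices h2 : dE v F * X.u0 ^ k - F * dE v (X.u0 ^ k) ∈ X.PP p (2 * k) from h2.2
  refine crit (X.PP p (2 * k)) _ fun f hf => ?_
  obtain ⟨κ, hκ, z, a, ha, hH, hfun⟩ := X.fun_eq hfin k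
  have hl : ∀ (G : Ent ι) (y w : ι → ℂ),
      HasDerivAt (fun t : ℝ => (G : (ι → ℂ) → ℂ) (y + t • w)) ((dE w G : (ι → ℂ) → ℂ) y) 0 :=
    fun G y w => ((G.2 y).hasFDerivAt.restrictScalars ℝ).hasLineDerivAt w
  have hd : HasDerivAt (fun t : ℝ => ∑ i, (F : (ι → ℂ) → ℂ) (z i + t • v) *
      ((X.u0 ^ k : Ent ι) : (ι → ℂ) → ℂ) (z i + t • (-v)) * f (a i))
      (∑ i, ((dE v F : (ι → ℂ) → ℂ) (z i) * ((X.u0 ^ k : Ent ι) : (ι → ℂ) → ℂ) (z i + (0 : ℝ) • (-v)) +
        (F : (ι → ℂ) → ℂ) (z i + (0 : ℝ) • v) * (dE (-v) (X.u0 ^ k) : (ι → ℂ) → ℂ) (z i)) *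
          f (a i)) 0 :=
    HasDerivAt.fun_sum fun i _ => ((hl F (z i) v).mul (hl (X.u0 ^ k) (z i) (-v))).mul_const _
  have hz : ∀ t ∈ Set.Ici (0 : ℝ), ∑ i, (F : (ι → ℂ) → ℂ) (z i + t • v) *
      ((X.u0 ^ k : Ent ι) : (ι → ℂ) → ℂ) (z i + t • (-v)) * f (a i) = 0 := by
    intro t ht
    have h2 := hf _ (h t ht k F (X.u0 ^ k) hFP hu)
    rw [hfun f F (X.u0 ^ k) hF hu (t • v)] at h2
    rw [← h2]
    refine sum_congr rfl fun i _ => ?_
    rw [smul_neg, ← sub_eq_add_neg]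
  have hd0 : HasDerivWithinAt (fun t : ℝ => ∑ i, (F : (ι → ℂ) → ℂ) (z i + t • v) *
      ((X.u0 ^ k : Ent ι) : (ι → ℂ) → ℂ) (z i + t • (-v)) * f (a i)) 0 (Set.Ici 0) 0 :=
    (hasDerivWithinAt_const (0 : ℝ) (Set.Ici (0 : ℝ)) (0 : ℂ)).congr hz (hz 0 Set.self_mem_Ici)
  have h3 := (uniqueDiffWithinAt_Ici (0 : ℝ)).eq_deriv _ hd.hasDerivWithinAt hd0
  rw [hH _ hW, map_sum, ← h3]
  refine sum_congr rfl fun i _ => ?_
  rw [map_smul, smul_eq_mul, zero_smul, zero_smul, add_zero]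
  congr 1
  have h4 : (dE (-v) (X.u0 ^ k) : (ι → ℂ) → ℂ) (z i) =
      -(dE v (X.u0 ^ k) : (ι → ℂ) → ℂ) (z i) := by
    rw [dE_apply, dE_apply, map_neg]
  rw [h4]
  change (dE v F : (ι → ℂ) → ℂ) (z i) * ((X.u0 ^ k : Ent ι) : (ι → ℂ) → ℂ) (z i) -
    (F : (ι → ℂ) → ℂ) (z i) * (dE v (X.u0 ^ k) : (ι → ℂ) → ℂ) (z i) = _
  ring

/-! Piece Zh-4: exponentials -/

private theorem Zh4_alg {R : Type} [CommRing R] (t a t' a' f f' z : R) (e1 : t * a = 1)
    (e2 : t' * a' = 1) (k : ℕ) :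
    f * a ^ k * (f' * a' ^ k * (t * t' * z) ^ k) = f * f' * z ^ k := by
  calc f * a ^ k * (f' * a' ^ k * (t * t' * z) ^ k) =
        f * f' * z ^ k * ((t * a) ^ k * (t' * a') ^ k) := by
          rw [mul_pow, mul_pow, mul_pow, mul_pow]
          ring
    _ = f * f' * z ^ k := by rw [e1, e2, one_pow, mul_one, mul_one]

private theorem Zh4_tay (x : X.SS) :
    MvPowerSeries.map (X.SS.val : X.SS →+* MvPowerSeries ι ℂ) (tay X.dS (AlgHom.id ℂ X.SS) x) =
      tay (psD ι) (AlgHom.id ℂ (MvPowerSeries ι ℂ)) (x : MvPowerSeries ι ℂ) := by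
  rw [map_tay, AlgHom.comp_id]
  have h1 : ∀ i (x : X.SS), X.SS.val (X.dS.D i x) = (psD ι).D i (X.SS.val x) := fun i x => rfl
  have h2 := tay_nat X.dS (psD ι) X.SS.val h1 (AlgHom.id ℂ (MvPowerSeries ι ℂ)) x
  rw [AlgHom.id_comp] at h2
  exact h2.symm

private theorem Zh4_neg (x : X.SS) :
    MvPowerSeries.map (X.SS.val : X.SS →+* MvPowerSeries ι ℂ)
        (tay X.dS.neg (AlgHom.id ℂ X.SS) x) =
      tay (psD ι).neg (AlgHom.id ℂ (MvPowerSeries ι ℂ)) (x : MvPowerSeries ι ℂ) := by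
  rw [map_tay, AlgHom.comp_id]
  have h1 : ∀ i (x : X.SS), X.SS.val (X.dS.neg.D i x) = (psD ι).neg.D i (X.SS.val x) :=
    fun i x => rfl
  have h2 := tay_nat X.dS.neg (psD ι).neg X.SS.val h1 (AlgHom.id ℂ (MvPowerSeries ι ℂ)) x
  rw [AlgHom.id_comp] at h2
  exact h2.symm

private theorem Zh4_fr (j : ℕ) (W : MvPowerSeries ι (Ent ι)) (V : MvPowerSeries ι X.SS)
    (h : ∀ α, ((coeff α V : X.SS) : MvPowerSeries ι ℂ) = X.fr j (coeff α W)) :
    MvPowerSeries.map (X.SS.val : X.SS →+* MvPowerSeries ι ℂ) V =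
      MvPowerSeries.map (TT X.b : Ent ι →+* MvPowerSeries ι ℂ) W *
        MvPowerSeries.C (X.iu ^ j) := by
  refine MvPowerSeries.ext fun α => ?_
  rw [coeff_map, coeff_mul_C, coeff_map]
  exact h α

/-- PROOF. As for `coeff_tay_U`: the image of `tay dS.neg id (el g)` over `P` is
`tay (psD ι).neg (TT g) * tay (psD ι).neg (iu) ^ k`. -/
theorem coeff_tay_U2 (k : ℕ) (F g : Ent ι) (hF : F ∈ X.T k) (hg : g ∈ X.T k) (α : ι →₀ ℕ) :
    ((coeff α (tay X.dS (AlgHom.id ℂ X.SS) (X.el k F hF) *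
        (tay X.dS.neg (AlgHom.id ℂ X.SS) (X.el k g hg) * X.U ^ k)) : X.SS) :
      MvPowerSeries ι ℂ) = X.fr (2 * k) (coeff α (HH X.b F g)) := by
  have hU := X.Zh4_fr 2 (HH X.b X.u0 X.u0) X.U (X.coeff_U)
  rw [map_TT_HH] at hU
  have e1 : tay (psD ι) (AlgHom.id ℂ (MvPowerSeries ι ℂ)) (TT X.b X.u0) *
      tay (psD ι) (AlgHom.id ℂ (MvPowerSeries ι ℂ)) X.iu = 1 := by
    rw [← map_mul, X.mul_iu, map_one]
  have e2 : tay (psD ι).neg (AlgHom.id ℂ (MvPowerSeries ι ℂ)) (TT X.b X.u0) *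
      tay (psD ι).neg (AlgHom.id ℂ (MvPowerSeries ι ℂ)) X.iu = 1 := by
    rw [← map_mul, X.mul_iu, map_one]
  have e3 : (C (X.iu ^ (2 * k)) : MvPowerSeries ι (MvPowerSeries ι ℂ)) = C (X.iu ^ 2) ^ k := by
    rw [pow_mul, map_pow]
  have key : MvPowerSeries.map (X.SS.val : X.SS →+* MvPowerSeries ι ℂ)
      (tay X.dS (AlgHom.id ℂ X.SS) (X.el k F hF) *
        (tay X.dS.neg (AlgHom.id ℂ X.SS) (X.el k g hg) * X.U ^ k)) =
      MvPowerSeries.map (TT X.b : Ent ι →+* MvPowerSeries ι ℂ) (HH X.b F g) *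
        MvPowerSeries.C (X.iu ^ (2 * k)) := by
    rw [map_mul, map_mul, map_pow, Zh4_tay, Zh4_neg, hU, X.el_val, X.el_val, X.fr_apply,
      X.fr_apply, map_mul, map_mul, map_pow, map_pow, map_TT_HH, e3]
    exact Zh4_alg _ _ _ _ _ _ _ e1 e2 k
  have h1 : ∀ V : MvPowerSeries ι X.SS, ((coeff α V : X.SS) : MvPowerSeries ι ℂ) =
      coeff α (MvPowerSeries.map (X.SS.val : X.SS →+* MvPowerSeries ι ℂ) V) := fun V => by
    rw [coeff_map]
    rfl
  rw [h1, key, coeff_mul_C, coeff_map, X.fr_apply]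
  rfl

end LD

open scoped Classical in
/-- The coefficient of `s ^ n` in `f (s a)`. -/
def lc {ι M : Type} [Fintype ι] [AddCommGroup M] [Module ℂ M] (a : ι → ℂ) (n : ℕ)
    (f : (ι →₀ ℕ) → M) : M :=
  ∑ α ∈ (univ : Finset ι).finsuppAntidiag n, (∏ i, a i ^ α i) • f α

/-- PROOF. The coefficient of `s ^ n` of the product is
`∑_(i + j = n) lc a i f * lc a j g`: reorganise the finite sum over `α` of degree `n` and
`(β, β') ∈ antidiagonal α`. -/
theorem lc_mul {ι S : Type} [Fintype ι] [CommRing S] [Algebra ℂ S] (p : Ideal S) (a : ι → ℂ)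
    (f g : MvPowerSeries ι S) (h : ∀ n, lc a n (fun α => coeff α f) ∈ p) (n : ℕ) :
    lc a n (fun α => coeff α (f * g)) ∈ p := by
  classical
  have key : lc a n (fun α => coeff α (f * g)) =
      ∑ q ∈ antidiagonal n, lc a q.1 (fun α => coeff α f) * lc a q.2 (fun α => coeff α g) := by
    have h1 : ∀ α : ι →₀ ℕ, (∏ i, a i ^ α i) • coeff α (f * g) =
        ∑ q ∈ antidiagonal α, ((∏ i, a i ^ q.1 i) • coeff q.1 f) *
          ((∏ i, a i ^ q.2 i) • coeff q.2 g) := by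
      intro α
      rw [coeff_mul, smul_sum]
      refine sum_congr rfl fun q hq => ?_
      rw [HasAntidiagonal.mem_antidiagonal] at hq
      have h2 : (∏ i, a i ^ α i) = (∏ i, a i ^ q.1 i) * ∏ i, a i ^ q.2 i := by
        rw [← prod_mul_distrib]
        refine prod_congr rfl fun i _ => ?_
        rw [← hq, Finsupp.add_apply, pow_add]
      rw [h2, smul_mul_smul_comm]
    unfold lc
    simp only [h1, sum_mul_sum]
    rw [sum_sigma', sum_congr rfl fun q _ => (sum_product' _ _ _).symm, sum_sigma']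
    refine sum_bij' (fun x _ => ⟨(x.2.1.degree, x.2.2.degree), x.2⟩)
      (fun x _ => ⟨x.2.1 + x.2.2, x.2⟩) ?_ ?_ ?_ ?_ ?_
    · rintro ⟨α, β, β'⟩ hx
      simp only [mem_sigma, mem_finsuppAntidiag, HasAntidiagonal.mem_antidiagonal] at hx
      obtain ⟨⟨hx1, _⟩, rfl⟩ := hx
      simp only [mem_sigma, mem_finsuppAntidiag, HasAntidiagonal.mem_antidiagonal, mem_product,
        Finsupp.degree_eq_sum, subset_univ, and_true]
      rw [← hx1, ← sum_add_distrib]
      rfl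
    · rintro ⟨⟨i, j⟩, β, β'⟩ hx
      simp only [mem_sigma, mem_finsuppAntidiag, HasAntidiagonal.mem_antidiagonal, mem_product,
        subset_univ, and_true] at hx
      obtain ⟨h2, h3, h4⟩ := hx
      simp only [mem_sigma, mem_finsuppAntidiag, HasAntidiagonal.mem_antidiagonal, subset_univ,
        and_true]
      rw [← h2, ← h3, ← h4, ← sum_add_distrib]
      rfl
    · rintro ⟨α, β, β'⟩ hx
      simp only [mem_sigma, mem_finsuppAntidiag, HasAntidiagonal.mem_antidiagonal] at hx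
      obtain ⟨⟨hx1, _⟩, rfl⟩ := hx
      rfl
    · rintro ⟨⟨i, j⟩, β, β'⟩ hx
      simp only [mem_sigma, mem_finsuppAntidiag, HasAntidiagonal.mem_antidiagonal, mem_product,
        subset_univ, and_true] at hx
      obtain ⟨h2, rfl, rfl⟩ := hx
      simp only [Finsupp.degree_eq_sum]
    · rintro ⟨α, β, β'⟩ hx
      rfl
  rw [key]
  exact p.sum_mem fun q _ => p.mul_mem_right _ (h q.1)

/-- PROOF. `dir_pow`: it is `(n !)⁻¹ • (d.dir a)^[n] x`. -/
theorem lc_tay {ι S : Type} [Fintype ι] [CommRing S] [Algebra ℂ S] (d : CD ι S) (p : Ideal S)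
    (a : ι → ℂ) (ha : ∀ x ∈ p, d.dir a x ∈ p) (x : S) (hx : x ∈ p) (n : ℕ) :
    lc a n (fun α => coeff α (tay d (AlgHom.id ℂ S) x)) ∈ p := by
  classical
  have h1 : ∀ m : ℕ, (d.dir a)^[m] x ∈ p := by
    intro m
    induction m with
    | zero => exact hx
    | succ m ih =>
      rw [Function.iterate_succ_apply']
      exact ha _ ih
  have h2 : lc a n (fun α => coeff α (tay d (AlgHom.id ℂ S) x)) =
      ((n.factorial : ℂ)⁻¹) • (d.dir a)^[n] x := by
    rw [dir_pow, smul_sum]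
    unfold lc
    refine sum_congr rfl fun α _ => ?_
    have h3 : (n.factorial : ℂ) ≠ 0 := by exact_mod_cast n.factorial_ne_zero
    beta_reduce
    rw [coeff_tay, AlgHom.id_apply, smul_smul, smul_smul]
    congr 1
    field_simp
  rw [h2]
  exact Submodule.smul_of_tower_mem p _ (h1 n)

/-- PROOF. `dir_pow`, `cE_dir`, `coeff_tay`. -/
theorem lc_TT {ι : Type} [Fintype ι] (b : Module.Basis ι ℂ (ι → ℂ)) (K : Ent ι) (v : ι → ℂ) (n : ℕ) :
    ((dE v)^[n] K : (ι → ℂ) → ℂ) 0 =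
      n.factorial * lc (fun i => b.repr v i) n (fun α => coeff α (TT b K)) := by
  classical
  have h1 : (cE b).dir (fun i => b.repr v i) = dE v := by
    rw [cE_dir, b.sum_repr]
  have h2 := dir_pow (cE b) (fun i => b.repr v i) n K
  rw [h1] at h2
  have h3 : ((dE v)^[n] K : (ι → ℂ) → ℂ) 0 = evE 0 ((dE v)^[n] K) := rfl
  rw [h3, h2, map_sum]
  unfold lc
  rw [mul_sum]
  refine sum_congr rfl fun α _ => ?_
  beta_reduce
  rw [TT_def, coeff_tay, map_smul, smul_eq_mul, smul_eq_mul, smul_eq_mul]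
  ring

namespace LD

variable {ι A : Type} [Fintype ι] [AddCommGroup A] (X : LD ι A) (p : Ideal X.SS)

private theorem Zh6_fr (k : ℕ) (a : ι → ℂ) (n : ℕ) (f : (ι →₀ ℕ) → Ent ι)
    (g : (ι →₀ ℕ) → X.SS) (h : ∀ α, ((g α : X.SS) : MvPowerSeries ι ℂ) = X.fr k (f α)) :
    ((lc a n g : X.SS) : MvPowerSeries ι ℂ) = X.fr k (lc a n f) := by
  unfold lc
  rw [map_sum, AddSubmonoidClass.coe_finsetSum]
  refine sum_congr rfl fun α _ => ?_
  rw [map_smul, ← h]
  rfl

/-- PROOF. It is in `T (2 k)` by `HH_mem`. By `coeff_tay_U2` its quotient is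
`lc a n (fun α => coeff α (tay dS id (el F) * ...))`, in `p` by `lc_mul` and `lc_tay`. -/
theorem lc_HH_mem {v : ι → ℂ} (hv : v ∈ X.hh p) {k : ℕ} {F g : Ent ι} (hF : F ∈ X.PP p k)
    (hg : g ∈ X.T k) (n : ℕ) :
    lc (fun i => X.b.repr v i) n (fun α => coeff α (HH X.b F g)) ∈ X.PP p (2 * k) := by
  obtain ⟨hFT, hFp⟩ := hF
  have hmem : lc (fun i => X.b.repr v i) n (fun α => coeff α (HH X.b F g)) ∈ X.T (2 * k) :=
    Submodule.sum_mem _ fun α _ => Submodule.smul_mem _ _ (HH_mem X.γ X.l X.c X.b hFT hg α)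
  refine ⟨hmem, ?_⟩
  have h1 : ∀ n, lc (fun i => X.b.repr v i) n
      (fun α => coeff α (tay X.dS (AlgHom.id ℂ X.SS) (X.el k F hFT))) ∈ p :=
    fun n => lc_tay X.dS p _ hv (X.el k F hFT) hFp n
  have h2 := lc_mul p (fun i => X.b.repr v i) _
    (tay X.dS.neg (AlgHom.id ℂ X.SS) (X.el k g hg) * X.U ^ k) h1 n
  have h3 : X.el (2 * k) _ hmem = lc (fun i => X.b.repr v i) n
      (fun α => coeff α (tay X.dS (AlgHom.id ℂ X.SS) (X.el k F hFT) *
        (tay X.dS.neg (AlgHom.id ℂ X.SS) (X.el k g hg) * X.U ^ k))) :=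
    Subtype.ext (Zh6_fr X (2 * k) _ n _ _ fun α => X.coeff_tay_U2 k F g hFT hg α).symm
  rw [h3]
  exact h2

/-- PROOF. Let `F ∈ PP k`, `g ∈ T k`; `crit`: let `f` vanish on `PP (2 k)`. By `fun_eq` the function
`φ s = f (tr (s v) F * tr (- s v) g) = ∑ i, F (z i + s v) g (z i - s v) f (a i)` is entire in `s ∈ ℂ`. Its
`n`-th derivative at `0` is `∑ i, ((dE v)^[n] (tr (z i) F * rf (z i) g)) 0 * f (a i)` (`iter_line` with `z = 0`),
which is `n ! * ∑ i, lc a n (fun α => coeff α (HH b F g)) (z i) * f (a i)` (`lc_TT`, `HH_apply`), i.e. `n !` times the value of `f` at an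
element of `PP (2 k)` (`lc_HH_mem`; the expansion of `fun_eq`). So it is `0` for all `n`, `φ = 0` and `φ 1 = 0`. -/
theorem Stab_of_hh (hfin : ∀ k, Module.Finite ℂ (X.T k)) (v : ι → ℂ) (hv : v ∈ X.hh p) :
    X.Stab p v := by
  intro k F g hF hg
  refine crit (X.PP p (2 * k)) _ fun f hf => ?_
  obtain ⟨κ, hκ, z, a, ha, hH, hfun⟩ := X.fun_eq hfin k
  have hFT : F ∈ X.T k := hF.1
  obtain ⟨K, hK⟩ : ∃ K : Ent ι, K = ∑ i, f (a i) • (tr (z i) F * rf (z i) g) := ⟨_, rfl⟩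
  have h1 : ∀ w : ι → ℂ, (K : (ι → ℂ) → ℂ) w = f (tr w F * tr (-w) g) := by
    intro w
    rw [hfun f F g hFT hg w]
    have h2 : (K : (ι → ℂ) → ℂ) w = evE w K := rfl
    rw [h2, hK, map_sum]
    refine sum_congr rfl fun i _ => ?_
    rw [map_smul]
    change f (a i) * ((F : (ι → ℂ) → ℂ) (z i + w) * (g : (ι → ℂ) → ℂ) (z i - w)) = _
    ring
  have h3 : ∀ n : ℕ, ((dE v)^[n] K : (ι → ℂ) → ℂ) 0 = 0 := by
    intro n
    rw [lc_TT X.b K v n]
    have hY := X.lc_HH_mem p hv hF hg n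
    have h4 : lc (fun i => X.b.repr v i) n (fun α => coeff α (TT X.b K)) =
        f (lc (fun i => X.b.repr v i) n (fun α => coeff α (HH X.b F g))) := by
      have h5 : ∀ i, ((lc (fun i => X.b.repr v i) n (fun α => coeff α (HH X.b F g)) : Ent ι) :
          (ι → ℂ) → ℂ) (z i) =
          lc (fun i => X.b.repr v i) n
            (fun α => coeff α (TT X.b (tr (z i) F * rf (z i) g))) := by
        intro i
        have h6 : ((lc (fun i => X.b.repr v i) n (fun α => coeff α (HH X.b F g)) : Ent ι) :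
          (ι → ℂ) → ℂ) (z i) = evE (z i) (lc (fun i => X.b.repr v i) n
            (fun α => coeff α (HH X.b F g))) := rfl
        rw [h6]
        unfold lc
        rw [map_sum]
        refine sum_congr rfl fun α _ => ?_
        rw [map_smul, evE_apply, HH_apply]
      rw [hH _ hY.1, map_sum]
      simp only [map_smul, h5]
      rw [hK]
      unfold lc
      simp only [map_sum, map_smul, smul_sum, sum_smul]
      rw [sum_comm]
      refine sum_congr rfl fun i _ => sum_congr rfl fun α _ => ?_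
      simp only [smul_eq_mul]
      ring
    rw [h4, hf _ hY, mul_zero]
  have h7 : (K : (ι → ℂ) → ℂ) v = 0 := by
    have e1 : Differentiable ℂ (fun s : ℂ => (K : (ι → ℂ) → ℂ) (0 + s • v)) :=
      K.2.comp ((differentiable_id.smul_const v).const_add 0)
    have e2 := Complex.taylorSeries_eq_of_entire e1 0 1
    have e3 : ∀ n : ℕ, ((n.factorial : ℂ))⁻¹ • ((1 : ℂ) - 0) ^ n •
        iteratedDeriv n (fun s : ℂ => (K : (ι → ℂ) → ℂ) (0 + s • v)) 0 = 0 := by
      intro n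
      rw [iter_line K 0 v n 0, zero_smul, add_zero, h3 n, smul_zero, smul_zero]
    simp only [e3, tsum_zero] at e2
    rw [one_smul, zero_add] at e2
    exact e2.symm
  rw [← h1, h7]

/-! Piece Zh-5: conclusion -/

/-- PROOF. `Pool.Agent.Helper35.LZ.lattice_monoid` with `G = Stab`, `h = hh` (restriction of scalars),
`Γ` = the range of `γ`. -/
theorem hh_span (hfin : ∀ k, Module.Finite ℂ (X.T k))
    (hc : ∃ R : ℝ, ∀ z, ∃ a, ‖z - X.γ a‖ ≤ R) (hp : p.IsPrime)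
    (hp0 : ∀ x ∈ p, constantCoeff (x : MvPowerSeries ι ℂ) = 0)
    (hb : ∀ z : ι → ℂ, ∃ F ∈ X.T 1, (F : (ι → ℂ) → ℂ) z ≠ 0) :
    ∀ v ∈ X.hh p, v ∈ Submodule.span ℝ {y : ι → ℂ | y ∈ X.hh p ∧ ∃ a, y = X.γ a} := by
  intro v hv
  let G : AddSubmonoid (ι → ℂ) :=
    { carrier := {w | X.Stab p w}
      add_mem' := fun {x y} hx hy => X.Stab_add p hp hp0 hb x y hx hy
      zero_mem' := X.Stab_zero p }
  have hG : IsClosed (G : Set (ι → ℂ)) := X.Stab_closed p hfin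
  have key := Pool.Agent.Helper35.LZ.lattice_monoid G hG ((X.hh p).restrictScalars ℝ)
    (fun v hv => X.Stab_of_hh p hfin v hv) (fun v h => X.hh_of_rays p hfin v h) (Set.range X.γ)
    (by
      rintro _ ⟨a, rfl⟩
      exact X.Stab_per p a)
    (by
      rintro _ ⟨a, rfl⟩ _ ⟨a', rfl⟩
      exact ⟨a - a', map_sub _ _ _⟩)
    (by
      obtain ⟨R, hR⟩ := hc
      refine ⟨R, fun z => ?_⟩
      obtain ⟨a, ha⟩ := hR z
      exact ⟨_, ⟨a, rfl⟩, ha⟩) v hv
  refine Submodule.span_mono ?_ key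
  rintro y ⟨⟨a, rfl⟩, hy⟩
  exact ⟨hy, a, rfl⟩

private theorem Zh5_dir {R : Type} [CommRing R] [Algebra ℂ R] (d : CD ι R) (a : ι → ℂ) (x : R) :
    d.dir a x = ∑ i, a i • d.D i x := by
  unfold CD.dir
  have h3 := map_sum (Derivation.coeFnAddMonoidHom (R := ℂ) (A := R) (M := R))
    (fun i => a i • d.D i) univ
  have h4 := congr_fun h3 x
  rw [Finset.sum_apply] at h4
  exact h4

/-- PROOF. Induction on `n = ∑ i ∉ J, α i` (for all `α` of degree at most `N`). `n = 0`: `mem_IJ`.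
Otherwise `α = β + single i 1` with `i ∉ J`, and `b i = v + h` with `v` in the span of the `b j`, `j ∈ J`, and
`h ∈ hh`: `dS.D i = ∑ j ∈ J, t j • dS.D j + dv h`; `pw α f = D i (pw β f)` (`CD.pw_succ`) is the sum of the
`t j • pw (β + single j 1) f`, in `p` by induction, and of `dv h (pw β f)`, in `p` since `pw β f ∈ p` by
induction. (`hV` : every `b i` is the sum of an element of `hh` and a combination of the `b j`, `j ∈ J`.) -/
theorem all_mem (J : Finset ι) (f : X.SS) (N : ℕ) (hJ : IJ X.dS J f N ≤ p)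
    (hV : ∀ i, ∃ t : ι → ℂ, (∀ j, j ∉ J → t j = 0) ∧ X.b i - ∑ j, t j • X.b j ∈ X.hh p)
    (α : ι →₀ ℕ) (hα : α.degree ≤ N) : X.dS.pw α f ∈ p := by
  classical
  have key : ∀ n : ℕ, ∀ α : ι →₀ ℕ, α.degree ≤ N → ∑ i ∈ univ \ J, α i = n →
      X.dS.pw α f ∈ p := by
    intro n
    induction n with
    | zero =>
      intro α hα h0
      refine hJ (mem_IJ X.dS J f α (fun i hi => ?_) hα)
      rw [Finset.sum_eq_zero_iff] at h0
      exact h0 i (Finset.mem_sdiff.2 ⟨mem_univ i, hi⟩)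
    | succ n ih =>
      intro α hα h0
      obtain ⟨i, hi, hi0⟩ : ∃ i ∈ univ \ J, α i ≠ 0 := by
        by_contra hcon
        push Not at hcon
        rw [Finset.sum_eq_zero hcon] at h0
        omega
      have hle : Finsupp.single i 1 ≤ α := by
        rw [Finsupp.single_le_iff]
        omega
      obtain ⟨β, rfl⟩ : ∃ β, α = β + Finsupp.single i 1 :=
        ⟨α - Finsupp.single i 1, (tsub_add_cancel_of_le hle).symm⟩
      have hd : β.degree + 1 ≤ N := by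
        rwa [map_add, Finsupp.degree_single] at hα
      have hs : ∑ k ∈ univ \ J, β k = n := by
        have h1 : ∑ k ∈ univ \ J, (β + Finsupp.single i 1 : ι →₀ ℕ) k = ∑ k ∈ univ \ J, β k + 1 := by
          simp only [Finsupp.add_apply, Finset.sum_add_distrib]
          congr 1
          rw [Finset.sum_eq_single i, Finsupp.single_eq_same]
          · intro k _ hk
            exact Finsupp.single_eq_of_ne hk
          · intro h
            exact absurd hi h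
        omega
      obtain ⟨t, ht, hv⟩ := hV i
      have hx : X.dS.pw β f ∈ p := ih β (by omega) hs
      have h1 := hv _ hx
      have h2 : X.dv (X.b i - ∑ j, t j • X.b j) (X.dS.pw β f) =
          X.dS.D i (X.dS.pw β f) - ∑ j, t j • X.dS.D j (X.dS.pw β f) := by
        unfold LD.dv
        rw [Zh5_dir]
        have h3 : ∀ k, X.b.repr (X.b i - ∑ j, t j • X.b j) k =
            (Finsupp.single i (1 : ℂ)) k - t k := by
          intro k
          rw [map_sub, Finsupp.sub_apply, Module.Basis.repr_self, Module.Basis.repr_sum_self]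
        simp only [h3, sub_smul, Finset.sum_sub_distrib]
        congr 1
        rw [Finset.sum_eq_single i, Finsupp.single_eq_same, one_smul]
        · intro k _ hk
          rw [Finsupp.single_eq_of_ne hk, zero_smul]
        · intro h
          exact absurd (mem_univ i) h
      rw [h2] at h1
      rw [CD.pw_succ]
      have h3 : ∑ j, t j • X.dS.D j (X.dS.pw β f) ∈ p := by
        refine Ideal.sum_mem _ fun j _ => ?_
        by_cases hj : j ∈ J
        · rw [← CD.pw_succ]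
          refine Submodule.smul_of_tower_mem p (t j) (ih _ ?_ ?_)
          · rwa [map_add, Finsupp.degree_single]
          · rw [← hs]
            refine Finset.sum_congr rfl fun k hk => ?_
            have hk2 : k ≠ j := fun h => (Finset.mem_sdiff.1 hk).2 (h ▸ hj)
            rw [Finsupp.add_apply, Finsupp.single_eq_of_ne hk2, add_zero]
        · rw [ht j hj, zero_smul]
          exact p.zero_mem
      have h4 := p.add_mem h1 h3
      rwa [sub_add_cancel] at h4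
  exact key _ α hα rfl

end LD

end

end Pool.Agent.Helper63.LT
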